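import Mathlib
import Pool.Agent.Work.MP_77d073_nt.GapDefs

/-!
# MP_77d073_nt/Alg, Defs (helper3; FIXED, do not change): algebraic forms

Paper (complete proofs in the headers of the files of this folder).  `l` is a linear form with `l i₀ = 1` and algebraic coefficients, `M_v`, `M_u` are unimodular integer
matrices reduced at the times `v`, `u` of the ray `ry i₀`, `P M_u = M_v`.  If the rows `i₀` of the two reduced systems are proportional up to `exp (- δ R)`
(`u, v ≤ R`), then they are proportional, for all large `R` (`KT`).  Proof: the Subspace theorem (`Work/SUB`) for the integer point `P` of `M_n(ℚ)` and the forms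
`YY (r, q)`, with an induction over the rational subspaces containing `P`.
-/

set_option autoImplicit false

noncomputable section

namespace Pool.Agent.Work.MP_77d073_nt.Alg

open Pool.Agent.Work.MP_77d073_nt Pool.Agent.Work.MP_77d073_nt.Gap

variable {n : ℕ}

/-- The frame of the form `l`: the row `i₀` is `l`, the other rows are unit vectors. -/
def fr (i₀ : Fin n) (l : Fin n → ℝ) : Matrix (Fin n) (Fin n) ℝ :=
  Matrix.of fun i j => if i = i₀ then l j else if i = j then 1 else 0

/-- The inverse of the frame when `l i₀ = 1`. -/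
def fi (i₀ : Fin n) (l : Fin n → ℝ) : Matrix (Fin n) (Fin n) ℝ :=
  Matrix.of fun i j => if i = i₀ then (if j = i₀ then 1 else -l j) else if i = j then 1 else 0

/-- The position of the time `u` on the ray of the index `i₀`. -/
def ry (i₀ : Fin n) (u : ℝ) (i : Fin n) : ℝ :=
  if i = i₀ then Real.exp (((n : ℝ) - 1) * u) else Real.exp (-u)

/-- The real matrix of an integer matrix. -/
def rI (M : Matrix (Fin n) (Fin n) ℤ) : Matrix (Fin n) (Fin n) ℝ := M.map (Int.cast : ℤ → ℝ)

/-- The matrix `M` in the frame of `l` at the time `u`. -/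
def kk (i₀ : Fin n) (l : Fin n → ℝ) (u : ℝ) (M : Matrix (Fin n) (Fin n) ℤ) :
    Matrix (Fin n) (Fin n) ℝ :=
  Matrix.diagonal (ry i₀ u) * (fr i₀ l * rI M)

/-- The integer matrix `X` as an endomorphism in the frame of `l`. -/
def YY (i₀ : Fin n) (l : Fin n → ℝ) (X : Matrix (Fin n) (Fin n) ℤ) : Matrix (Fin n) (Fin n) ℝ :=
  fr i₀ l * (rI X * fi i₀ l)

/-- The values of the forms `YY (J m)` on the matrices `b j`. -/
def AA (i₀ : Fin n) (l : Fin n → ℝ) {d : ℕ} (b : Fin d → Matrix (Fin n) (Fin n) ℤ)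
    (J : Fin d → Fin n × Fin n) : Matrix (Fin d) (Fin d) ℝ :=
  Matrix.of fun m j => YY i₀ l (b j) (J m).1 (J m).2

/-- A near return: two times `u, v ≤ R` of the ray, matrices `M`, `M'` which are reduced there up to
a factor `exp (η R)`, whose rows `i₀` are proportional up to `exp (- δ R)`. -/
structure NR (i₀ : Fin n) (l : Fin n → ℝ) (η δ R u v : ℝ) (M M' : Matrix (Fin n) (Fin n) ℤ)
    (θ : ℝ) : Prop where
  u0 : 0 ≤ u
  uR : u ≤ R
  v0 : 0 ≤ v
  vR : v ≤ R
  dM : IsUnit M.det
  dM' : IsUnit M'.det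
  hM : ∀ i j, |kk i₀ l u M i j| ≤ Real.exp (η * R)
  hM' : ∀ i j, |kk i₀ l v M' i j| ≤ Real.exp (η * R)
  close : ∀ j, |kk i₀ l v M' i₀ j - θ * kk i₀ l u M i₀ j| ≤ Real.exp (-(δ * R))

/-- The images of `l` under `M` and `M'` are proportional. -/
def Prp (l : Fin n → ℝ) (M M' : Matrix (Fin n) (Fin n) ℤ) : Prop :=
  ∃ lam : ℝ, ∀ j, rowMul l M' j = lam * rowMul l M j

/-- The coefficients of `l` are linearly independent over the rationals. -/
def QI (l : Fin n → ℝ) : Prop := ∀ q : Fin n → ℤ, q ≠ 0 → ∑ i, l i * (q i : ℝ) ≠ 0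

/-- The position `t` is near the time `u` of the ray. -/
def Nr (i₀ : Fin n) (ρ u : ℝ) (t : Fin n → ℝ) : Prop :=
  Pos t ∧ ∀ i, i ≠ i₀ → |Real.log (t i) + u| ≤ ρ

end Pool.Agent.Work.MP_77d073_nt.Alg
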