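import Mathlib
import Pool.Agent.Work.MP_77d073_nt.Alg.Defs

/-!
# MP_77d073_nt/Alg, Capt (size S-M): two rows captured by the same vector

PROOF.  The matrix `tr L M s` has entries at most `K` in absolute value and `|det| = D` (`∏ s = 1`, `|det M| = 1`; `tr_det`), so (expansion along the row `i₀`; `D = |det| ≤ n * max_k |row_k| * n! * (max K 1)^n`, crude) some entry of the row
`i₀` is at least `c₃ = D / (n * n! * (max K 1)^n)`; the same for `tr L M' t`.  Let `ε₁ = min 1 (c₃ / 2)`.  Then `|θ y_k| ≥ c₃ / 2` for some `k`, so `θ ≠ 0`; and `|θ' y_j| ≤ K + 1` for all `j`, so with this `k`: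
`|θ' / θ| = |θ' y_k| / |θ y_k| ≤ 2 (K + 1) / c₃`.  `θ'' = θ' / θ`: `row' - θ'' row = (row' - θ' y) - θ'' (row - θ y)`, at most `(1 + 2 (K+1) / c₃) ε`.
-/

set_option autoImplicit false

namespace Pool.Agent.Work.MP_77d073_nt.Alg

open Pool.Agent.Work.MP_77d073_nt Pool.Agent.Work.MP_77d073_nt.Gap

private theorem row_big {n : ℕ} {D K' : ℝ} (hD : 0 < D) (hK : 1 ≤ K')
    (A : Matrix (Fin n) (Fin n) ℝ) (hA : ∀ i j, |A i j| ≤ K') (hdet : |A.det| = D) (i₀ : Fin n) :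
    ∃ k, D / (2 * (n.factorial : ℝ) * K' ^ n) ≤ |A i₀ k| := by
  by_contra hcon
  push Not at hcon
  set c : ℝ := D / (2 * (n.factorial : ℝ) * K' ^ n) with hc
  have hf : (0 : ℝ) < (n.factorial : ℝ) := by exact_mod_cast n.factorial_pos
  have hKn : (0 : ℝ) < K' ^ n := by positivity
  have hc0 : 0 < c := by rw [hc]; positivity
  have h1 : |A.det| ≤ ∑ _σ : Equiv.Perm (Fin n), c * K' ^ n := by
    rw [Matrix.det_apply]
    refine (Finset.abs_sum_le_sum_abs _ _).trans (Finset.sum_le_sum fun σ _ => ?_)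
    have h2 : |Equiv.Perm.sign σ • ∏ i, A (σ i) i| = ∏ i, |A (σ i) i| := by
      rw [Units.smul_def, zsmul_eq_mul, abs_mul, Finset.abs_prod]
      have h3 : |(((Equiv.Perm.sign σ : ℤˣ) : ℤ) : ℝ)| = 1 := by
        rcases Int.units_eq_one_or (Equiv.Perm.sign σ) with h4 | h4 <;> rw [h4] <;> simp
      rw [h3, one_mul]
    rw [h2, ← Finset.mul_prod_erase _ _ (Finset.mem_univ (σ.symm i₀))]
    have h5 : |A (σ (σ.symm i₀)) (σ.symm i₀)| ≤ c := by
      rw [Equiv.apply_symm_apply]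
      exact (hcon _).le
    have h6 : ∏ i ∈ Finset.univ.erase (σ.symm i₀), |A (σ i) i| ≤ K' ^ n := by
      calc ∏ i ∈ Finset.univ.erase (σ.symm i₀), |A (σ i) i|
          ≤ ∏ _i ∈ Finset.univ.erase (σ.symm i₀), K' :=
            Finset.prod_le_prod (fun i _ => abs_nonneg _) fun i _ => hA _ _
        _ = K' ^ (Finset.univ.erase (σ.symm i₀)).card := by rw [Finset.prod_const]
        _ ≤ K' ^ n := by
            refine pow_le_pow_right₀ hK ?_
            refine (Finset.card_le_card (Finset.erase_subset _ _)).trans ?_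
            rw [Finset.card_univ, Fintype.card_fin]
    exact mul_le_mul h5 h6 (Finset.prod_nonneg fun i _ => abs_nonneg _) hc0.le
  rw [Finset.sum_const, Finset.card_univ, Fintype.card_perm, Fintype.card_fin, nsmul_eq_mul,
    hdet] at h1
  have h7 : (n.factorial : ℝ) * (c * K' ^ n) = D / 2 := by
    rw [hc]
    field_simp
  linarith

theorem capt (n : ℕ) (hn : 1 ≤ n) {D K : ℝ} (hD : 0 < D) (hK : 0 < K) :
    ∃ C : ℝ, 1 ≤ C ∧ ∃ ε₁ : ℝ, 0 < ε₁ ∧ ∀ L : Fin n → Fin n → ℝ, |(Matrix.of L).det| = D →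
    ∀ (i₀ : Fin n) (s t : Fin n → ℝ), Pos s → Pos t → ∀ (M M' : Matrix (Fin n) (Fin n) ℤ),
    Red L K s M → Red L K t M' → ∀ (y : Fin n → ℝ) (θ θ' ε : ℝ), 0 ≤ ε → ε ≤ ε₁ →
    (∀ k, |tr L M s i₀ k - θ * y k| ≤ ε) → (∀ k, |tr L M' t i₀ k - θ' * y k| ≤ ε) →
    ∃ θ'' : ℝ, ∀ k, |tr L M' t i₀ k - θ'' * tr L M s i₀ k| ≤ C * ε := by
  set c : ℝ := D / (2 * (n.factorial : ℝ) * (max K 1) ^ n) with hc
  have hf : (0 : ℝ) < (n.factorial : ℝ) := by exact_mod_cast n.factorial_pos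
  have hK1 : (1 : ℝ) ≤ max K 1 := le_max_right _ _
  have hc0 : 0 < c := by rw [hc]; positivity
  refine ⟨1 + 2 * (K + 1) / c, ?_, min 1 (c / 2), lt_min one_pos (by positivity), ?_⟩
  · have : 0 ≤ 2 * (K + 1) / c := by positivity
    linarith
  intro L hL i₀ s t hs _ht M M' hM hM' y θ θ' ε hε0 hε h1 h2
  obtain ⟨k, hk⟩ := row_big (n := n) hD hK1 (Matrix.of (tr L M s))
    (fun i j => (hM.2 i j).trans (le_max_left _ _)) (by
      rw [tr_det, hs.2, one_mul, abs_mul, hL]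
      have h3 : |(M.det : ℝ)| = 1 := by
        rcases Int.isUnit_iff.1 hM.1 with h4 | h4 <;> rw [h4] <;> simp
      rw [h3, mul_one]) i₀
  have hk' : c ≤ |tr L M s i₀ k| := hk
  have hε1 : ε ≤ 1 := hε.trans (min_le_left _ _)
  have hε2 : ε ≤ c / 2 := hε.trans (min_le_right _ _)
  have h3 : c / 2 ≤ |θ * y k| := by
    have h4 := abs_sub_abs_le_abs_sub (tr L M s i₀ k) (θ * y k)
    have h5 := h1 k
    linarith
  have hθ : θ ≠ 0 := by
    rintro rfl
    rw [zero_mul, abs_zero] at h3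
    linarith
  have h4 : |θ' * y k| ≤ K + 1 := by
    have h5 := abs_sub_abs_le_abs_sub (θ' * y k) (tr L M' t i₀ k)
    have h6 := h2 k
    rw [abs_sub_comm] at h6
    have h7 := hM'.2 i₀ k
    linarith
  have h5 : |θ' / θ| ≤ 2 * (K + 1) / c := by
    have hyk : y k ≠ 0 := by
      intro h6
      rw [h6, mul_zero, abs_zero] at h3
      linarith
    have h6 : |θ' / θ| = |θ' * y k| / |θ * y k| := by
      rw [← abs_div, mul_div_mul_right _ _ hyk]
    rw [h6, div_le_div_iff₀ (by linarith) hc0]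
    nlinarith [abs_nonneg (θ' * y k)]
  refine ⟨θ' / θ, fun j => ?_⟩
  have h6 : tr L M' t i₀ j - θ' / θ * tr L M s i₀ j =
      (tr L M' t i₀ j - θ' * y j) - θ' / θ * (tr L M s i₀ j - θ * y j) := by
    field_simp
    ring
  rw [h6]
  calc |(tr L M' t i₀ j - θ' * y j) - θ' / θ * (tr L M s i₀ j - θ * y j)|
      ≤ |tr L M' t i₀ j - θ' * y j| + |θ' / θ * (tr L M s i₀ j - θ * y j)| := abs_sub _ _
    _ ≤ ε + 2 * (K + 1) / c * ε := by
        rw [abs_mul]
        exact add_le_add (h2 j) (mul_le_mul h5 (h1 j) (abs_nonneg _) (by positivity))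
    _ = (1 + 2 * (K + 1) / c) * ε := by ring

end Pool.Agent.Work.MP_77d073_nt.Alg
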