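import Mathlib
import Pool.Agent.Work.MP_77d073_nt.Alg.Defs

/-!
# MP_77d073_nt/Alg, Frame (size M): the frame

PROOFS.  `fr_fi`, `fi_fr`: entry by entry (`l i₀ = 1`); for square matrices one follows from the other (`mul_eq_one_comm`).  `ry_prod`: split off `i₀`: `exp ((n-1) u) * exp (-u)^(n-1) = 1`.
`kk_det`: `det (diagonal) = 1`, `det (fr) = 1` (`fr = updateRow 1 i₀ l`, `det = l i₀`: `Matrix.det_updateRow...`, or expand along ..; or `fr * fi = 1` and both are integer-like: simplest is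
`Matrix.cramer` with the identity as in `Work/UP/UCore` `mat_det`), `det (rI M) = M.det = ± 1` (`Int.isUnit_iff`, `Matrix.det_map`-type lemma `Int.cast_det` / `RingHom.map_det`).
`inv_bd`: `A⁻¹ = (det A)⁻¹ • adjugate A`; every entry of the adjugate is the determinant of a matrix with entries at most `B` (`B ≥ 1`) in absolute value (`Matrix.adjugate_apply`: `updateRow` by a unit vector), and
`|det| ≤ n! B^n` (`Matrix.det_le` or expand).
`kk_conj`: `kk v M' * rI Z = D_v fr rI (M' Z) = D_v fr rI X rI M` and `fr rI X = YY X * fr`, `D_u⁻¹ kk u M = fr rI M`.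
`YY_row`: if `YY P i₀ q = 0` for all `q ≠ i₀`, then `l ∘ P = μ l` (`YY P * fr = fr * rI P`, row `i₀`, `μ = YY P i₀ i₀`), so `l ∘ M' = l ∘ P ∘ M = μ l ∘ M`.
-/

set_option autoImplicit false

namespace Pool.Agent.Work.MP_77d073_nt.Alg

open Pool.Agent.Work.MP_77d073_nt Pool.Agent.Work.MP_77d073_nt.Gap

variable {n : ℕ}

private theorem rI_mul (A B : Matrix (Fin n) (Fin n) ℤ) : rI (A * B) = rI A * rI B := by
  unfold rI
  have h := Matrix.map_mul (L := A) (M := B) (f := Int.castRingHom ℝ)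
  exact h

private theorem rI_det (A : Matrix (Fin n) (Fin n) ℤ) : (rI A).det = (A.det : ℝ) := by
  unfold rI
  exact (Int.cast_det A).symm

private theorem fr_det (i₀ : Fin n) (l : Fin n → ℝ) : (fr i₀ l).det = l i₀ := by
  have h : fr i₀ l = (1 : Matrix (Fin n) (Fin n) ℝ).updateRow i₀ l := by
    ext i j
    rw [Matrix.updateRow_apply]
    rfl
  rw [h, ← Matrix.det_transpose, ← Matrix.updateCol_transpose, Matrix.transpose_one,
    ← Matrix.cramer_apply, Matrix.cramer_one]
  rfl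

theorem fr_fi (i₀ : Fin n) (l : Fin n → ℝ) (hl : l i₀ = 1) : fr i₀ l * fi i₀ l = 1 := by
  ext i j
  rw [Matrix.mul_apply, Matrix.one_apply]
  have hfi : ∀ k, fi i₀ l k j = (if k = j then 1 else 0) -
      (if k = i₀ then (if j = i₀ then 0 else l j) else 0) := by
    intro k
    simp only [fi, Matrix.of_apply]
    by_cases hk : k = i₀
    · subst hk
      by_cases hj : j = k
      · subst hj
        simp
      · rw [if_pos rfl, if_neg hj, if_pos rfl, if_neg hj, if_neg (Ne.symm hj)]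
        ring
    · rw [if_neg hk, if_neg hk]
      ring
  by_cases hi : i = i₀
  · subst hi
    have h1 : ∀ k, fr i l i k * fi i l k j = (if k = j then l k else 0) -
        (if k = i then l k * (if j = i then 0 else l j) else 0) := by
      intro k
      rw [hfi k]
      have : fr i l i k = l k := by simp [fr]
      rw [this]
      split_ifs <;> ring
    rw [Finset.sum_congr rfl fun k _ => h1 k, Finset.sum_sub_distrib, Finset.sum_ite_eq',
      Finset.sum_ite_eq', if_pos (Finset.mem_univ _), if_pos (Finset.mem_univ _), hl, one_mul]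
    by_cases hj : j = i
    · rw [if_pos hj, if_pos hj.symm, hj, hl]
      ring
    · rw [if_neg hj, if_neg (Ne.symm hj)]
      ring
  · have h1 : ∀ k, fr i₀ l i k * fi i₀ l k j = if i = k then fi i₀ l k j else 0 := by
      intro k
      have : fr i₀ l i k = if i = k then 1 else 0 := by simp [fr, hi]
      rw [this]
      split_ifs <;> ring
    rw [Finset.sum_congr rfl fun k _ => h1 k, Finset.sum_ite_eq, if_pos (Finset.mem_univ _), hfi i,
      if_neg hi, sub_zero]

theorem fi_fr (i₀ : Fin n) (l : Fin n → ℝ) (hl : l i₀ = 1) : fi i₀ l * fr i₀ l = 1 :=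
  mul_eq_one_comm.1 (fr_fi i₀ l hl)

theorem ry_pos (i₀ : Fin n) (u : ℝ) (i : Fin n) : 0 < ry i₀ u i := by
  unfold ry
  split_ifs
  · exact Real.exp_pos _
  · exact Real.exp_pos _

theorem ry_prod (i₀ : Fin n) (u : ℝ) : ∏ i, ry i₀ u i = 1 := by
  have h : ∀ i, ry i₀ u i = Real.exp (-u + if i = i₀ then (n : ℝ) * u else 0) := by
    intro i
    unfold ry
    split_ifs
    · congr 1
      ring
    · congr 1
      ring
  rw [Finset.prod_congr rfl fun i _ => h i, ← Real.exp_sum, Finset.sum_add_distrib,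
    Finset.sum_ite_eq', if_pos (Finset.mem_univ _), Finset.sum_const, Finset.card_univ,
    Fintype.card_fin, nsmul_eq_mul]
  rw [show (n : ℝ) * -u + n * u = 0 by ring, Real.exp_zero]

theorem kk_det (i₀ : Fin n) (l : Fin n → ℝ) (hl : l i₀ = 1) (u : ℝ) {M : Matrix (Fin n) (Fin n) ℤ}
    (hM : IsUnit M.det) : |(kk i₀ l u M).det| = 1 := by
  unfold kk
  rw [Matrix.det_mul, Matrix.det_mul, Matrix.det_diagonal, ry_prod, fr_det, hl, rI_det, one_mul,
    one_mul]
  rcases Int.isUnit_iff.1 hM with h | h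
  · rw [h]
    simp
  · rw [h]
    simp

theorem inv_bd {A : Matrix (Fin n) (Fin n) ℝ} (hA : |A.det| = 1) {B : ℝ} (hB : 1 ≤ B)
    (h : ∀ i j, |A i j| ≤ B) (i j : Fin n) : |A⁻¹ i j| ≤ n.factorial * B ^ n := by
  have hinv : |A⁻¹ i j| = |A.adjugate i j| := by
    rw [Matrix.inv_def, Matrix.smul_apply, Ring.inverse_eq_inv', smul_eq_mul, abs_mul, abs_inv, hA]
    ring
  rw [hinv, Matrix.adjugate_apply]
  have hb : ∀ i' j', AbsoluteValue.abs (A.updateRow j (Pi.single i 1) i' j') ≤ B := by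
    intro i' j'
    rw [Matrix.updateRow_apply]
    split_ifs
    · by_cases hj : j' = i
      · subst hj
        simpa using hB
      · rw [Pi.single_eq_of_ne hj]
        simpa using le_trans zero_le_one hB
    · exact h i' j'
  have := Matrix.det_le (abv := (AbsoluteValue.abs : AbsoluteValue ℝ ℝ)) hb
  rw [Fintype.card_fin, nsmul_eq_mul] at this
  exact this

theorem kk_conj (i₀ : Fin n) (l : Fin n → ℝ) (hl : l i₀ = 1) (u v : ℝ)
    {M M' X Z : Matrix (Fin n) (Fin n) ℤ} (h : X * M = M' * Z) :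
    Matrix.diagonal (ry i₀ v) * YY i₀ l X * Matrix.diagonal (fun i => (ry i₀ u i)⁻¹) *
      kk i₀ l u M = kk i₀ l v M' * rI Z := by
  have hD : Matrix.diagonal (fun i => (ry i₀ u i)⁻¹) * Matrix.diagonal (ry i₀ u) = 1 := by
    rw [Matrix.diagonal_mul_diagonal, ← Matrix.diagonal_one]
    congr 1
    funext i
    exact inv_mul_cancel₀ (ry_pos i₀ u i).ne'
  have hX : rI X * rI M = rI M' * rI Z := by rw [← rI_mul, ← rI_mul, h]
  unfold kk YY
  calc Matrix.diagonal (ry i₀ v) * (fr i₀ l * (rI X * fi i₀ l)) *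
        Matrix.diagonal (fun i => (ry i₀ u i)⁻¹) * (Matrix.diagonal (ry i₀ u) * (fr i₀ l * rI M))
      = Matrix.diagonal (ry i₀ v) * (fr i₀ l * (rI X * ((fi i₀ l * ((
        Matrix.diagonal (fun i => (ry i₀ u i)⁻¹) * Matrix.diagonal (ry i₀ u)) * fr i₀ l)) *
          rI M))) := by
        simp only [Matrix.mul_assoc]
    _ = Matrix.diagonal (ry i₀ v) * (fr i₀ l * rI M') * rI Z := by
        rw [hD, Matrix.one_mul, fi_fr i₀ l hl, Matrix.one_mul, hX]
        simp only [Matrix.mul_assoc]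

theorem YY_row (i₀ : Fin n) (l : Fin n → ℝ) (hl : l i₀ = 1) {M M' P : Matrix (Fin n) (Fin n) ℤ}
    (hP : P * M = M') (h : ∀ q, q ≠ i₀ → YY i₀ l P i₀ q = 0) : Prp l M M' := by
  have hYf : YY i₀ l P * fr i₀ l = fr i₀ l * rI P := by
    unfold YY
    rw [Matrix.mul_assoc, Matrix.mul_assoc, fi_fr i₀ l hl, Matrix.mul_one]
  have hrow : ∀ j, ∑ k, l k * (P k j : ℝ) = YY i₀ l P i₀ i₀ * l j := by
    intro j
    have h1 := congrFun (congrFun hYf i₀) j
    rw [Matrix.mul_apply, Matrix.mul_apply, Finset.sum_eq_single i₀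
      (fun q _ hq => by rw [h q hq, zero_mul])
      (fun hq => absurd (Finset.mem_univ _) hq)] at h1
    have h2 : ∀ k, fr i₀ l i₀ k = l k := by
      intro k
      simp [fr]
    rw [h2 j] at h1
    rw [h1]
    refine Finset.sum_congr rfl fun k _ => ?_
    rw [h2 k]
    rfl
  refine ⟨YY i₀ l P i₀ i₀, fun j => ?_⟩
  unfold rowMul
  have h3 : ∀ i, (M' i j : ℝ) = ∑ k, (P i k : ℝ) * (M k j : ℝ) := by
    intro i
    rw [← hP, Matrix.mul_apply]
    push_cast
    rfl
  have h4 : ∑ i, l i * (M' i j : ℝ) = ∑ i, ∑ k, l i * ((P i k : ℝ) * (M k j : ℝ)) := by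
    refine Finset.sum_congr rfl fun i _ => ?_
    rw [h3 i, Finset.mul_sum]
  rw [h4, Finset.sum_comm, Finset.mul_sum]
  refine Finset.sum_congr rfl fun k _ => ?_
  rw [← mul_assoc, ← hrow k, Finset.sum_mul]
  refine Finset.sum_congr rfl fun i _ => ?_
  ring

theorem YY_sum (i₀ : Fin n) (l : Fin n → ℝ) {d : ℕ} (b : Fin d → Matrix (Fin n) (Fin n) ℤ)
    (x : Fin d → ℤ) (r q : Fin n) :
    YY i₀ l (∑ j, x j • b j) r q = ∑ j, YY i₀ l (b j) r q * (x j : ℝ) := by
  have h0 : ∀ X : Matrix (Fin n) (Fin n) ℤ, YY i₀ l X r q =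
      ∑ k, ∑ m, fr i₀ l r k * ((X k m : ℝ) * fi i₀ l m q) := by
    intro X
    unfold YY
    rw [Matrix.mul_apply]
    refine Finset.sum_congr rfl fun k _ => ?_
    rw [Matrix.mul_apply, Finset.mul_sum]
    rfl
  have h1 : ∀ k m, (((∑ j, x j • b j) k m : ℤ) : ℝ) = ∑ j, (x j : ℝ) * (b j k m : ℝ) := by
    intro k m
    rw [Matrix.sum_apply]
    push_cast
    refine Finset.sum_congr rfl fun j _ => ?_
    rw [Matrix.smul_apply, smul_eq_mul]
    push_cast
    rfl
  have h2 : ∑ j, YY i₀ l (b j) r q * (x j : ℝ) =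
      ∑ j, ∑ k, ∑ m, fr i₀ l r k * ((b j k m : ℝ) * fi i₀ l m q) * (x j : ℝ) := by
    refine Finset.sum_congr rfl fun j _ => ?_
    rw [h0, Finset.sum_mul]
    exact Finset.sum_congr rfl fun k _ => Finset.sum_mul _ _ _
  rw [h0, h2]
  symm
  rw [Finset.sum_comm]
  refine Finset.sum_congr rfl fun k _ => ?_
  rw [Finset.sum_comm]
  refine Finset.sum_congr rfl fun m _ => ?_
  rw [h1, Finset.sum_mul, Finset.mul_sum]
  refine Finset.sum_congr rfl fun j _ => ?_
  ring

theorem YY_alg (i₀ : Fin n) (l : Fin n → ℝ) (hl : ∀ j, IsAlgebraic ℚ (l j))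
    (X : Matrix (Fin n) (Fin n) ℤ) (r q : Fin n) : IsAlgebraic ℚ (YY i₀ l X r q) := by
  have hl' : ∀ j, l j ∈ algebraicClosure ℚ ℝ := fun j => mem_algebraicClosure_iff.2 (hl j)
  refine mem_algebraicClosure_iff.1 ?_
  unfold YY
  rw [Matrix.mul_apply]
  refine sum_mem fun k _ => mul_mem ?_ ?_
  · simp only [fr, Matrix.of_apply]
    split_ifs
    · exact hl' k
    · exact one_mem _
    · exact zero_mem _
  · rw [Matrix.mul_apply]
    refine sum_mem fun m _ => mul_mem ?_ ?_
    · exact intCast_mem _ _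
    · simp only [fi, Matrix.of_apply]
      split_ifs
      · exact one_mem _
      · exact neg_mem (hl' q)
      · exact one_mem _
      · exact zero_mem _

end Pool.Agent.Work.MP_77d073_nt.Alg
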