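import Mathlib
import Pool.Agent.Work.MP_77d073_nt.Alg.Frame

/-!
# MP_77d073_nt/Alg, ToNR (size M): from reduced systems to near returns

`l j = L i₀ j / L i₀ i₀`.  PROOF.  `Nr i₀ ρ u t`: `exp (-u - ρ) ≤ t_i ≤ exp (-u + ρ)` for `i ≠ i₀`, and (`∏ t = 1`) `exp ((n-1) u - (n-1) ρ) ≤ t_{i₀} ≤ exp ((n-1) u + (n-1) ρ)`.
Row `i₀`: `kk u M i₀ j = exp ((n-1) u) / (t_{i₀} L_{i₀ i₀}) * tr L M t i₀ j`, at most `exp (n ρ) K / |L_{i₀ i₀}|`.
Row `i ≠ i₀`: `kk u M i j = exp (-u) M_ij`, `M = L⁻¹ diag(t)⁻¹ (tr L M t)`: `|M_ij| ≤ ∑_r |L⁻¹_ir| K / t_r`, and `1 / t_r ≤ exp (u + n ρ)` for all `r` (`u ≥ 0`), so it is at most `n max|L⁻¹| K exp (n ρ)`.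
Closeness: with `θ' = θ * (exp ((n-1) v) / t'_{i₀}) / (exp ((n-1) u) / t_{i₀})`: `kk v M' i₀ k - θ' kk u M i₀ k = exp ((n-1) v) / (t'_{i₀} L_{i₀ i₀}) * (tr L M' t' i₀ k - θ tr L M t i₀ k)`, at most
`exp (n ρ) ε / |L_{i₀ i₀}|`.  `C` = the maximum of `1`, `K / |L_{i₀i₀}|`, `1 / |L_{i₀i₀}|`, `n max|L⁻¹| K`.
`Nr_ry`: `ry i₀ u` is near the time `u` (`ρ ≥ 0`).
-/

set_option autoImplicit false

namespace Pool.Agent.Work.MP_77d073_nt.Alg

open Pool.Agent.Work.MP_77d073_nt Pool.Agent.Work.MP_77d073_nt.Gap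

theorem Nr_ry {n : ℕ} (i₀ : Fin n) {ρ : ℝ} (hρ : 0 ≤ ρ) (u : ℝ) : Nr i₀ ρ u (ry i₀ u) := by
  refine ⟨⟨fun i => ry_pos i₀ u i, ry_prod i₀ u⟩, fun i hi => ?_⟩
  have h1 : ry i₀ u i = Real.exp (-u) := by
    unfold ry
    rw [if_neg hi]
  rw [h1, Real.log_exp, neg_add_cancel, abs_zero]
  exact hρ

private theorem nr_log {n : ℕ} {i₀ : Fin n} {ρ u : ℝ} {t : Fin n → ℝ} (h : Nr i₀ ρ u t) :
    |Real.log (t i₀) - ((n : ℝ) - 1) * u| ≤ ((n : ℝ) - 1) * ρ := by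
  have hn : 0 < n := i₀.pos
  have hsum : ∑ i, Real.log (t i) = 0 := by
    rw [← Real.log_prod (fun i _ => (h.1.1 i).ne'), h.1.2, Real.log_one]
  rw [← Finset.add_sum_erase _ _ (Finset.mem_univ i₀)] at hsum
  have hcard : ((Finset.univ.erase i₀ : Finset (Fin n)).card : ℝ) = (n : ℝ) - 1 := by
    rw [Finset.card_erase_of_mem (Finset.mem_univ i₀), Finset.card_univ, Fintype.card_fin,
      Nat.cast_pred hn]
  have h2 : ∑ i ∈ Finset.univ.erase i₀, (Real.log (t i) + u) =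
      -(Real.log (t i₀) - ((n : ℝ) - 1) * u) := by
    rw [Finset.sum_add_distrib, Finset.sum_const, nsmul_eq_mul, hcard]
    linarith
  have h3 : |∑ i ∈ Finset.univ.erase i₀, (Real.log (t i) + u)| ≤
      ∑ i ∈ (Finset.univ.erase i₀ : Finset (Fin n)), ρ :=
    (Finset.abs_sum_le_sum_abs _ _).trans
      (Finset.sum_le_sum (fun i hi => h.2 i (Finset.ne_of_mem_erase hi)))
  rw [h2, abs_neg, Finset.sum_const, nsmul_eq_mul, hcard] at h3
  exact h3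

private theorem nr_top {n : ℕ} {i₀ : Fin n} {ρ u : ℝ} {t : Fin n → ℝ} (h : Nr i₀ ρ u t)
    (hρ : 0 ≤ ρ) : Real.exp (((n : ℝ) - 1) * u) ≤ Real.exp (n * ρ) * t i₀ := by
  have h1 := nr_log h
  have h2 := (abs_le.1 h1).1
  have ht := h.1.1 i₀
  rw [← Real.exp_log ht, ← Real.exp_add]
  apply Real.exp_le_exp.2
  nlinarith

private theorem nr_inv {n : ℕ} {i₀ : Fin n} {ρ u : ℝ} {t : Fin n → ℝ} (h : Nr i₀ ρ u t)
    (hρ : 0 ≤ ρ) (hu : 0 ≤ u) (r : Fin n) : 1 ≤ Real.exp (u + n * ρ) * t r := by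
  have hn : (1 : ℝ) ≤ n := by
    have : 1 ≤ n := i₀.pos
    exact_mod_cast this
  rw [← Real.exp_log (h.1.1 r), ← Real.exp_add]
  apply Real.one_le_exp
  by_cases hr : r = i₀
  · rw [hr]
    have h2 := (abs_le.1 (nr_log h)).1
    nlinarith [mul_nonneg (sub_nonneg.2 hn) hu]
  · have h2 := (abs_le.1 (h.2 r hr)).1
    nlinarith [mul_le_mul_of_nonneg_right hn hρ]

private theorem kk_top {n : ℕ} (i₀ : Fin n) (L : Fin n → Fin n → ℝ) {t : Fin n → ℝ}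
    (ht : 0 < t i₀) (u : ℝ) (M : Matrix (Fin n) (Fin n) ℤ) (j : Fin n) :
    kk i₀ (fun j => L i₀ j / L i₀ i₀) u M i₀ j =
      Real.exp (((n : ℝ) - 1) * u) / (t i₀ * L i₀ i₀) * tr L M t i₀ j := by
  unfold kk tr
  rw [Matrix.diagonal_mul, Matrix.mul_apply]
  have h1 : ry i₀ u i₀ = Real.exp (((n : ℝ) - 1) * u) := by
    unfold ry
    rw [if_pos rfl]
  have h2 : ∑ l, fr i₀ (fun j => L i₀ j / L i₀ i₀) i₀ l * rI M l j =
      (∑ l, L i₀ l * (M l j : ℝ)) / L i₀ i₀ := by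
    rw [Finset.sum_div]
    refine Finset.sum_congr rfl (fun l _ => ?_)
    simp only [fr, rI, Matrix.of_apply, if_true, Matrix.map_apply]
    ring
  rw [h1, h2]
  have := ht.ne'
  by_cases h0 : L i₀ i₀ = 0
  · rw [h0]; simp
  · field_simp

private theorem kk_low {n : ℕ} (i₀ : Fin n) (l : Fin n → ℝ) (u : ℝ)
    (M : Matrix (Fin n) (Fin n) ℤ) {i : Fin n} (hi : i ≠ i₀) (j : Fin n) :
    kk i₀ l u M i j = Real.exp (-u) * (M i j : ℝ) := by
  unfold kk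
  rw [Matrix.diagonal_mul, Matrix.mul_apply]
  have h1 : ry i₀ u i = Real.exp (-u) := by
    unfold ry
    rw [if_neg hi]
  have h2 : ∑ p, fr i₀ l i p * rI M p j = (M i j : ℝ) := by
    rw [Finset.sum_eq_single i]
    · simp [fr, rI, hi]
    · intro b _ hb
      simp [fr, hi, Ne.symm hb]
    · intro hb
      exact absurd (Finset.mem_univ _) hb
  rw [h1, h2]

private theorem ent_bd {n : ℕ} (L : Fin n → Fin n → ℝ) (hdet : (Matrix.of L).det ≠ 0)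
    {K : ℝ} {t : Fin n → ℝ} (ht : ∀ i, 0 < t i) {M : Matrix (Fin n) (Fin n) ℤ}
    (hR : ∀ i j, |tr L M t i j| ≤ K) {E : ℝ} (hE : ∀ r, 1 ≤ E * t r) (i j : Fin n) :
    |(M i j : ℝ)| ≤ (∑ i, ∑ r, |(Matrix.of L)⁻¹ i r|) * (K * E) := by
  have hK : 0 ≤ K := (abs_nonneg _).trans (hR i i)
  have hE0 : 0 < E := by
    have h1 := hE i
    by_contra hcon
    push Not at hcon
    have := mul_nonpos_of_nonpos_of_nonneg hcon (ht i).le
    linarith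
  have h1 : rI M = (Matrix.of L)⁻¹ * (Matrix.of L * rI M) := by
    rw [← Matrix.mul_assoc, Matrix.nonsing_inv_mul _ (isUnit_iff_ne_zero.2 hdet), Matrix.one_mul]
  have h2 : (M i j : ℝ) = ∑ r, (Matrix.of L)⁻¹ i r * (∑ p, L r p * (M p j : ℝ)) := by
    have h3 : (M i j : ℝ) = rI M i j := rfl
    rw [h3, h1, Matrix.mul_apply]
    refine Finset.sum_congr rfl (fun r _ => ?_)
    rw [Matrix.mul_apply]
    rfl
  have h3 : ∀ r, |∑ p, L r p * (M p j : ℝ)| ≤ K * E := by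
    intro r
    have h4 := hR r j
    unfold tr at h4
    rw [abs_mul, abs_of_pos (ht r)] at h4
    have h5 : |∑ p, L r p * (M p j : ℝ)| ≤ (E * t r) * |∑ p, L r p * (M p j : ℝ)| :=
      le_mul_of_one_le_left (abs_nonneg _) (hE r)
    calc |∑ p, L r p * (M p j : ℝ)| ≤ (E * t r) * |∑ p, L r p * (M p j : ℝ)| := h5
      _ = E * (t r * |∑ p, L r p * (M p j : ℝ)|) := by ring
      _ ≤ E * K := mul_le_mul_of_nonneg_left h4 hE0.le
      _ = K * E := mul_comm _ _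
  rw [h2]
  calc |∑ r, (Matrix.of L)⁻¹ i r * (∑ p, L r p * (M p j : ℝ))|
      ≤ ∑ r, |(Matrix.of L)⁻¹ i r * (∑ p, L r p * (M p j : ℝ))| := Finset.abs_sum_le_sum_abs _ _
    _ ≤ ∑ r, |(Matrix.of L)⁻¹ i r| * (K * E) := by
        refine Finset.sum_le_sum (fun r _ => ?_)
        rw [abs_mul]
        exact mul_le_mul_of_nonneg_left (h3 r) (abs_nonneg _)
    _ = (∑ r, |(Matrix.of L)⁻¹ i r|) * (K * E) := by rw [Finset.sum_mul]
    _ ≤ (∑ i, ∑ r, |(Matrix.of L)⁻¹ i r|) * (K * E) := by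
        refine mul_le_mul_of_nonneg_right ?_ (mul_nonneg hK hE0.le)
        exact Finset.single_le_sum (f := fun i => ∑ r, |(Matrix.of L)⁻¹ i r|)
          (fun i _ => Finset.sum_nonneg (fun r _ => abs_nonneg _)) (Finset.mem_univ i)

theorem toNR {n : ℕ} (i₀ : Fin n) (L : Fin n → Fin n → ℝ) (hdet : (Matrix.of L).det ≠ 0)
    (h0 : L i₀ i₀ ≠ 0) {K : ℝ} (hK : 0 < K) :
    ∃ C : ℝ, 1 ≤ C ∧ ∀ (R ρ ε η δ u v : ℝ), 0 ≤ ρ → 0 ≤ ε → 0 ≤ u → u ≤ R → 0 ≤ v → v ≤ R →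
      C * Real.exp (n * ρ) ≤ Real.exp (η * R) → C * Real.exp (n * ρ) * ε ≤ Real.exp (-(δ * R)) →
      ∀ (t t' : Fin n → ℝ), Nr i₀ ρ u t → Nr i₀ ρ v t' →
      ∀ (M M' : Matrix (Fin n) (Fin n) ℤ), Red L K t M → Red L K t' M' →
      ∀ θ : ℝ, (∀ k, |tr L M' t' i₀ k - θ * tr L M t i₀ k| ≤ ε) →
      ∃ θ' : ℝ, NR i₀ (fun j => L i₀ j / L i₀ i₀) η δ R u v M M' θ' := by
  set a : ℝ := |L i₀ i₀|⁻¹ with ha
  have ha0 : 0 < a := inv_pos.2 (abs_pos.2 h0)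
  set B : ℝ := ∑ i, ∑ r, |(Matrix.of L)⁻¹ i r| with hB
  have hB0 : 0 ≤ B := Finset.sum_nonneg (fun i _ => Finset.sum_nonneg (fun r _ => abs_nonneg _))
  have hKa : 0 ≤ K * a := mul_nonneg hK.le ha0.le
  have hBK : 0 ≤ B * K := mul_nonneg hB0 hK.le
  refine ⟨1 + K * a + a + B * K, by linarith, ?_⟩
  intro R ρ ε η δ u v hρ hε hu huR hv hvR hC1 hC2 t t' ht ht' M M' hM hM' θ hcl
  -- the top coefficient
  have coef : ∀ (w : ℝ) (s : Fin n → ℝ), Nr i₀ ρ w s →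
      |Real.exp (((n : ℝ) - 1) * w) / (s i₀ * L i₀ i₀)| ≤ a * Real.exp (n * ρ) := by
    intro w s hs
    have h1 := nr_top hs hρ
    have h2 := hs.1.1 i₀
    rw [abs_div, abs_mul, abs_of_pos h2, Real.abs_exp, ha, inv_mul_eq_div,
      div_le_div_iff₀ (mul_pos h2 (abs_pos.2 h0)) (abs_pos.2 h0)]
    nlinarith [mul_le_mul_of_nonneg_right h1 (abs_nonneg (L i₀ i₀))]
  have bound : ∀ (w : ℝ) (s : Fin n → ℝ) (N : Matrix (Fin n) (Fin n) ℤ), 0 ≤ w → Nr i₀ ρ w s →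
      Red L K s N → ∀ i j, |kk i₀ (fun j => L i₀ j / L i₀ i₀) w N i j| ≤ Real.exp (η * R) := by
    intro w s N hw hs hN i j
    refine le_trans ?_ hC1
    by_cases hi : i = i₀
    · rw [hi, kk_top i₀ L (hs.1.1 i₀) w N j, abs_mul]
      calc |Real.exp (((n : ℝ) - 1) * w) / (s i₀ * L i₀ i₀)| * |tr L N s i₀ j|
          ≤ (a * Real.exp (n * ρ)) * K :=
            mul_le_mul (coef w s hs) (hN.2 i₀ j) (abs_nonneg _) (by positivity)
        _ = (K * a) * Real.exp (n * ρ) := by ring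
        _ ≤ (1 + K * a + a + B * K) * Real.exp (n * ρ) :=
            mul_le_mul_of_nonneg_right (by linarith) (Real.exp_pos _).le
    · rw [kk_low i₀ _ w N hi j, abs_mul, Real.abs_exp]
      have h1 := ent_bd L hdet hs.1.1 hN.2 (fun r => nr_inv hs hρ hw r) i j
      calc Real.exp (-w) * |(N i j : ℝ)|
          ≤ Real.exp (-w) * (B * (K * Real.exp (w + n * ρ))) :=
            mul_le_mul_of_nonneg_left h1 (Real.exp_pos _).le
        _ = (B * K) * (Real.exp (-w) * Real.exp (w + n * ρ)) := by ring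
        _ = (B * K) * Real.exp (n * ρ) := by
            rw [← Real.exp_add]
            congr 2
            ring
        _ ≤ (1 + K * a + a + B * K) * Real.exp (n * ρ) :=
            mul_le_mul_of_nonneg_right (by linarith) (Real.exp_pos _).le
  set α : ℝ := Real.exp (((n : ℝ) - 1) * u) / (t i₀ * L i₀ i₀) with hα
  set β : ℝ := Real.exp (((n : ℝ) - 1) * v) / (t' i₀ * L i₀ i₀) with hβ
  have hα0 : α ≠ 0 := div_ne_zero (Real.exp_pos _).ne' (mul_ne_zero (ht.1.1 i₀).ne' h0)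
  refine ⟨θ * β / α, ⟨hu, huR, hv, hvR, hM.1, hM'.1, bound u t M hu ht hM,
    bound v t' M' hv ht' hM', fun j => ?_⟩⟩
  rw [kk_top i₀ L (ht.1.1 i₀) u M j, kk_top i₀ L (ht'.1.1 i₀) v M' j, ← hα, ← hβ]
  have e : β * tr L M' t' i₀ j - θ * β / α * (α * tr L M t i₀ j) =
      β * (tr L M' t' i₀ j - θ * tr L M t i₀ j) := by
    field_simp
  rw [e, abs_mul]
  refine le_trans ?_ hC2
  calc |β| * |tr L M' t' i₀ j - θ * tr L M t i₀ j| ≤ (a * Real.exp (n * ρ)) * ε :=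
        mul_le_mul (coef v t' ht') (hcl j) (abs_nonneg _) (by positivity)
    _ ≤ (1 + K * a + a + B * K) * Real.exp (n * ρ) * ε :=
        mul_le_mul_of_nonneg_right
          (mul_le_mul_of_nonneg_right (by linarith) (Real.exp_pos _).le) hε

end Pool.Agent.Work.MP_77d073_nt.Alg
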