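import Mathlib
import Pool.Agent.Work.MP_77d073_nt.Alg.Capt
import Pool.Agent.Work.MP_77d073_nt.Alg.ToNR

/-!
# MP_77d073_nt/Alg, Ray35 (size M): linear complexity along the ray gives near returns

PROOF.  `C₁, ε₁` from `capt`.  We may assume `C ≥ 1` (replace `C` by `max C 1`).  `δ = 1 / (2 τ (C + 1))`... precisely: given `R₀`, take `ε₀ = min (ε₁, exp (-1), C₁⁻²,  exp (- R₀))` (all positive) and `ε`, `N`, `y` from `h`; `E = log (1/ε) ≥ 1`, `E ≥ R₀`,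
`R = τ (C + 1) E + R'`: choose `R = max (τ (C + 1), 1) * E`, so `R ≥ E ≥ R₀`.  The `N + 1` times `k τ`, `k = 0..N`, are `≤ N τ ≤ τ C E ≤ R`.  Choose for each `M_k`, `j_k`, `θ_k`.  Pigeonhole (`Fin (N+1) → Fin N`): `k < k'` with `j_k = j_k'`.
`u = k τ`, `v = k' τ ≥ u + τ`.  `capt` (`Pos (ry i₀ u)`: `(Nr_ry ..).1`): `|row' - θ'' row| ≤ C₁ ε ≤ ε^{1/2} = exp (- E/2) = exp (- δ R)` with `δ = 1 / (2 max (τ (C+1), 1))`; `C₁ ε ≤ ε^{1/2}` as `ε ≤ C₁⁻²`.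
-/

set_option autoImplicit false

namespace Pool.Agent.Work.MP_77d073_nt.Alg

open Pool.Agent.Work.MP_77d073_nt Pool.Agent.Work.MP_77d073_nt.Gap

theorem ray35 (n : ℕ) (hn : 1 ≤ n) {D K τ : ℝ} (hD : 0 < D) (hK : 0 < K) (hτ : 0 < τ)
    (L : Fin n → Fin n → ℝ) (hL : |(Matrix.of L).det| = D) (i₀ : Fin n) (C : ℝ)
    (h : ∀ ε₀ : ℝ, 0 < ε₀ → ∃ ε : ℝ, 0 < ε ∧ ε < ε₀ ∧ ∃ N : ℕ, (N : ℝ) ≤ C * Real.log (1 / ε) ∧
      ∃ y : Fin N → Fin n → ℝ, ∀ u : ℝ, 0 ≤ u →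
        ∃ M : Matrix (Fin n) (Fin n) ℤ, Red L K (ry i₀ u) M ∧ ∃ (j : Fin N) (θ : ℝ),
          ∀ k, |tr L M (ry i₀ u) i₀ k - θ * y j k| ≤ ε) :
    ∃ δ : ℝ, 0 < δ ∧ ∀ R₀ : ℝ, ∃ R : ℝ, R₀ ≤ R ∧ ∃ u v : ℝ, 0 ≤ u ∧ u + τ ≤ v ∧ v ≤ R ∧
      ∃ M M' : Matrix (Fin n) (Fin n) ℤ, Red L K (ry i₀ u) M ∧ Red L K (ry i₀ v) M' ∧
      ∃ θ : ℝ, ∀ k, |tr L M' (ry i₀ v) i₀ k - θ * tr L M (ry i₀ u) i₀ k| ≤
        Real.exp (-(δ * R)) := by
  obtain ⟨C₁, hC₁, ε₁, hε₁, hcapt⟩ := capt n hn hD hK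
  set B : ℝ := max (τ * (C + 1)) 1 with hB
  have hB1 : 1 ≤ B := le_max_right _ _
  have hB0 : 0 < B := by linarith
  refine ⟨1 / (2 * B), by positivity, fun R₀ => ?_⟩
  obtain ⟨ε, hε0, hε, N, hN, y, hy⟩ := h (min (min ε₁ (Real.exp (-1)))
    (min ((C₁ ^ 2)⁻¹) (Real.exp (-R₀)))) (by
      refine lt_min (lt_min hε₁ (Real.exp_pos _)) (lt_min (by positivity) (Real.exp_pos _)))
  have e1 : ε ≤ ε₁ := hε.le.trans ((min_le_left _ _).trans (min_le_left _ _))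
  have e2 : ε ≤ Real.exp (-1) := hε.le.trans ((min_le_left _ _).trans (min_le_right _ _))
  have e3 : ε ≤ (C₁ ^ 2)⁻¹ := hε.le.trans ((min_le_right _ _).trans (min_le_left _ _))
  have e4 : ε ≤ Real.exp (-R₀) := hε.le.trans ((min_le_right _ _).trans (min_le_right _ _))
  set E : ℝ := Real.log (1 / ε) with hE
  have hEl : E = - Real.log ε := by rw [hE, one_div, Real.log_inv]
  have hE1 : 1 ≤ E := by
    have h1 := Real.log_le_log hε0 e2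
    rw [Real.log_exp] at h1
    linarith
  have hER : R₀ ≤ E := by
    have h1 := Real.log_le_log hε0 e4
    rw [Real.log_exp] at h1
    linarith
  have hRE : E ≤ B * E := by nlinarith
  choose M hM J θ hJ using fun k : Fin (N + 1) => hy ((k : ℕ) * τ) (by positivity)
  obtain ⟨k, k', hkk, hJJ⟩ : ∃ k k' : Fin (N + 1), k < k' ∧ J k = J k' := by
    have h1 : ¬ Function.Injective J := by
      intro hinj
      have h2 := Fintype.card_le_of_injective J hinj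
      rw [Fintype.card_fin, Fintype.card_fin] at h2
      omega
    unfold Function.Injective at h1
    push Not at h1
    obtain ⟨a, b, hab, hne⟩ := h1
    rcases lt_or_gt_of_ne hne with h2 | h2
    · exact ⟨a, b, h2, hab⟩
    · exact ⟨b, a, h2, hab.symm⟩
  have hk1 : ((k : ℕ) : ℝ) + 1 ≤ ((k' : ℕ) : ℝ) := by
    have h1 : (k : ℕ) + 1 ≤ (k' : ℕ) := hkk
    exact_mod_cast h1
  have hk'N : ((k' : ℕ) : ℝ) ≤ N := by
    have h1 : (k' : ℕ) ≤ N := Nat.lt_succ_iff.1 k'.2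
    exact_mod_cast h1
  refine ⟨B * E, hER.trans hRE, (k : ℕ) * τ, (k' : ℕ) * τ, by positivity, by nlinarith, ?_,
    M k, M k', hM k, hM k', ?_⟩
  · calc ((k' : ℕ) : ℝ) * τ ≤ (C * E) * τ := by
          refine mul_le_mul_of_nonneg_right (hk'N.trans hN) hτ.le
      _ ≤ τ * (C + 1) * E := by nlinarith
      _ ≤ B * E := mul_le_mul_of_nonneg_right (le_max_left _ _) (by linarith)
  · obtain ⟨θ'', hθ⟩ := hcapt L hL i₀ _ _ (Nr_ry i₀ le_rfl ((k : ℕ) * τ)).1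
      (Nr_ry i₀ le_rfl ((k' : ℕ) * τ)).1 (M k) (M k') (hM k) (hM k') (y (J k)) (θ k) (θ k') ε
      hε0.le e1 (hJ k) (by rw [hJJ]; exact hJ k')
    refine ⟨θ'', fun j => (hθ j).trans ?_⟩
    have h1 : 1 / (2 * B) * (B * E) = E / 2 := by field_simp
    rw [h1, hEl]
    have h2 : Real.exp (-(-Real.log ε / 2)) = Real.sqrt ε := by
      rw [Real.sqrt_eq_rpow, Real.rpow_def_of_pos hε0]
      congr 1
      ring
    rw [h2]
    apply Real.le_sqrt_of_sq_le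
    have h3 : C₁ ^ 2 * ε ≤ 1 := by
      have h4 := mul_le_mul_of_nonneg_left e3 (by positivity : (0 : ℝ) ≤ C₁ ^ 2)
      rwa [mul_inv_cancel₀ (by positivity)] at h4
    calc (C₁ * ε) ^ 2 = (C₁ ^ 2 * ε) * ε := by ring
      _ ≤ 1 * ε := mul_le_mul_of_nonneg_right h3 hε0.le
      _ = ε := one_mul _

end Pool.Agent.Work.MP_77d073_nt.Alg
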