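import Mathlib
import Pool.Agent.Work.MP_77d073_nt.Alg.Defs

/-!
# MP_77d073_nt/Alg, Bas (size S-M): bookkeeping

PROOFS.  `qi_of_sys`: a factor `0` would make the product `0 < c`.  `qi_mul`: `∑ (rowMul l M)_i q_i = ∑ l_i (M q)_i`, `M q ≠ 0` for `q ≠ 0` (`M` invertible).
`diag_ne`: `QI` for `q = Pi.single i₀ 1`.  `alg_ratio`: quotient of the algebraic numbers `θ L i₀ j`, `θ L i₀ i₀`.
`prp_eig`: `Prp` for `l = L i₀ / L i₀ i₀` gives `rowMul (L i₀) M' = lam rowMul (L i₀) M` (multiply by `L i₀ i₀`), and `rowMul (rowMul (L i₀) M) (M⁻¹ M') = rowMul (L i₀) (M (M⁻¹ M')) = rowMul (L i₀) M'`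
(`Gap.rowMul_mul` in `GapNP` may be copied).
`back`: `A = toQ M * Y * toQ M⁻¹`: the same characteristic polynomial (`Matrix.charpoly_units_conj` or `charpoly_mul_comm`), and `L_{i₀} A = (L_{i₀} M) Y M⁻¹ = mu L_{i₀} M M⁻¹ = mu L_{i₀}`.
-/

set_option autoImplicit false

namespace Pool.Agent.Work.MP_77d073_nt.Alg

open Pool.Agent.Work.MP_77d073_nt Pool.Agent.Work.MP_77d073_nt.Gap

variable {n : ℕ}

theorem qi_of_sys {c D : ℝ} (hc : 0 < c) {L : Fin n → Fin n → ℝ} (h : Sys c D L) (i₀ : Fin n) :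
    QI (L i₀) := by
  intro q hq h0
  have h1 := h.2 q hq
  rw [Finset.prod_eq_zero (Finset.mem_univ i₀) h0, abs_zero] at h1
  exact absurd h1 (not_le.2 hc)

private theorem rowMul_vec (r : Fin n → ℝ) (A : Matrix (Fin n) (Fin n) ℤ) :
    rowMul r A = Matrix.vecMul r (rI A) := rfl

private theorem rI_mul (A B : Matrix (Fin n) (Fin n) ℤ) : rI (A * B) = rI A * rI B := by
  unfold rI
  exact Matrix.map_mul (f := Int.castRingHom ℝ)

private theorem rowMul_mul' (r : Fin n → ℝ) (A B : Matrix (Fin n) (Fin n) ℤ) :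
    rowMul (rowMul r A) B = rowMul r (A * B) := by
  rw [rowMul_vec, rowMul_vec, rowMul_vec, Matrix.vecMul_vecMul, rI_mul]

theorem qi_mul {l : Fin n → ℝ} (h : QI l) {M : Matrix (Fin n) (Fin n) ℤ} (hM : IsUnit M.det) :
    QI (rowMul l M) := by
  intro q hq
  have h1 : M.mulVec q ≠ 0 := by
    intro h0
    apply hq
    have h2 : M⁻¹.mulVec (M.mulVec q) = q := by
      rw [Matrix.mulVec_mulVec, Matrix.nonsing_inv_mul M hM, Matrix.one_mulVec]
    rw [← h2, h0, Matrix.mulVec_zero]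
  have h2 := h _ h1
  have h3 : ∑ i, rowMul l M i * (q i : ℝ) = ∑ i, l i * ((M.mulVec q i : ℤ) : ℝ) := by
    unfold rowMul
    simp only [Matrix.mulVec, dotProduct, Int.cast_sum, Int.cast_mul, Finset.sum_mul,
      Finset.mul_sum]
    rw [Finset.sum_comm]
    exact Finset.sum_congr rfl (fun i _ => Finset.sum_congr rfl (fun j _ => by ring))
  rwa [h3]

theorem diag_ne {l : Fin n → ℝ} (h : QI l) (i₀ : Fin n) : l i₀ ≠ 0 := by
  have h1 : (Pi.single i₀ (1 : ℤ) : Fin n → ℤ) ≠ 0 := by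
    intro h0
    have := congrFun h0 i₀
    simp at this
  have h2 := h _ h1
  rw [Finset.sum_eq_single i₀] at h2
  · simpa using h2
  · intro b _ hb
    rw [Pi.single_eq_of_ne hb]
    simp
  · intro hb
    exact absurd (Finset.mem_univ _) hb

theorem alg_ratio {l : Fin n → ℝ} (h : QI l) (i₀ : Fin n)
    (halg : ∃ θ : ℝ, θ ≠ 0 ∧ ∀ j, IsAlgebraic ℚ (θ * l j)) (j : Fin n) :
    IsAlgebraic ℚ (l j / l i₀) := by
  obtain ⟨θ, hθ, ha⟩ := halg
  have h1 : l j / l i₀ = (θ * l j) * (θ * l i₀)⁻¹ := by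
    rw [← div_eq_mul_inv, mul_div_mul_left _ _ hθ]
  rw [h1]
  exact (ha j).mul (ha i₀).inv

theorem mul_inv_mul {M : Matrix (Fin n) (Fin n) ℤ} (hM : IsUnit M.det)
    (M' : Matrix (Fin n) (Fin n) ℤ) : M * (M⁻¹ * M') = M' :=
  Matrix.mul_nonsing_inv_cancel_left M M' hM

theorem prp_eig {L : Fin n → Fin n → ℝ} {i₀ : Fin n} (h0 : L i₀ i₀ ≠ 0)
    {M M' : Matrix (Fin n) (Fin n) ℤ} (hM : IsUnit M.det)
    (h : Prp (fun j => L i₀ j / L i₀ i₀) M M') :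
    ∃ lam : ℝ, ∀ j, rowMul (rowMul (L i₀) M) (M⁻¹ * M') j = lam * rowMul (L i₀) M j := by
  obtain ⟨lam, hlam⟩ := h
  refine ⟨lam, fun j => ?_⟩
  rw [rowMul_mul', mul_inv_mul hM]
  have e : ∀ N : Matrix (Fin n) (Fin n) ℤ,
      rowMul (fun j => L i₀ j / L i₀ i₀) N j = rowMul (L i₀) N j / L i₀ i₀ := by
    intro N
    unfold rowMul
    rw [Finset.sum_div]
    exact Finset.sum_congr rfl (fun i _ => by ring)
  have h1 := hlam j
  rw [e, e, ← mul_div_assoc, div_left_inj' h0] at h1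
  exact h1

theorem back {L : Fin n → Fin n → ℝ} {i₀ : Fin n} {M : Matrix (Fin n) (Fin n) ℤ}
    (hM : IsUnit M.det) {Y : Matrix (Fin n) (Fin n) ℚ} (hY : Irreducible Y.charpoly) {mu : ℝ}
    (h : ∀ j, ∑ i, rowMul (L i₀) M i * (Y i j : ℝ) = mu * rowMul (L i₀) M j) :
    ∃ A : Matrix (Fin n) (Fin n) ℚ, Irreducible A.charpoly ∧
      ∀ x : Fin n → ℝ, ∑ j, L i₀ j * x j = 0 →
        ∑ j, L i₀ j * ((A.map (Rat.cast : ℚ → ℝ)).mulVec x) j = 0 := by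
  have e1 : toQ M * toQ M⁻¹ = 1 := by
    have h1 : toQ (M * M⁻¹) = toQ M * toQ M⁻¹ := by
      unfold toQ
      exact Matrix.map_mul (f := Int.castRingHom ℚ)
    rw [← h1, Matrix.mul_nonsing_inv M hM]
    exact Matrix.map_one _ Int.cast_zero Int.cast_one
  have e2 : toQ M⁻¹ * toQ M = 1 := mul_eq_one_comm.1 e1
  let U : (Matrix (Fin n) (Fin n) ℚ)ˣ := ⟨toQ M, toQ M⁻¹, e1, e2⟩
  have e3 : (toQ M * Y * toQ M⁻¹).charpoly = Y.charpoly := by
    have h1 : (toQ M * Y * (toQ M)⁻¹).charpoly = Y.charpoly := Matrix.charpoly_units_conj U Y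
    rwa [Matrix.inv_eq_right_inv e1] at h1
  have e4 : (toQ M).map (Rat.cast : ℚ → ℝ) = rI M := by
    ext i j
    simp [toQ, rI]
  have e5 : (toQ M⁻¹).map (Rat.cast : ℚ → ℝ) = rI M⁻¹ := by
    ext i j
    simp [toQ, rI]
  have e6 : (toQ M * Y * toQ M⁻¹).map (Rat.cast : ℚ → ℝ) =
      rI M * Y.map (Rat.cast : ℚ → ℝ) * rI M⁻¹ := by
    have h1 : ∀ P Q : Matrix (Fin n) (Fin n) ℚ, (P * Q).map (Rat.cast : ℚ → ℝ) =
        P.map (Rat.cast : ℚ → ℝ) * Q.map (Rat.cast : ℚ → ℝ) := fun P Q =>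
      Matrix.map_mul (f := Rat.castHom ℝ)
    rw [h1, h1, e4, e5]
  have e7 : Matrix.vecMul (Matrix.vecMul (L i₀) (rI M)) (Y.map (Rat.cast : ℚ → ℝ)) =
      mu • Matrix.vecMul (L i₀) (rI M) := by
    funext j
    exact h j
  have e8 : Matrix.vecMul (L i₀) ((toQ M * Y * toQ M⁻¹).map (Rat.cast : ℚ → ℝ)) = mu • L i₀ := by
    rw [e6, ← Matrix.vecMul_vecMul, ← Matrix.vecMul_vecMul, e7, Matrix.smul_vecMul,
      Matrix.vecMul_vecMul, ← rI_mul, Matrix.mul_nonsing_inv M hM]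
    have h2 : rI (1 : Matrix (Fin n) (Fin n) ℤ) = 1 :=
      Matrix.map_one _ Int.cast_zero Int.cast_one
    rw [h2, Matrix.vecMul_one]
  refine ⟨toQ M * Y * toQ M⁻¹, by rw [e3]; exact hY, fun x hx => ?_⟩
  have h1 : L i₀ ⬝ᵥ (((toQ M * Y * toQ M⁻¹).map (Rat.cast : ℚ → ℝ)).mulVec x) = 0 := by
    rw [Matrix.dotProduct_mulVec, e8, smul_dotProduct]
    have h3 : L i₀ ⬝ᵥ x = 0 := hx
    rw [h3, smul_zero]
  exact h1

end Pool.Agent.Work.MP_77d073_nt.Alg
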