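import Mathlib

/-!
# MP_77d073_nt/Alg, Minor (size M): a large minor

PROOF.  (a) `exMinor`: the rows of `U` are independent over `ℤ`, hence over `ℚ` (clear denominators; `LinearIndependent.iff_fractionRing`), so the rational matrix has rank `d`, also the rank of its
columns: there are `d` independent columns `J'` (`Matrix.rank_transpose`, `LinearIndependent.rank_matrix`, `exists_linearIndependent`, or: induction on `d`; or: the linear map
`(κ' → ℚ) → (Fin d → ℚ)` given by `U` is surjective, so the columns span, and a spanning family contains a basis: `Basis.ofSpan` / `exists_linearIndependent'`), the minor is nonzero.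
(b) `minor`: `U J' = Ψ * T J'` with `T J' : κ × Fin d`.  Multilinearity in the columns (`Matrix.detRowAlternating.toMultilinearMap.map_sum` for the transposed matrices, as in the proof of
`Matrix.det_mul_aux`): `det (U J') = ∑_{J : Fin d → κ} (∏_m T (J m) (J' m)) * det (Ψ J)`.  The integer `det (U J') ≠ 0` has absolute value `≥ 1`; there are `(card κ)^d` functions `J`, each term is at
most `B^d |det (Ψ J)|`; take `J` with the largest `|det (Ψ J)|` (`Fin d → κ` is nonempty, because otherwise the sum is empty and `det (U J') = 0`).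
-/

set_option autoImplicit false

namespace Pool.Agent.Work.MP_77d073_nt.Alg

theorem exMinor {d : ℕ} {κ' : Type} [Fintype κ'] (U : Fin d → κ' → ℤ) (hU : LinearIndependent ℤ U) :
    ∃ J' : Fin d → κ', (Matrix.of fun i m => U i (J' m)).det ≠ 0 := by
  classical
  have h1 : LinearIndependent ℤ (fun i => (fun j => (U i j : ℚ) : κ' → ℚ)) := by
    have := hU.map' ((Algebra.linearMap ℤ ℚ).compLeft κ') (by
      rw [LinearMap.ker_eq_bot]
      intro x y hxy
      funext j
      have := congrFun hxy j
      simpa using this)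
    exact this
  have h2 : LinearIndependent ℚ (fun i => (fun j => (U i j : ℚ) : κ' → ℚ)) :=
    (LinearIndependent.iff_fractionRing ℤ ℚ).1 h1
  let A : Matrix (Fin d) κ' ℚ := Matrix.of fun i j => (U i j : ℚ)
  have h3 : A.rank = d := by
    have := LinearIndependent.rank_matrix (M := A) h2
    simpa using this
  have h4 : Submodule.span ℚ (Set.range A.col) = ⊤ := by
    apply Submodule.eq_top_of_finrank_eq
    rw [← Matrix.rank_eq_finrank_span_cols, h3]
    simp
  obtain ⟨κ, a, ha, hs, hl⟩ := exists_linearIndependent' ℚ A.col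
  rw [h4] at hs
  let b := Module.Basis.mk hl (by rw [hs])
  have : Finite κ := Module.Finite.finite_basis b
  have := Fintype.ofFinite κ
  have hcard : Fintype.card κ = d := by
    rw [← Module.finrank_eq_card_basis b]; simp
  let e : Fin d ≃ κ := (Fintype.equivFinOfCardEq hcard).symm
  refine ⟨fun m => a (e m), ?_⟩
  have h5 : LinearIndependent ℚ (Matrix.of fun i m => (U i (a (e m)) : ℚ)).col :=
    hl.comp e e.injective
  rw [Matrix.linearIndependent_cols_iff_isUnit, Matrix.isUnit_iff_isUnit_det] at h5
  intro h0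
  apply h5.ne_zero
  have : (Matrix.of fun i m => (U i (a (e m)) : ℚ)) =
      (Matrix.of fun i m => U i (a (e m))).map (Int.castRingHom ℚ) := by
    ext i m; simp
  rw [this]
  have h6 := (RingHom.map_det (Int.castRingHom ℚ) (Matrix.of fun i m => U i (a (e m))))
  rw [RingHom.mapMatrix_apply] at h6
  rw [← h6, h0]; simp

theorem minor {d : ℕ} {κ κ' : Type} [Fintype κ] [Fintype κ'] (Ψ : Fin d → κ → ℝ) (T : κ → κ' → ℝ)
    (U : Fin d → κ' → ℤ) (h : ∀ i q, (U i q : ℝ) = ∑ p, Ψ i p * T p q)
    (hU : LinearIndependent ℤ U) {B : ℝ} (hB : 0 ≤ B) (hT : ∀ p q, |T p q| ≤ B) :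
    ∃ J : Fin d → κ, 1 ≤ ((Fintype.card κ : ℝ) * B) ^ d *
      |(Matrix.of fun i m => Ψ i (J m)).det| := by
  classical
  obtain ⟨J', hJ'⟩ := exMinor U hU
  -- the determinant as a sum
  have hdet : (((Matrix.of fun i m => U i (J' m)).det : ℤ) : ℝ) =
      ∑ J : Fin d → κ, (∏ m, T (J m) (J' m)) * (Matrix.of fun i m => Ψ i (J m)).det := by
    have e1 : (((Matrix.of fun i m => U i (J' m)).det : ℤ) : ℝ) =
        (Matrix.of fun m i => ∑ p, T p (J' m) • Ψ i p : Matrix (Fin d) (Fin d) ℝ).det := by
      rw [← Matrix.det_transpose (Matrix.of fun m i => ∑ p, T p (J' m) • Ψ i p)]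
      have h6 := (RingHom.map_det (Int.castRingHom ℝ) (Matrix.of fun i m => U i (J' m)))
      rw [RingHom.mapMatrix_apply] at h6
      have h7 : ((Matrix.of fun i m => U i (J' m)).map (Int.castRingHom ℝ)) =
          (Matrix.of fun m i => ∑ p, T p (J' m) • Ψ i p : Matrix (Fin d) (Fin d) ℝ).transpose := by
        ext i m
        simp only [Matrix.map_apply, Matrix.of_apply, Matrix.transpose_apply, eq_intCast, h,
          smul_eq_mul]
        exact Finset.sum_congr rfl fun p _ => mul_comm _ _
      rw [h7] at h6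
      exact h6
    rw [e1]
    have e2 := (Matrix.detRowAlternating (n := Fin d) (R := ℝ)).toMultilinearMap.map_sum
      (fun (m : Fin d) (p : κ) => (fun i => T p (J' m) • Ψ i p : Fin d → ℝ))
    have e3 : (fun m : Fin d => ∑ p, (fun i => T p (J' m) • Ψ i p : Fin d → ℝ)) =
        fun m i => ∑ p, T p (J' m) • Ψ i p := by
      funext m i
      rw [Finset.sum_apply]
    rw [e3] at e2
    refine Eq.trans e2 (Finset.sum_congr rfl fun J _ => ?_)
    have e4 := (Matrix.detRowAlternating (n := Fin d) (R := ℝ)).toMultilinearMap.map_smul_univ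
      (fun m => T (J m) (J' m)) (fun m i => Ψ i (J m))
    refine Eq.trans e4 ?_
    rw [smul_eq_mul]
    congr 1
    exact (Matrix.det_transpose (Matrix.of fun i m => Ψ i (J m)))
  have h1 : (1 : ℝ) ≤ |(((Matrix.of fun i m => U i (J' m)).det : ℤ) : ℝ)| := by
    have : (1 : ℤ) ≤ |(Matrix.of fun i m => U i (J' m)).det| := Int.one_le_abs hJ'
    exact_mod_cast this
  rw [hdet] at h1
  have hne : (Finset.univ : Finset (Fin d → κ)).Nonempty := by
    by_contra hcon
    rw [Finset.not_nonempty_iff_eq_empty] at hcon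
    rw [hcon] at h1
    simp at h1
    linarith
  obtain ⟨J, -, hJ⟩ := Finset.exists_max_image Finset.univ
    (fun J : Fin d → κ => |(Matrix.of fun i m => Ψ i (J m)).det|) hne
  refine ⟨J, ?_⟩
  calc (1 : ℝ) ≤ _ := h1
    _ ≤ ∑ J : Fin d → κ, |(∏ m, T (J m) (J' m)) * (Matrix.of fun i m => Ψ i (J m)).det| :=
        Finset.abs_sum_le_sum_abs _ _
    _ ≤ ∑ _K : Fin d → κ, B ^ d * |(Matrix.of fun i m => Ψ i (J m)).det| := by
        refine Finset.sum_le_sum fun K _ => ?_
        rw [abs_mul, Finset.abs_prod]
        refine mul_le_mul ?_ (hJ K (Finset.mem_univ _)) (abs_nonneg _) (by positivity)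
        calc ∏ m, |T (K m) (J' m)| ≤ ∏ _m : Fin d, B :=
              Finset.prod_le_prod (fun m _ => abs_nonneg _) fun m _ => hT _ _
          _ = B ^ d := by simp
    _ = ((Fintype.card κ : ℝ) * B) ^ d * |(Matrix.of fun i m => Ψ i (J m)).det| := by
        rw [Finset.sum_const, Finset.card_univ, Fintype.card_fun, Fintype.card_fin, nsmul_eq_mul]
        push_cast
        ring

end Pool.Agent.Work.MP_77d073_nt.Alg
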