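import Mathlib
import Pool.Agent.Work.MP_77d073_nt.Alg.Frame
import Pool.Agent.Work.MP_77d073_nt.Alg.Minor

/-!
# MP_77d073_nt/Alg, Bd (size M-L): bounds for a near return

Write `k = kk u M`, `k' = kk v M'` (entries at most `exp (η R)`, `|det| = 1`, inverses: entries at most `n! exp (n η R)` by `inv_bd`), `Φ X = D_v YY X D_u⁻¹`, `Φ(X)_rq = ry v r * YY X r q / ry u q`.
PROOFS.  `bdA`: `kk_conj` with `X = P`, `Z = 1`: `Φ P * k = k'`, so `Φ P = k' k⁻¹`: entries at most `n exp (η R) n! exp (n η R)`.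
`bdB`: the row `i₀` of `k'` is `θ k_{i₀} + e` with `|e_j| ≤ exp (- δ R)`, so `(Φ P)_{i₀ q} = θ (k k⁻¹)_{i₀ q} + ∑_j e_j (k⁻¹)_{j q} = ∑_j e_j (k⁻¹)_{jq}` for `q ≠ i₀`.
`bdJ`: let `M'' = M'⁻¹` (integer, `M' * M'' = 1`), `Z_i = M'' b_i M`; the `Z_i` are linearly independent over `ℤ` because `M''`, `M` are invertible; `kk_conj` with `X = b_i`, `Z = Z_i`
(`b_i M = M' Z_i`): `Φ (b_i) k = k' rI (Z_i)`, so `Z_i = k'⁻¹ Φ(b_i) k`.  Use `minor` with `κ = κ' = Fin n × Fin n`, `Ψ i (r,q) = Φ(b_i)_rq`, `T (r,q) (a,c) = (k'⁻¹)_{ar} k_{qc}`, `U i (a,c) = Z_i a c`,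
`B = n! exp ((n+1) η R)`.  `det (Ψ i (J m)) = (∏_m ry v (J m).1 / ry u (J m).2) * det (AA b J)` (transpose, and factors of the columns).
`le_max`: `ry v r / ry u q ≤ ry v i₀ / ry u q'` for `q' ≠ i₀` (`u, v ≥ 0`, `n ≥ 1`): `ry v i₀ / ry u q' = exp ((n-1) v + u)`.
-/

set_option autoImplicit false

namespace Pool.Agent.Work.MP_77d073_nt.Alg

open Pool.Agent.Work.MP_77d073_nt Pool.Agent.Work.MP_77d073_nt.Gap

variable {n : ℕ} {i₀ : Fin n} {l : Fin n → ℝ} {η δ R u v θ : ℝ} {M M' : Matrix (Fin n) (Fin n) ℤ}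

private theorem bd_R (h : NR i₀ l η δ R u v M M' θ) : 0 ≤ R := h.u0.trans h.uR

private theorem bd_B (hη : 0 ≤ η) (h : NR i₀ l η δ R u v M M' θ) : 1 ≤ Real.exp (η * R) :=
  Real.one_le_exp (mul_nonneg hη (bd_R h))

private theorem bd_unit {A : Matrix (Fin n) (Fin n) ℝ} (hA : |A.det| = 1) : IsUnit A.det := by
  rw [isUnit_iff_ne_zero]
  intro h0
  rw [h0, abs_zero] at hA
  exact zero_ne_one hA

/-- the conjugated matrix -/
private noncomputable def bdPhi (i₀ : Fin n) (l : Fin n → ℝ) (u v : ℝ)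
    (X : Matrix (Fin n) (Fin n) ℤ) : Matrix (Fin n) (Fin n) ℝ :=
  Matrix.diagonal (ry i₀ v) * YY i₀ l X * Matrix.diagonal (fun i => (ry i₀ u i)⁻¹)

private theorem bdPhi_apply (X : Matrix (Fin n) (Fin n) ℤ) (r q : Fin n) :
    bdPhi i₀ l u v X r q = ry i₀ v r / ry i₀ u q * YY i₀ l X r q := by
  unfold bdPhi
  rw [Matrix.mul_diagonal, Matrix.diagonal_mul]
  ring

private theorem bdPhi_abs (X : Matrix (Fin n) (Fin n) ℤ) (r q : Fin n) :
    |bdPhi i₀ l u v X r q| = ry i₀ v r / ry i₀ u q * |YY i₀ l X r q| := by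
  rw [bdPhi_apply, abs_mul, abs_of_pos (div_pos (ry_pos i₀ v r) (ry_pos i₀ u q))]

private theorem bd_rI_one : rI (1 : Matrix (Fin n) (Fin n) ℤ) = 1 := by
  unfold rI
  exact Matrix.map_one _ Int.cast_zero Int.cast_one

private theorem bd_eq (hl : l i₀ = 1) (h : NR i₀ l η δ R u v M M' θ)
    {P : Matrix (Fin n) (Fin n) ℤ} (hP : P * M = M') :
    bdPhi i₀ l u v P = kk i₀ l v M' * (kk i₀ l u M)⁻¹ := by
  have h1 := kk_conj i₀ l hl u v (M := M) (M' := M') (X := P) (Z := 1) (by rw [hP, mul_one])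
  rw [bd_rI_one, mul_one] at h1
  have h2 := bd_unit (kk_det i₀ l hl u h.dM)
  rw [← h1]
  exact (Matrix.mul_nonsing_inv_cancel_right _ _ h2).symm

private theorem bd_inv (hl : l i₀ = 1) (hη : 0 ≤ η) (h : NR i₀ l η δ R u v M M' θ)
    (i j : Fin n) : |(kk i₀ l u M)⁻¹ i j| ≤ n.factorial * Real.exp (η * R) ^ n :=
  inv_bd (kk_det i₀ l hl u h.dM) (bd_B hη h) h.hM i j

private theorem bd_inv' (hl : l i₀ = 1) (hη : 0 ≤ η) (h : NR i₀ l η δ R u v M M' θ)
    (i j : Fin n) : |(kk i₀ l v M')⁻¹ i j| ≤ n.factorial * Real.exp (η * R) ^ n :=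
  inv_bd (kk_det i₀ l hl v h.dM') (bd_B hη h) h.hM' i j

private theorem bd_sum {a b : Fin n → ℝ} {A B : ℝ} (hA : 0 ≤ A) (ha : ∀ j, |a j| ≤ A)
    (hb : ∀ j, |b j| ≤ B) : |∑ j, a j * b j| ≤ n * (A * B) := by
  calc |∑ j, a j * b j| ≤ ∑ j, |a j * b j| := Finset.abs_sum_le_sum_abs _ _
    _ ≤ ∑ _j : Fin n, A * B := by
      apply Finset.sum_le_sum
      intro j _
      rw [abs_mul]
      exact mul_le_mul (ha j) (hb j) (abs_nonneg _) hA
    _ = n * (A * B) := by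
      rw [Finset.sum_const, Finset.card_univ, Fintype.card_fin, nsmul_eq_mul]

theorem bdA (hl : l i₀ = 1) (hη : 0 ≤ η) (h : NR i₀ l η δ R u v M M' θ)
    {P : Matrix (Fin n) (Fin n) ℤ} (hP : P * M = M') (r q : Fin n) :
    ry i₀ v r / ry i₀ u q * |YY i₀ l P r q| ≤ n * n.factorial * Real.exp ((n + 1) * η * R) := by
  rw [← bdPhi_abs, bd_eq hl h hP, Matrix.mul_apply]
  refine (bd_sum (Real.exp_pos _).le (fun j => h.hM' r j) (fun j => bd_inv hl hη h j q)).trans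
    (le_of_eq ?_)
  have h1 : Real.exp ((n + 1) * η * R) = Real.exp (η * R) * Real.exp (η * R) ^ n := by
    rw [← Real.exp_nat_mul, ← Real.exp_add]
    congr 1
    ring
  rw [h1]
  ring

theorem bdB (hl : l i₀ = 1) (hη : 0 ≤ η) (h : NR i₀ l η δ R u v M M' θ)
    {P : Matrix (Fin n) (Fin n) ℤ} (hP : P * M = M') (q : Fin n) (hq : q ≠ i₀) :
    ry i₀ v i₀ / ry i₀ u q * |YY i₀ l P i₀ q| ≤
      n * n.factorial * Real.exp (n * η * R - δ * R) := by
  rw [← bdPhi_abs, bd_eq hl h hP, Matrix.mul_apply]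
  have h2 := bd_unit (kk_det i₀ l hl u h.dM)
  have h3 : ∑ j, kk i₀ l u M i₀ j * (kk i₀ l u M)⁻¹ j q = 0 := by
    rw [← Matrix.mul_apply, Matrix.mul_nonsing_inv _ h2, Matrix.one_apply_ne (Ne.symm hq)]
  have h4 : ∑ j, kk i₀ l v M' i₀ j * (kk i₀ l u M)⁻¹ j q =
      ∑ j, (kk i₀ l v M' i₀ j - θ * kk i₀ l u M i₀ j) * (kk i₀ l u M)⁻¹ j q := by
    have h5 : ∑ j, (kk i₀ l v M' i₀ j - θ * kk i₀ l u M i₀ j) * (kk i₀ l u M)⁻¹ j q =
        ∑ j, kk i₀ l v M' i₀ j * (kk i₀ l u M)⁻¹ j q -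
          θ * ∑ j, kk i₀ l u M i₀ j * (kk i₀ l u M)⁻¹ j q := by
      rw [Finset.mul_sum, ← Finset.sum_sub_distrib]
      apply Finset.sum_congr rfl
      intro j _
      ring
    rw [h5, h3, mul_zero, sub_zero]
  rw [h4]
  refine (bd_sum (Real.exp_pos _).le (fun j => h.close j) (fun j => bd_inv hl hη h j q)).trans
    (le_of_eq ?_)
  have h1 : Real.exp (n * η * R - δ * R) = Real.exp (-(δ * R)) * Real.exp (η * R) ^ n := by
    rw [← Real.exp_nat_mul, ← Real.exp_add]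
    congr 1
    ring
  rw [h1]
  ring

theorem bdJ (hl : l i₀ = 1) (hη : 0 ≤ η) (h : NR i₀ l η δ R u v M M' θ) {d : ℕ}
    (b : Fin d → Matrix (Fin n) (Fin n) ℤ) (hb : LinearIndependent ℤ b) :
    ∃ J : Fin d → Fin n × Fin n,
      1 ≤ ((n : ℝ) ^ 2 * n.factorial * Real.exp ((n + 1) * η * R)) ^ d *
        ((∏ m, ry i₀ v (J m).1 / ry i₀ u (J m).2) * |(AA i₀ l b J).det|) := by
  set Z : Fin d → Matrix (Fin n) (Fin n) ℤ := fun i => M'⁻¹ * b i * M with hZ
  have hMM' : M' * M'⁻¹ = 1 := Matrix.mul_nonsing_inv _ h.dM'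
  have hMM : M * M⁻¹ = 1 := Matrix.mul_nonsing_inv _ h.dM
  have hu1 := bd_unit (kk_det i₀ l hl u h.dM)
  have hu2 := bd_unit (kk_det i₀ l hl v h.dM')
  have hconj : ∀ i, rI (Z i) = (kk i₀ l v M')⁻¹ * (bdPhi i₀ l u v (b i) * kk i₀ l u M) := by
    intro i
    have h1 := kk_conj i₀ l hl u v (M := M) (M' := M') (X := b i) (Z := Z i) (by
      rw [hZ]
      simp only
      rw [← mul_assoc, ← mul_assoc, hMM', one_mul])
    have h2 : bdPhi i₀ l u v (b i) * kk i₀ l u M = kk i₀ l v M' * rI (Z i) := h1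
    rw [h2]
    exact (Matrix.nonsing_inv_mul_cancel_left _ _ hu2).symm
  have hindep : LinearIndependent ℤ (fun (i : Fin d) (p : Fin n × Fin n) => Z i p.1 p.2) := by
    rw [Fintype.linearIndependent_iff]
    intro g hg
    have h1 : ∑ i, g i • Z i = 0 := by
      ext a c
      have h2 := congrFun hg (a, c)
      rw [Finset.sum_apply] at h2
      rw [Matrix.sum_apply]
      exact h2
    have h3 : ∑ i, g i • b i = 0 := by
      have h4 : ∑ i, g i • Z i = M'⁻¹ * (∑ i, g i • b i) * M := by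
        rw [Finset.mul_sum, Finset.sum_mul]
        apply Finset.sum_congr rfl
        intro i _
        rw [hZ]
        simp only
        rw [Matrix.mul_smul, Matrix.smul_mul]
      rw [h1] at h4
      calc ∑ i, g i • b i = (M' * M'⁻¹) * (∑ i, g i • b i) * (M * M⁻¹) := by
            rw [hMM', hMM, one_mul, mul_one]
        _ = M' * (M'⁻¹ * (∑ i, g i • b i) * M) * M⁻¹ := by
            simp only [mul_assoc]
        _ = 0 := by rw [← h4, mul_zero, zero_mul]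
    exact Fintype.linearIndependent_iff.1 hb g h3
  set B : ℝ := n.factorial * Real.exp ((n + 1) * η * R) with hB
  have hB0 : 0 ≤ B := by positivity
  have hexp : Real.exp ((n + 1) * η * R) = Real.exp (η * R) ^ n * Real.exp (η * R) := by
    rw [← Real.exp_nat_mul, ← Real.exp_add]
    congr 1
    ring
  obtain ⟨J, hJ⟩ := minor (κ := Fin n × Fin n) (κ' := Fin n × Fin n)
    (fun i p => bdPhi i₀ l u v (b i) p.1 p.2)
    (fun p p' => (kk i₀ l v M')⁻¹ p'.1 p.1 * kk i₀ l u M p.2 p'.2)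
    (fun (i : Fin d) (p : Fin n × Fin n) => Z i p.1 p.2)
    (by
      intro i p'
      have h1 : ((Z i p'.1 p'.2 : ℤ) : ℝ) = rI (Z i) p'.1 p'.2 := rfl
      change ((Z i p'.1 p'.2 : ℤ) : ℝ) = ∑ p : Fin n × Fin n, bdPhi i₀ l u v (b i) p.1 p.2 *
        ((kk i₀ l v M')⁻¹ p'.1 p.1 * kk i₀ l u M p.2 p'.2)
      rw [h1, hconj i, Matrix.mul_apply, Fintype.sum_prod_type]
      apply Finset.sum_congr rfl
      intro r _
      rw [Matrix.mul_apply, Finset.mul_sum]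
      apply Finset.sum_congr rfl
      intro q _
      ring)
    hindep hB0
    (by
      intro p p'
      rw [abs_mul, hB, hexp, ← mul_assoc]
      exact mul_le_mul (bd_inv' hl hη h _ _) (h.hM _ _) (abs_nonneg _) (by positivity))
  refine ⟨J, ?_⟩
  have hdet : (Matrix.of fun i m => bdPhi i₀ l u v (b i) (J m).1 (J m).2).det =
      (∏ m, ry i₀ v (J m).1 / ry i₀ u (J m).2) * (AA i₀ l b J).det := by
    rw [← Matrix.det_transpose (AA i₀ l b J), ← Matrix.det_mul_row]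
    congr 1
    ext i m
    rw [Matrix.of_apply, Matrix.of_apply, bdPhi_apply, Matrix.transpose_apply]
    rfl
  have hprod : 0 ≤ ∏ m, ry i₀ v (J m).1 / ry i₀ u (J m).2 :=
    Finset.prod_nonneg fun m _ => (div_pos (ry_pos i₀ v _) (ry_pos i₀ u _)).le
  rw [← abs_of_nonneg hprod, ← abs_mul, ← hdet]
  have hcard : (Fintype.card (Fin n × Fin n) : ℝ) * B =
      (n : ℝ) ^ 2 * n.factorial * Real.exp ((n + 1) * η * R) := by
    rw [Fintype.card_prod, Fintype.card_fin, hB]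
    push_cast
    ring
  rw [hcard] at hJ
  exact hJ

theorem le_max' (hu : 0 ≤ u) (hv : 0 ≤ v) (r q q' : Fin n) (hq' : q' ≠ i₀) :
    ry i₀ v r / ry i₀ u q ≤ ry i₀ v i₀ / ry i₀ u q' := by
  have hn : 1 ≤ n := by
    have := i₀.isLt
    omega
  have hn1 : (0 : ℝ) ≤ (n : ℝ) - 1 := by
    have : (1 : ℝ) ≤ n := by exact_mod_cast hn
    linarith
  have h1 : ry i₀ v r ≤ ry i₀ v i₀ := by
    unfold ry
    rw [if_pos rfl]
    split_ifs with hr
    · exact le_rfl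
    · apply Real.exp_le_exp.2
      nlinarith
  have h2 : ry i₀ u q' ≤ ry i₀ u q := by
    unfold ry
    rw [if_neg hq']
    split_ifs with hr
    · apply Real.exp_le_exp.2
      nlinarith
    · exact le_rfl
  exact div_le_div₀ (ry_pos i₀ v i₀).le h1 (ry_pos i₀ u q') h2

end Pool.Agent.Work.MP_77d073_nt.Alg
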