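import Mathlib

/-!
# MP_77d073_nt/Alg, Exch (size S-M): the exchange property, and a basis of an integer hyperplane

PROOFS.  `exch`: `G = (Ψ i (J m))` is invertible; the column `q` is `∑_m c_m G_{·m}` with `c = G⁻¹ Ψ_{·q} ≠ 0`; if `c m ≠ 0`, then the matrix with the column `m` replaced by the column `q` has the determinant
`c_m det G` (`Matrix.cramer`: `cramer G b m = (G.updateCol m b).det`, `Matrix.cramer_eq_adjugate_mulVec`, `G.adjugate.mulVec b = det G • G⁻¹.mulVec b`).
`orthB`: the kernel `N` of the `ℤ`-linear map `x ↦ ∑ c_j x_j` is a free `ℤ`-module of rank `d` (`Submodule.basisOfPid`, or `Module.finBasis ℤ N` after `Module.finrank ℤ N = d`: rank-nullity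
`LinearMap.finrank_range_add_finrank_ker` over the domain `ℤ`, the range of the map is a nonzero ideal of `ℤ`, so free of rank `1`).  `e` = the basis, seen in `Fin (d+1) → ℤ`.
-/

set_option autoImplicit false

namespace Pool.Agent.Work.MP_77d073_nt.Alg

theorem exch {d : ℕ} {κ : Type} (Ψ : Fin d → κ → ℝ) (J : Fin d → κ)
    (hJ : (Matrix.of fun i m => Ψ i (J m)).det ≠ 0) (q : κ) (hq : ∃ i, Ψ i q ≠ 0) :
    ∃ m, (Matrix.of fun i m' => Ψ i (Function.update J m q m')).det ≠ 0 := by
  by_contra hcon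
  push Not at hcon
  obtain ⟨i, hi⟩ := hq
  have h1 : ∀ m, (Matrix.of fun i m' => Ψ i (Function.update J m q m')) =
      (Matrix.of fun i m => Ψ i (J m)).updateCol m (fun i => Ψ i q) := by
    intro m
    ext a b
    rw [Matrix.updateCol_apply]
    by_cases hb : b = m
    · rw [if_pos hb, hb]
      show Ψ a (Function.update J m q m) = Ψ a q
      rw [Function.update_self]
    · rw [if_neg hb]
      show Ψ a (Function.update J m q b) = Ψ a (J b)
      rw [Function.update_of_ne hb]
  have h2 : Matrix.cramer (Matrix.of fun i m => Ψ i (J m)) (fun i => Ψ i q) = 0 := by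
    funext m
    rw [Matrix.cramer_apply, ← h1 m]
    exact hcon m
  have h3 := Matrix.mulVec_cramer (Matrix.of fun i m => Ψ i (J m)) (fun i => Ψ i q)
  rw [h2, Matrix.mulVec_zero] at h3
  have h4 := congrFun h3 i
  rw [Pi.zero_apply, Pi.smul_apply, smul_eq_mul] at h4
  rcases mul_eq_zero.1 h4.symm with h5 | h5
  · exact hJ h5
  · exact hi h5

theorem orthB {d : ℕ} (c : Fin (d + 1) → ℤ) (hc : c ≠ 0) :
    ∃ e : Fin d → (Fin (d + 1) → ℤ), LinearIndependent ℤ e ∧
      ∀ x : Fin (d + 1) → ℤ, ∑ j, c j * x j = 0 → ∃ y : Fin d → ℤ, x = ∑ m, y m • e m := by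
  obtain ⟨φ, hφ⟩ : ∃ φ : (Fin (d + 1) → ℤ) →ₗ[ℤ] ℤ, ∀ x, φ x = ∑ j, c j * x j := by
    refine ⟨∑ j, (c j) • (LinearMap.proj j : (Fin (d + 1) → ℤ) →ₗ[ℤ] ℤ), fun x => ?_⟩
    rw [LinearMap.sum_apply]
    rfl
  have hr : Module.finrank ℤ (LinearMap.range φ) = 1 := by
    have h1 : Module.finrank ℤ (LinearMap.range φ) ≤ 1 := by
      have h2 := Submodule.finrank_le (LinearMap.range φ)
      rwa [Module.finrank_self] at h2
    have h2 : Module.finrank ℤ (LinearMap.range φ) ≠ 0 := by
      intro h3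
      obtain ⟨j, hj⟩ := Function.ne_iff.1 hc
      rw [Pi.zero_apply] at hj
      have h4 : φ (Pi.single j 1) = c j := by
        rw [hφ, Finset.sum_eq_single j]
        · rw [Pi.single_eq_same, mul_one]
        · intro b _ hb
          rw [Pi.single_eq_of_ne hb, mul_zero]
        · intro h5
          exact absurd (Finset.mem_univ j) h5
      have h5 : LinearMap.range φ = ⊥ := Submodule.finrank_eq_zero.1 h3
      have h6 : c j ∈ LinearMap.range φ := ⟨_, h4⟩
      rw [h5, Submodule.mem_bot] at h6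
      exact hj h6
    omega
  have hk : Module.finrank ℤ (LinearMap.ker φ) = d := by
    have h1 := LinearMap.rank_range_add_rank_ker φ
    rw [← Module.finrank_eq_rank ℤ (LinearMap.range φ),
      ← Module.finrank_eq_rank ℤ (LinearMap.ker φ), ← Module.finrank_eq_rank ℤ (Fin (d + 1) → ℤ),
      hr, Module.finrank_fin_fun] at h1
    have h2 : 1 + Module.finrank ℤ (LinearMap.ker φ) = d + 1 := by exact_mod_cast h1
    omega
  have b : Module.Basis (Fin d) ℤ (LinearMap.ker φ) := Module.finBasisOfFinrankEq ℤ _ hk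
  refine ⟨fun m => (b m : Fin (d + 1) → ℤ), ?_, fun x hx => ?_⟩
  · exact b.linearIndependent.map' (LinearMap.ker φ).subtype (Submodule.ker_subtype _)
  · have hx' : x ∈ LinearMap.ker φ := by
      rw [LinearMap.mem_ker, hφ]
      exact hx
    refine ⟨fun m => b.repr ⟨x, hx'⟩ m, ?_⟩
    have h1 := b.sum_repr ⟨x, hx'⟩
    have h2 := congrArg (fun z : LinearMap.ker φ => (z : Fin (d + 1) → ℤ)) h1
    simp only [Submodule.coe_sum, Submodule.coe_smul] at h2
    exact h2.symm

end Pool.Agent.Work.MP_77d073_nt.Alg
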