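import Mathlib
import Pool.Agent.Work.MP_77d073_nt.Alg.Bd
import Pool.Agent.Work.MP_77d073_nt.Alg.Exch

/-!
# MP_77d073_nt/Alg, Step (size M-L): the small product

PROOF.  `c = n * n!`.  Not proportional: by `YY_row` there is `q ≠ i₀` with `YY P i₀ q ≠ 0`, so by `YY_sum` some `YY (b j) i₀ q ≠ 0`.  `J` from `bdJ` (`det (AA b J) ≠ 0`).
If `J m₁ = (i₀, q)` for some `m₁`, let `J' = J`; otherwise `exch` (`Ψ j p = YY (b j) p.1 p.2`, transpose) gives `m₁` with `det (AA b J') ≠ 0`, `J' = update J m₁ (i₀, q)`.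
By `le_max'` `∏ (ry v / ry u)` over `J'` is at least the product over `J`.  So `1 ≤ (n^2 n! exp ((n+1) η R))^d * Π' * |det (AA b J)|`, `Π' = ∏_m ry v (J' m).1 / ry u (J' m).2`.
The `m`-th component of `(AA b J') x` is `YY P (J' m)` (`YY_sum`).  `bdA` for `m ≠ m₁`, `bdB` for `m = m₁`: `Π' * ∏_m |YY P (J' m)| ≤ c^d exp (((n+1)(d-1) + n) η R - δ R) ≤ c^d exp ((n+1) d η R - δ R)`.  So
`∏_m |..| ≤ c^d (n^2 n!)^d |det (AA b J)| exp (2 (n+1) d η R - δ R)`, and `d ≤ n^2` (rank), `2 (n+1) d η ≤ 4 n^3 η ≤ δ/4`.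
Size of `x`: `x = (AA b J')⁻¹ (YY P (J' m))_m`, and by `bdA`, `|YY P r q| ≤ c exp ((n+1) η R) ry u q / ry v r ≤ c exp ((n+1) η R + (n-1) u + v) ≤ c exp (2 n R)` (`(n+1) η ≤ n`).
`C` = the maximum over the finitely many `J` (`Fin d → Fin n × Fin n`) of `1`, `c^d (n^2 n!)^d |det (AA b J)|`, `d c max |(AA b J)⁻¹|` (sum of all of them over `J` is simplest).
-/

set_option autoImplicit false

namespace Pool.Agent.Work.MP_77d073_nt.Alg

open Pool.Agent.Work.MP_77d073_nt Pool.Agent.Work.MP_77d073_nt.Gap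

theorem step {n : ℕ} (i₀ : Fin n) (l : Fin n → ℝ) (hl : l i₀ = 1) {δ η : ℝ}
    (hδ : 0 < δ) (hδ1 : δ ≤ 1) (hη0 : 0 ≤ η) (hη : 16 * (n : ℝ) ^ 3 * η ≤ δ) {d : ℕ}
    (b : Fin d → Matrix (Fin n) (Fin n) ℤ) (hb : LinearIndependent ℤ b) :
    ∃ C : ℝ, 1 ≤ C ∧ ∀ (R u v : ℝ) (M M' : Matrix (Fin n) (Fin n) ℤ) (θ : ℝ),
      NR i₀ l η δ R u v M M' θ → ¬ Prp l M M' → ∀ x : Fin d → ℤ, (∑ j, x j • b j) * M = M' →
      ∃ J : Fin d → Fin n × Fin n, (AA i₀ l b J).det ≠ 0 ∧
        ∏ m, |∑ j, AA i₀ l b J m j * (x j : ℝ)| ≤ C * Real.exp (-(3 / 4 * δ * R)) ∧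
        ∀ j, |(x j : ℝ)| ≤ C * Real.exp (2 * n * R) := by
  classical
  have hn1 : 1 ≤ n := Nat.one_le_of_lt i₀.isLt
  have hn1R : (1 : ℝ) ≤ n := by exact_mod_cast hn1
  have hn3 : (n : ℝ) ≤ (n : ℝ) ^ 3 := by
    have : (n : ℝ) ^ 1 ≤ (n : ℝ) ^ 3 := pow_le_pow_right₀ hn1R (by norm_num)
    simpa using this
  -- the rank
  have hd : d ≤ n * n := by
    have h1 := hb.fintype_card_le_finrank
    rw [Fintype.card_fin, Module.finrank_matrix] at h1
    simpa using h1
  have hdR : (d : ℝ) ≤ (n : ℝ) ^ 2 := by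
    have : (d : ℝ) ≤ ((n * n : ℕ) : ℝ) := by exact_mod_cast hd
    rw [pow_two]
    push_cast at this
    exact this
  set c : ℝ := (n : ℝ) * (n.factorial : ℝ) with hcdef
  have hc0 : 0 ≤ c := by positivity
  set K1 : ℝ := ((n : ℝ) ^ 2 * n.factorial) ^ d * c ^ d with hK1
  have hK10 : 0 ≤ K1 := by positivity
  set F : (Fin d → Fin n × Fin n) → ℝ := fun J =>
    K1 * |(AA i₀ l b J).det| + ∑ j, ∑ m, |(AA i₀ l b J)⁻¹ j m| * c with hF
  have hFa : ∀ J, 0 ≤ K1 * |(AA i₀ l b J).det| := fun J => by positivity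
  have hFb : ∀ J, ∀ j, 0 ≤ ∑ m, |(AA i₀ l b J)⁻¹ j m| * c := fun J j =>
    Finset.sum_nonneg fun m _ => by positivity
  have hF0 : ∀ J, 0 ≤ F J := fun J =>
    add_nonneg (hFa J) (Finset.sum_nonneg fun j _ => hFb J j)
  set C : ℝ := 1 + ∑ J, F J with hC
  have hC1 : 1 ≤ C := by
    have : 0 ≤ ∑ J, F J := Finset.sum_nonneg fun J _ => hF0 J
    linarith
  have hFC : ∀ J, F J ≤ C := by
    intro J
    have : F J ≤ ∑ J, F J := Finset.single_le_sum (fun J _ => hF0 J) (Finset.mem_univ J)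
    linarith
  refine ⟨C, hC1, ?_⟩
  intro R u v M M' θ h hnp x hx
  have hR0 : 0 ≤ R := h.u0.trans h.uR
  have hηR : 0 ≤ η * R := mul_nonneg hη0 hR0
  set P : Matrix (Fin n) (Fin n) ℤ := ∑ j, x j • b j with hP
  -- a coordinate
  obtain ⟨q, hq, hPq⟩ : ∃ q, q ≠ i₀ ∧ YY i₀ l P i₀ q ≠ 0 := by
    by_contra hcon
    push Not at hcon
    exact hnp (YY_row i₀ l hl hx hcon)
  obtain ⟨j₀, hj₀⟩ : ∃ j, YY i₀ l (b j) i₀ q ≠ 0 := by
    by_contra hcon
    push Not at hcon
    apply hPq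
    rw [hP, YY_sum]
    exact Finset.sum_eq_zero fun j _ => by rw [hcon j, zero_mul]
  obtain ⟨J, hJ⟩ := bdJ hl hη0 h b hb
  have hJdet : (AA i₀ l b J).det ≠ 0 := by
    intro h0
    rw [h0, abs_zero, mul_zero, mul_zero] at hJ
    linarith
  -- exchange
  have hT : ∀ J : Fin d → Fin n × Fin n, (Matrix.of fun (i : Fin d) (m : Fin d) =>
      (fun (j : Fin d) (p : Fin n × Fin n) => YY i₀ l (b j) p.1 p.2) i (J m)).det =
      (AA i₀ l b J).det := by
    intro J
    rw [← Matrix.det_transpose]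
    rfl
  obtain ⟨m₁, hm₁⟩ := exch (fun (j : Fin d) (p : Fin n × Fin n) => YY i₀ l (b j) p.1 p.2) J
    (by rw [hT]; exact hJdet) (i₀, q) ⟨j₀, hj₀⟩
  set J' : Fin d → Fin n × Fin n := Function.update J m₁ (i₀, q) with hJ'
  rw [hT] at hm₁
  have hJ'1 : J' m₁ = (i₀, q) := Function.update_self _ _ _
  have hpos : ∀ (J : Fin d → Fin n × Fin n) (m : Fin d),
      0 < ry i₀ v (J m).1 / ry i₀ u (J m).2 := fun J m => div_pos (ry_pos _ _ _) (ry_pos _ _ _)
  have hprod : ∏ m, ry i₀ v (J m).1 / ry i₀ u (J m).2 ≤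
      ∏ m, ry i₀ v (J' m).1 / ry i₀ u (J' m).2 := by
    refine Finset.prod_le_prod (fun m _ => (hpos J m).le) fun m _ => ?_
    by_cases hm : m = m₁
    · rw [hm, hJ'1]
      exact le_max' h.u0 h.v0 _ _ _ hq
    · rw [hJ', Function.update_of_ne hm]
  set y : Fin d → ℝ := fun m => YY i₀ l P (J' m).1 (J' m).2 with hy
  have hyA : ∀ m, ∑ j, AA i₀ l b J' m j * (x j : ℝ) = y m := by
    intro m
    rw [hy]
    simp only
    rw [hP, YY_sum]
    rfl
  set a : ℝ := c * Real.exp ((n + 1) * η * R) with ha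
  have ha0 : 0 ≤ a := by positivity
  set ρ : Fin d → ℝ := fun m => ry i₀ v (J' m).1 / ry i₀ u (J' m).2 with hρ
  have hρ0 : ∀ m, 0 < ρ m := hpos J'
  have hbA : ∀ m, ρ m * |y m| ≤ a := fun m => bdA hl hη0 h hx _ _
  have hbB : ρ m₁ * |y m₁| ≤ a * Real.exp (-(δ * R)) := by
    have h1 := bdB hl hη0 h hx q hq
    have h2 : ρ m₁ * |y m₁| = ry i₀ v i₀ / ry i₀ u q * |YY i₀ l P i₀ q| := by
      simp only [hρ, hy, hJ'1]
    rw [h2]
    refine h1.trans ?_
    have h3 : a * Real.exp (-(δ * R)) = c * Real.exp ((n + 1) * η * R + -(δ * R)) := by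
      rw [ha, mul_assoc, ← Real.exp_add]
    rw [h3]
    refine mul_le_mul_of_nonneg_left (Real.exp_le_exp.2 ?_) hc0
    nlinarith
  have hpr : ∏ m, ρ m * |y m| ≤ a ^ d * Real.exp (-(δ * R)) := by
    have h1 : ∏ m, ρ m * |y m| ≤ ∏ m, a * (if m = m₁ then Real.exp (-(δ * R)) else 1) := by
      refine Finset.prod_le_prod (fun m _ => mul_nonneg (hρ0 m).le (abs_nonneg _)) fun m _ => ?_
      by_cases hm : m = m₁
      · rw [hm, if_pos rfl]
        exact hbB
      · rw [if_neg hm, mul_one]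
        exact hbA m
    refine h1.trans (le_of_eq ?_)
    rw [Finset.prod_mul_distrib, Finset.prod_const, Finset.card_univ, Fintype.card_fin,
      Finset.prod_ite_eq', if_pos (Finset.mem_univ _)]
  refine ⟨J', hm₁, ?_, ?_⟩
  · -- the small product
    have h1 : ∏ m, |∑ j, AA i₀ l b J' m j * (x j : ℝ)| = ∏ m, |y m| :=
      Finset.prod_congr rfl fun m _ => by rw [hyA]
    rw [h1]
    have hy0 : 0 ≤ ∏ m, |y m| := Finset.prod_nonneg fun m _ => abs_nonneg _
    set Q : ℝ := ((n : ℝ) ^ 2 * n.factorial * Real.exp ((n + 1) * η * R)) ^ d with hQ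
    have hQ0 : 0 ≤ Q := by positivity
    have h2 : ∏ m, |y m| ≤ Q * ((∏ m, ρ m) * |(AA i₀ l b J).det|) * ∏ m, |y m| := by
      have h3 : 1 ≤ Q * ((∏ m, ρ m) * |(AA i₀ l b J).det|) := by
        refine hJ.trans (mul_le_mul_of_nonneg_left ?_ hQ0)
        exact mul_le_mul_of_nonneg_right hprod (abs_nonneg _)
      nlinarith
    have h3 : Q * ((∏ m, ρ m) * |(AA i₀ l b J).det|) * ∏ m, |y m| =
        Q * |(AA i₀ l b J).det| * ∏ m, ρ m * |y m| := by
      rw [Finset.prod_mul_distrib]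
      ring
    have h4 : Q * |(AA i₀ l b J).det| * ∏ m, ρ m * |y m| ≤
        Q * |(AA i₀ l b J).det| * (a ^ d * Real.exp (-(δ * R))) :=
      mul_le_mul_of_nonneg_left hpr (by positivity)
    have h5 : Q * |(AA i₀ l b J).det| * (a ^ d * Real.exp (-(δ * R))) =
        K1 * |(AA i₀ l b J).det| * Real.exp (2 * d * (n + 1) * (η * R) - δ * R) := by
      rw [hQ, ha, hK1, mul_pow, mul_pow]
      have h6 : Real.exp (2 * d * (n + 1) * (η * R) - δ * R) =
          Real.exp ((n + 1) * η * R) ^ d * Real.exp ((n + 1) * η * R) ^ d *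
            Real.exp (-(δ * R)) := by
        rw [← Real.exp_nat_mul, ← Real.exp_add, ← Real.exp_add]
        congr 1
        ring
      rw [h6]
      ring
    have h6 : Real.exp (2 * d * (n + 1) * (η * R) - δ * R) ≤ Real.exp (-(3 / 4 * δ * R)) := by
      refine Real.exp_le_exp.2 ?_
      have h7 : 2 * (d : ℝ) * (n + 1) ≤ 4 * (n : ℝ) ^ 3 := by
        have h8 : (n : ℝ) + 1 ≤ 2 * n := by linarith
        have h9 : 2 * (d : ℝ) * (n + 1) ≤ 2 * (n : ℝ) ^ 2 * (2 * n) := by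
          refine mul_le_mul (by linarith) h8 (by positivity) (by positivity)
        nlinarith
      have h8 : 2 * (d : ℝ) * (n + 1) * (η * R) ≤ 4 * (n : ℝ) ^ 3 * (η * R) :=
        mul_le_mul_of_nonneg_right h7 hηR
      have h9 : 4 * (n : ℝ) ^ 3 * (η * R) ≤ δ / 4 * R := by
        have : 4 * (n : ℝ) ^ 3 * (η * R) = (16 * (n : ℝ) ^ 3 * η) * (R / 4) := by ring
        rw [this]
        have h10 : (16 * (n : ℝ) ^ 3 * η) * (R / 4) ≤ δ * (R / 4) :=
          mul_le_mul_of_nonneg_right hη (by positivity)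
        linarith
      linarith
    have h7 : K1 * |(AA i₀ l b J).det| ≤ C := by
      refine le_trans ?_ (hFC J)
      have : 0 ≤ ∑ j, ∑ m, |(AA i₀ l b J)⁻¹ j m| * c := Finset.sum_nonneg fun j _ => hFb J j
      simp only [hF]
      linarith
    calc ∏ m, |y m| ≤ K1 * |(AA i₀ l b J).det| * Real.exp (2 * d * (n + 1) * (η * R) - δ * R) := by
          rw [← h5]
          exact (h2.trans (le_of_eq h3)).trans h4
      _ ≤ C * Real.exp (-(3 / 4 * δ * R)) :=
          mul_le_mul h7 h6 (Real.exp_nonneg _) (by linarith)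
  · -- the size
    intro j
    have hy1 : ∀ m, |y m| ≤ c * Real.exp (2 * n * R) := by
      intro m
      have h1 : |y m| ≤ a * (ρ m)⁻¹ := by
        rw [← div_eq_mul_inv, le_div_iff₀ (hρ0 m), mul_comm]
        exact hbA m
      have h2 : (ρ m)⁻¹ ≤ Real.exp (n * R) := by
        have h3 : ry i₀ u (J' m).2 ≤ Real.exp (((n : ℝ) - 1) * u) := by
          unfold ry
          split_ifs
          · exact le_refl _
          · refine Real.exp_le_exp.2 ?_
            have := mul_nonneg (by linarith : (0 : ℝ) ≤ (n : ℝ) - 1) h.u0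
            linarith [h.u0]
        have h4 : Real.exp (-v) ≤ ry i₀ v (J' m).1 := by
          unfold ry
          split_ifs
          · refine Real.exp_le_exp.2 ?_
            have := mul_nonneg (by linarith : (0 : ℝ) ≤ (n : ℝ) - 1) h.v0
            linarith [h.v0]
          · exact le_refl _
        have h5 : (ρ m)⁻¹ = ry i₀ u (J' m).2 / ry i₀ v (J' m).1 := by
          simp only [hρ, inv_div]
        rw [h5]
        calc ry i₀ u (J' m).2 / ry i₀ v (J' m).1
            ≤ Real.exp (((n : ℝ) - 1) * u) / Real.exp (-v) :=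
              div_le_div₀ (Real.exp_nonneg _) h3 (Real.exp_pos _) h4
          _ = Real.exp (((n : ℝ) - 1) * u + v) := by
              rw [← Real.exp_sub]
              congr 1
              ring
          _ ≤ Real.exp (n * R) := by
              refine Real.exp_le_exp.2 ?_
              have := mul_le_mul_of_nonneg_left h.uR (by linarith : (0 : ℝ) ≤ (n : ℝ) - 1)
              linarith [h.vR]
      have h3 : a * (ρ m)⁻¹ ≤ a * Real.exp (n * R) := mul_le_mul_of_nonneg_left h2 ha0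
      refine (h1.trans h3).trans ?_
      rw [ha, mul_assoc, ← Real.exp_add]
      refine mul_le_mul_of_nonneg_left (Real.exp_le_exp.2 ?_) hc0
      have h4 : ((n : ℝ) + 1) * η ≤ n := by
        have h5 : ((n : ℝ) + 1) * η ≤ 16 * (n : ℝ) ^ 3 * η :=
          mul_le_mul_of_nonneg_right (by linarith) hη0
        linarith
      have h5 : ((n : ℝ) + 1) * η * R ≤ n * R := mul_le_mul_of_nonneg_right h4 hR0
      linarith
    have hxe : (x j : ℝ) = ∑ m, (AA i₀ l b J')⁻¹ j m * y m := by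
      have h1 : (AA i₀ l b J').mulVec (fun j => (x j : ℝ)) = y := by
        funext m
        rw [← hyA m]
        rfl
      have h2 : (AA i₀ l b J')⁻¹.mulVec y = fun j => (x j : ℝ) := by
        rw [← h1, Matrix.mulVec_mulVec, Matrix.nonsing_inv_mul _ (Ne.isUnit hm₁),
          Matrix.one_mulVec]
      exact (congrFun h2 j).symm
    rw [hxe]
    calc |∑ m, (AA i₀ l b J')⁻¹ j m * y m| ≤ ∑ m, |(AA i₀ l b J')⁻¹ j m * y m| :=
          Finset.abs_sum_le_sum_abs _ _
      _ ≤ ∑ m, |(AA i₀ l b J')⁻¹ j m| * c * Real.exp (2 * n * R) := by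
          refine Finset.sum_le_sum fun m _ => ?_
          rw [abs_mul, mul_assoc]
          exact mul_le_mul_of_nonneg_left (hy1 m) (abs_nonneg _)
      _ = (∑ m, |(AA i₀ l b J')⁻¹ j m| * c) * Real.exp (2 * n * R) := by
          rw [Finset.sum_mul]
      _ ≤ C * Real.exp (2 * n * R) := by
          refine mul_le_mul_of_nonneg_right ?_ (Real.exp_nonneg _)
          refine le_trans ?_ (hFC J')
          have h1 : ∑ m, |(AA i₀ l b J')⁻¹ j m| * c ≤ ∑ j, ∑ m, |(AA i₀ l b J')⁻¹ j m| * c :=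
            Finset.single_le_sum (f := fun j => ∑ m, |(AA i₀ l b J')⁻¹ j m| * c)
              (fun j _ => hFb J' j) (Finset.mem_univ j)
          have h2 := hFa J'
          simp only [hF]
          linarith

end Pool.Agent.Work.MP_77d073_nt.Alg
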