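import Mathlib

/-!
# MP_77d073_nt/Alg, Covec (size S-M): rational points of a proper subspace

PROOF.  `U ≠ ⊤`: there is a nonzero `f : Fin d → K` with `∑ f_j x_j = 0` for all `x ∈ U` (a nonzero linear functional on `(Fin d → K) / U`, e.g.
`Submodule.exists_dual_forall_apply_eq_zero_iff` or `Submodule.exists_le_ker_of_lt_top`; `f_j` = its value at `Pi.single j 1`).  Choose `j₀` with `f j₀ ≠ 0` and put
`c'_j = Algebra.trace ℚ K (f_j / f_j₀) : ℚ`; `c'_j₀ = [K : ℚ] ≠ 0`, and for `x : Fin d → ℤ` in `U`: `∑ c'_j x_j = trace ((∑ f_j x_j) / f_j₀) = 0`.  Clear denominators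
(multiply by the product of the denominators).
-/

set_option autoImplicit false

namespace Pool.Agent.Work.MP_77d073_nt.Alg

theorem covec (K : Type) [Field K] [NumberField K] {d : ℕ} (U : Submodule K (Fin d → K)) (hU : U ≠ ⊤) :
    ∃ c : Fin d → ℤ, c ≠ 0 ∧ ∀ x : Fin d → ℤ, (fun j => (x j : K)) ∈ U → ∑ j, c j * x j = 0 := by
  obtain ⟨f, hf0, hfU⟩ := Submodule.exists_le_ker_of_lt_top U (lt_top_iff_ne_top.2 hU)
  have hfx : ∀ x : Fin d → K, f x = ∑ j, x j * f (Pi.single j 1) := by
    intro x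
    have h1 : x = ∑ j, x j • (Pi.single j (1 : K) : Fin d → K) := by
      ext i
      rw [Finset.sum_apply, Finset.sum_eq_single i]
      · simp
      · intro b _ hb
        simp [hb.symm]
      · intro h
        exact absurd (Finset.mem_univ i) h
    conv_lhs => rw [h1]
    rw [map_sum]
    refine Finset.sum_congr rfl (fun j _ => ?_)
    rw [map_smul, smul_eq_mul]
  obtain ⟨j₀, hj₀⟩ : ∃ j, f (Pi.single j 1) ≠ 0 := by
    by_contra hcon
    push Not at hcon
    apply hf0
    ext x
    simp [hcon]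
  set g : Fin d → K := fun j => f (Pi.single j 1) with hg
  set q : Fin d → ℚ := fun j => Algebra.trace ℚ K (g j / g j₀) with hq
  set D : ℕ := ∏ j, (q j).den with hD
  have hD0 : (D : ℚ) ≠ 0 := by
    have : D ≠ 0 := Finset.prod_ne_zero_iff.2 (fun j _ => (q j).den_nz)
    exact_mod_cast this
  have hint : ∀ j, ∃ m : ℤ, (m : ℚ) = (D : ℚ) * q j := by
    intro j
    obtain ⟨e, he⟩ := Finset.dvd_prod_of_mem (fun j => (q j).den) (Finset.mem_univ j)
    refine ⟨(e : ℤ) * (q j).num, ?_⟩
    rw [hD, he]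
    push_cast
    have h1 : ((q j).den : ℚ) * q j = (q j).num := Rat.den_mul_eq_num (q j)
    rw [mul_right_comm, h1, mul_comm]
  choose c hc using hint
  refine ⟨c, ?_, ?_⟩
  · intro h0
    have h1 := hc j₀
    rw [h0] at h1
    have h2 : q j₀ = (Module.finrank ℚ K : ℚ) := by
      simp only [hq]
      rw [div_self hj₀, ← map_one (algebraMap ℚ K), Algebra.trace_algebraMap]
      simp
    rw [h2] at h1
    have h3 : (Module.finrank ℚ K : ℚ) ≠ 0 := by
      have : Module.finrank ℚ K ≠ 0 := (Module.finrank_pos (R := ℚ) (M := K)).ne'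
      exact_mod_cast this
    have h4 := mul_ne_zero hD0 h3
    rw [← h1] at h4
    simp at h4
  · intro x hx
    have h1 : f (fun j => (x j : K)) = 0 := hfU hx
    rw [hfx] at h1
    have h2 : ∑ j, q j * (x j : ℚ) = 0 := by
      have h3 : ∑ j, q j * (x j : ℚ) = Algebra.trace ℚ K ((∑ j, (x j : K) * g j) / g j₀) := by
        rw [Finset.sum_div, map_sum]
        refine Finset.sum_congr rfl (fun j _ => ?_)
        have h4 : (x j : K) * g j / g j₀ = (x j : ℚ) • (g j / g j₀) := by
          rw [Algebra.smul_def, mul_div_assoc]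
          congr 1
          simp
        rw [h4, map_smul, smul_eq_mul, mul_comm]
      rw [h3]
      have h5 : ∑ j, (x j : K) * g j = 0 := h1
      rw [h5, zero_div, map_zero]
    have h3 : ((∑ j, c j * x j : ℤ) : ℚ) = 0 := by
      push_cast
      have h4 : ∑ j, (c j : ℚ) * (x j : ℚ) = (D : ℚ) * ∑ j, q j * (x j : ℚ) := by
        rw [Finset.mul_sum]
        refine Finset.sum_congr rfl (fun j _ => ?_)
        rw [hc, mul_assoc]
      rw [h4, h2, mul_zero]
    exact_mod_cast h3

end Pool.Agent.Work.MP_77d073_nt.Alg
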