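import Mathlib

/-!
# MP_77d073_nt/Alg, GalF (size M): a Galois number field inside `ℂ`

PROOF.  Let `S` be the finite set of the complex numbers `A i j`; they are algebraic over `ℚ` (`IsAlgebraic.algebraMap` / `isAlgebraic_algebraMap_iff`).
`K₀ = IntermediateField.adjoin ℚ S` is finite dimensional (`IntermediateField.finiteDimensional_adjoin`), `K = IntermediateField.normalClosure ℚ K₀ ℂ` is finite dimensional and normal
(`normalClosure.is_finiteDimensional`, `normalClosure.normal`; alternatively `K` = `adjoin` of all complex roots of the minimal polynomials, a splitting field), contains `K₀`.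
Take the type `↥K` with the inclusion `ι = algebraMap K ℂ` (`K.val`).  `a i j = ⟨A i j, _⟩`.  For a ring homomorphism `φ : K →+* ℂ`: it is a `ℚ`-algebra homomorphism (`RingHom.toRatAlgHom` or
`φ.equivRatAlgHom`), and by normality there is `σ : K ≃ₐ[ℚ] K` with `ι (σ x) = φ x` (`AlgHom.restrictNormal'`, `AlgHom.restrictNormal_commutes`; or `Normal` + `AlgHom.fieldRange_of_normal`).
-/

set_option autoImplicit false

namespace Pool.Agent.Work.MP_77d073_nt.Alg

theorem galF {d : ℕ} (A : Fin d → Fin d → ℝ) (halg : ∀ i j, IsAlgebraic ℚ (A i j)) :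
    ∃ (K : Type) (_ : Field K) (_ : NumberField K) (ι : K →+* ℂ) (a : Fin d → Fin d → K),
      (∀ i j, ι (a i j) = ((A i j : ℝ) : ℂ)) ∧
      ∀ φ : K →+* ℂ, ∃ σ : K ≃+* K, ∀ x, ι (σ x) = φ x := by
  classical
  set S : Set ℂ := Set.range fun p : Fin d × Fin d => ((A p.1 p.2 : ℝ) : ℂ) with hSdef
  have hS : ∀ s ∈ S, IsIntegral ℚ s := by
    rintro _ ⟨p, rfl⟩
    have h1 : IsAlgebraic ℚ (algebraMap ℝ ℂ (A p.1 p.2)) := (halg p.1 p.2).algebraMap
    exact h1.isIntegral
  have hfin : Finite S := Set.finite_range _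
  have hfd : FiniteDimensional ℚ (IntermediateField.adjoin ℚ S) :=
    IntermediateField.finiteDimensional_adjoin hS
  set K₀ : IntermediateField ℚ ℂ := IntermediateField.adjoin ℚ S with hK₀
  have halg0 : Algebra.IsAlgebraic ℚ K₀ := Algebra.IsAlgebraic.of_finite ℚ K₀
  have hncl : IsNormalClosure ℚ K₀ (IntermediateField.normalClosure ℚ K₀ ℂ) :=
    Algebra.IsAlgebraic.isNormalClosure_normalClosure
      (fun x => IsAlgClosed.splits _)
  have hfdK : FiniteDimensional ℚ (IntermediateField.normalClosure ℚ K₀ ℂ) :=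
    normalClosure.is_finiteDimensional ℚ K₀ ℂ
  set K : IntermediateField ℚ ℂ := IntermediateField.normalClosure ℚ K₀ ℂ with hK
  have hnorm : Normal ℚ K := hncl.normal
  have hle : K₀ ≤ K := by
    have h1 := K₀.val.fieldRange_le_normalClosure
    rwa [IntermediateField.fieldRange_val] at h1
  have hmem : ∀ i j, ((A i j : ℝ) : ℂ) ∈ K := fun i j =>
    hle (IntermediateField.subset_adjoin ℚ S ⟨(i, j), rfl⟩)
  refine ⟨K, inferInstance, @NumberField.mk _ _ inferInstance hfdK, algebraMap K ℂ,
    fun i j => ⟨((A i j : ℝ) : ℂ), hmem i j⟩, fun i j => rfl, ?_⟩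
  intro φ
  let φ' : K →ₐ[ℚ] ℂ := φ.toRatAlgHom
  refine ⟨(φ'.restrictNormal' K).toRingEquiv, fun x => ?_⟩
  exact φ'.restrictNormal_commutes K x

end Pool.Agent.Work.MP_77d073_nt.Alg
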