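import Mathlib
import Pool.Agent.Work.SUB.Subspace
import Pool.Agent.Work.MP_77d073_nt.Alg.Covec
import Pool.Agent.Work.MP_77d073_nt.Alg.GalF

/-!
# MP_77d073_nt/Alg, SubZ (size M-L): the Subspace theorem for integer points and real algebraic forms

PROOF.  `galF` gives `K`, `ι`, `a`.  Apply `SUB.subspaceR (isSD_nf K ∅) (rothLemma K) hd Aw _ δ hδ` (see the end of `Work/SUB/Subspace`; the places are
`InfinitePlace K ⊕ {p // p ∈ ∅}`, `SUnit.placeAbs K ∅ (Sum.inl w) = w`, `placeMult (Sum.inl w) = w.mult`, the second summand is empty) with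
`Aw (Sum.inl w) = Matrix.of fun i j => σ_w.symm (a i j)`, where `ι (σ_w x) = w.embedding x` (`galF` for `φ = w.embedding`); `det (Aw w) = σ_w.symm (det a) ≠ 0` because `ι (det a) = det A ≠ 0`.
For an integer vector `x`: `(Aw w).mulVec x i = σ_w.symm (∑ a_ij x_j)`, and `w y = ‖w.embedding y‖ = ‖ι (σ_w y)‖` (`InfinitePlace.norm_embedding_eq`), so
`w ((Aw w).mulVec x i) = ‖ι (∑ a_ij x_j)‖ = |∑ A_ij x_j|`.  So the product over the places is `(∏_i |∑_j A_ij x_j|) ^ [K:ℚ]` (`∑ w.mult = [K:ℚ]`: `InfinitePlace.sum_mult_eq`;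
`Finset.prod_pow_eq_pow_sum`).  `nrm w x = max |x_j| =: m_x` for every `w` (`w (x_j : K) = |x_j|`), `1 ≤ m_x ≤ X`, `HR x = m_x ^ [K:ℚ]`, and
`(X ^ (-δ)) ^ [K:ℚ] ≤ (m_x ^ [K:ℚ]) ^ (-δ)`.  `Rv (RT K ∅) x`: integers are in the ring (a subring).  The finitely many subspaces `U ≠ ⊤`: `covec`, `𝒰` = the set of the chosen covectors.
-/

set_option autoImplicit false

namespace Pool.Agent.Work.MP_77d073_nt.Alg

open NumberField IsDedekindDomain in
/-- the matrices at the places -/
private noncomputable def szA (K : Type) [Field K] [NumberField K] {d : ℕ}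
    (σ : InfinitePlace K → K ≃+* K) (a : Fin d → Fin d → K) :
    (InfinitePlace K ⊕ {p : HeightOneSpectrum (𝓞 K) // p ∈ (∅ : Finset (HeightOneSpectrum (𝓞 K)))}) →
      Matrix (Fin d) (Fin d) K
  | Sum.inl w => Matrix.of fun i j => (σ w).symm (a i j)
  | Sum.inr _ => 1

private theorem sz_det {K : Type} [Field K] {d : ℕ} (ι : K →+* ℂ) (a : Fin d → Fin d → K)
    (A : Matrix (Fin d) (Fin d) ℝ) (h : ∀ i j, ι (a i j) = ((A i j : ℝ) : ℂ)) (hA : A.det ≠ 0)
    (σ : K ≃+* K) : (Matrix.of fun i j => σ.symm (a i j)).det ≠ 0 := by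
  have h1 : ι (Matrix.of a).det = ((A.det : ℝ) : ℂ) := by
    have e1 : ι (Matrix.of a).det = (ι.mapMatrix (Matrix.of a)).det := RingHom.map_det ι _
    have e2 : ((A.det : ℝ) : ℂ) = ((Complex.ofRealHom).mapMatrix A).det :=
      RingHom.map_det Complex.ofRealHom A
    rw [e1, e2]
    congr 1
    ext i j
    exact h i j
  have h2 : (Matrix.of a).det ≠ 0 := by
    intro h0
    rw [h0, map_zero] at h1
    exact hA (by exact_mod_cast h1.symm)
  have h3 : (Matrix.of fun i j => σ.symm (a i j)).det = (σ.symm : K →+* K) (Matrix.of a).det := by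
    rw [RingHom.map_det]
    rfl
  rw [h3]
  intro h0
  exact h2 ((map_eq_zero_iff (σ.symm : K →+* K) (RingHom.injective _)).1 h0)

private theorem sz_val {K : Type} [Field K] {d : ℕ} (ι : K →+* ℂ) (a : Fin d → Fin d → K)
    (A : Matrix (Fin d) (Fin d) ℝ) (h : ∀ i j, ι (a i j) = ((A i j : ℝ) : ℂ))
    (σ : K ≃+* K) (w : NumberField.InfinitePlace K) (hσ : ∀ x, ι (σ x) = w.embedding x)
    (x : Fin d → ℤ) (i : Fin d) :
    w ((Matrix.of fun i j => σ.symm (a i j)).mulVec (fun j => (x j : K)) i) =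
      |∑ j, A i j * (x j : ℝ)| := by
  have h1 : (Matrix.of fun i j => σ.symm (a i j)).mulVec (fun j => (x j : K)) i =
      σ.symm (∑ j, a i j * (x j : K)) := by
    rw [map_sum]
    change ∑ j, σ.symm (a i j) * (x j : K) = _
    apply Finset.sum_congr rfl
    intro j _
    rw [map_mul, map_intCast]
  have h2 : ι (∑ j, a i j * (x j : K)) = ((∑ j, A i j * (x j : ℝ) : ℝ) : ℂ) := by
    rw [map_sum]
    push_cast
    apply Finset.sum_congr rfl
    intro j _
    rw [map_mul, map_intCast, h i j]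
  rw [h1, ← NumberField.InfinitePlace.norm_embedding_eq, ← hσ, RingEquiv.apply_symm_apply, h2,
    Complex.norm_real, Real.norm_eq_abs]

private theorem sz_int {K : Type} [Field K] (w : NumberField.InfinitePlace K) (z : ℤ) :
    w (z : K) = |(z : ℝ)| := by
  rw [← NumberField.InfinitePlace.norm_embedding_eq, map_intCast, Complex.norm_intCast]

theorem subZ {d : ℕ} (hd : 2 ≤ d) (A : Matrix (Fin d) (Fin d) ℝ) (hA : A.det ≠ 0)
    (halg : ∀ i j, IsAlgebraic ℚ (A i j)) {δ : ℝ} (hδ : 0 < δ) :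
    ∃ 𝒰 : Set (Fin d → ℤ), 𝒰.Finite ∧ (∀ c ∈ 𝒰, c ≠ 0) ∧ ∀ (x : Fin d → ℤ) (X : ℝ), x ≠ 0 →
      (∀ j, |(x j : ℝ)| ≤ X) → ∏ i, |∑ j, A i j * (x j : ℝ)| ≤ X ^ (-δ) →
      ∃ c ∈ 𝒰, ∑ j, c j * x j = 0 := by
  classical
  obtain ⟨K, _, _, ι, a, ha, hφ⟩ := galF A halg
  choose σ hσ using fun w : NumberField.InfinitePlace K => hφ w.embedding
  obtain ⟨𝒰, hfin, htop, hsub⟩ := SUB.subspaceR
    (SUB.isSD_nf K (∅ : Finset (IsDedekindDomain.HeightOneSpectrum (NumberField.RingOfIntegers K))))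
    (SUB.rothLemma K) hd (szA K σ a) (by
      rintro (w | p)
      · exact sz_det ι a A ha hA (σ w)
      · exact absurd p.2 (Finset.notMem_empty _)) δ hδ
  have hc : ∀ U : Submodule K (Fin d → K), ∃ c : Fin d → ℤ, U ≠ ⊤ →
      (c ≠ 0 ∧ ∀ x : Fin d → ℤ, (fun j => (x j : K)) ∈ U → ∑ j, c j * x j = 0) := by
    intro U
    by_cases hU : U = ⊤
    · exact ⟨0, fun h => absurd hU h⟩
    · obtain ⟨c, hc1, hc2⟩ := covec K U hU
      exact ⟨c, fun _ => ⟨hc1, hc2⟩⟩
  choose c hc using hc
  refine ⟨c '' 𝒰, hfin.image c, ?_, ?_⟩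
  · rintro _ ⟨U, hU, rfl⟩
    exact (hc U (htop U hU)).1
  · intro x X hx hX hprod
    have : Nonempty (Fin d) := ⟨⟨0, by omega⟩⟩
    obtain ⟨U, hU, hxU⟩ := hsub (fun j => (x j : K)) ⟨by
      intro h0
      apply hx
      funext j
      have h1 : (x j : K) = 0 := congrFun h0 j
      exact Int.cast_eq_zero.1 h1, fun i => intCast_mem _ _⟩ (by
      -- the height
      set mx : ℝ := ⨆ j, |(x j : ℝ)| with hmx
      have hbdd : BddAbove (Set.range fun j => |(x j : ℝ)|) := Set.finite_range _ |>.bddAbove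
      have hmx1 : 1 ≤ mx := by
        obtain ⟨j, hj⟩ : ∃ j, x j ≠ 0 := by
          by_contra hcon
          push Not at hcon
          exact hx (funext hcon)
        have h1 : (1 : ℤ) ≤ |x j| := Int.one_le_abs hj
        have h2 : (1 : ℝ) ≤ |(x j : ℝ)| := by exact_mod_cast h1
        exact h2.trans (le_ciSup hbdd j)
      have hmxX : mx ≤ X := ciSup_le hX
      have hmx0 : 0 < mx := by linarith
      set D : ℕ := Module.finrank ℚ K with hD
      have hH : SUB.HR (SUnit.placeAbs K ∅) (SUnit.placeMult K ∅) (fun j => (x j : K)) = mx ^ D := by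
        unfold SUB.HR
        rw [Fintype.prod_sum_type]
        have e1 : ∏ p : {p : IsDedekindDomain.HeightOneSpectrum (NumberField.RingOfIntegers K) //
            p ∈ (∅ : Finset (IsDedekindDomain.HeightOneSpectrum (NumberField.RingOfIntegers K)))},
            SUB.nrm (SUnit.placeAbs K ∅ (Sum.inr p)) (fun j => (x j : K)) ^
              SUnit.placeMult K ∅ (Sum.inr p) = 1 :=
          Finset.prod_eq_one fun p _ => absurd p.2 (Finset.notMem_empty _)
        rw [e1, mul_one]
        have e2 : ∀ w : NumberField.InfinitePlace K,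
            SUB.nrm (SUnit.placeAbs K ∅ (Sum.inl w)) (fun j => (x j : K)) ^
              SUnit.placeMult K ∅ (Sum.inl w) = mx ^ w.mult := by
          intro w
          have e3 : SUB.nrm (SUnit.placeAbs K ∅ (Sum.inl w)) (fun j => (x j : K)) = mx := by
            unfold SUB.nrm
            rw [hmx]
            congr 1
            funext j
            exact sz_int w (x j)
          rw [e3]
          rfl
        rw [Finset.prod_congr rfl fun w _ => e2 w, Finset.prod_pow_eq_pow_sum,
          NumberField.InfinitePlace.sum_mult_eq]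
      have hL : ∏ w, ∏ i, SUnit.placeAbs K ∅ w ((szA K σ a w).mulVec (fun j => (x j : K)) i) ^
          SUnit.placeMult K ∅ w = (∏ i, |∑ j, A i j * (x j : ℝ)|) ^ D := by
        rw [Fintype.prod_sum_type]
        have e1 : ∏ p : {p : IsDedekindDomain.HeightOneSpectrum (NumberField.RingOfIntegers K) //
            p ∈ (∅ : Finset (IsDedekindDomain.HeightOneSpectrum (NumberField.RingOfIntegers K)))},
            ∏ i, SUnit.placeAbs K ∅ (Sum.inr p)
              ((szA K σ a (Sum.inr p)).mulVec (fun j => (x j : K)) i) ^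
              SUnit.placeMult K ∅ (Sum.inr p) = 1 :=
          Finset.prod_eq_one fun p _ => absurd p.2 (Finset.notMem_empty _)
        rw [e1, mul_one]
        have e2 : ∀ w : NumberField.InfinitePlace K,
            ∏ i, SUnit.placeAbs K ∅ (Sum.inl w)
              ((szA K σ a (Sum.inl w)).mulVec (fun j => (x j : K)) i) ^
              SUnit.placeMult K ∅ (Sum.inl w) = (∏ i, |∑ j, A i j * (x j : ℝ)|) ^ w.mult := by
          intro w
          rw [← Finset.prod_pow]
          apply Finset.prod_congr rfl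
          intro i _
          have e3 : SUnit.placeAbs K ∅ (Sum.inl w)
              ((szA K σ a (Sum.inl w)).mulVec (fun j => (x j : K)) i) =
              |∑ j, A i j * (x j : ℝ)| := sz_val ι a A ha (σ w) w (hσ w) x i
          rw [e3]
          rfl
        rw [Finset.prod_congr rfl fun w _ => e2 w, Finset.prod_pow_eq_pow_sum,
          NumberField.InfinitePlace.sum_mult_eq]
      rw [hH, hL]
      have h1 : ∏ i, |∑ j, A i j * (x j : ℝ)| ≤ mx ^ (-δ) :=
        hprod.trans (Real.rpow_le_rpow_of_nonpos hmx0 hmxX (by linarith))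
      have h2 : (mx ^ D) ^ (-δ) = (mx ^ (-δ)) ^ D := by
        rw [← Real.rpow_natCast, ← Real.rpow_natCast, ← Real.rpow_mul hmx0.le,
          ← Real.rpow_mul hmx0.le, mul_comm]
      rw [h2]
      exact pow_le_pow_left₀ (Finset.prod_nonneg fun i _ => abs_nonneg _) h1 D)
    exact ⟨c U, ⟨U, hU, rfl⟩, (hc U (htop U hU)).2 x hxU⟩

end Pool.Agent.Work.MP_77d073_nt.Alg
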