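import Mathlib
import Pool.Agent.Work.MP_77d073_nt.Alg.Step
import Pool.Agent.Work.MP_77d073_nt.Alg.SubZ

/-!
# MP_77d073_nt/Alg, KT (size M): near returns are exact

PROOF.  Induction on `d`: for every `ℤ`-independent `b : Fin d → Matrix` there is `R₀` such that for `R ≥ R₀` no near return which is not proportional satisfies `(∑ x_j b_j) M = M'` for an integer `x`.
`d = 0`: the sum is `0`, `M' = 0` has no unit determinant (`n ≥ 1` because of `i₀`).
`d = 1`: `step`: `|AA x_0| ≤ C exp (- 3/4 δ R)` with `AA ≠ 0` (`1 × 1`), `x_0 ≠ 0`, so the left side is at least the minimum of the nonzero `|AA b J|` over the finitely many `J`: impossible for large `R`.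
`d ≥ 2` (write `d = d' + 1`): for each `J` with `det (AA b J) ≠ 0` let `𝒰_J` be the finite set of `subZ` for `AA b J` (entries algebraic: `YY_alg`) and the exponent `δ' = δ / (8 n)`; for each `c ∈ 𝒰_J` let `e` be the basis of `orthB`,
`b'_m = ∑_j (e m j) b_j` (`ℤ`-independent because `e` and `b` are), and `R₀(J, c)` the constant of `b'` (induction).  Let `R₀` be larger than all of them (finitely many), `≥ 0`, and such that
`C exp (- 3/4 δ R) ≤ (C exp (2 n R)) ^ (- δ')`, i.e. `log C (1 + δ') ≤ (3/4 δ - δ/4) R`.  Given a near return: `x ≠ 0`; `step` gives `J`; `subZ` with `X = C exp (2 n R)` gives `c ∈ 𝒰_J` with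
`∑ c_j x_j = 0`; `x = ∑_m y_m e_m`, so `∑ x_j b_j = ∑_m y_m b'_m`: contradiction to the induction hypothesis.
Final step: `d = n * n`, `b` = the standard basis of the integer matrices (`finProdFinEquiv`), `P = M' M⁻¹` (integer) is an integer combination of it.
-/

set_option autoImplicit false

namespace Pool.Agent.Work.MP_77d073_nt.Alg

open Pool.Agent.Work.MP_77d073_nt Pool.Agent.Work.MP_77d073_nt.Gap

private theorem m_ne {n : ℕ} (i₀ : Fin n) {M : Matrix (Fin n) (Fin n) ℤ} (h : IsUnit M.det) :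
    M ≠ 0 := by
  intro h0
  have : Nonempty (Fin n) := ⟨i₀⟩
  rw [h0, Matrix.det_zero] at h
  exact not_isUnit_zero h

private theorem small_ev {C δ a : ℝ} (hδ : 0 < δ) (ha : 0 < a) :
    ∃ R₀ : ℝ, ∀ R : ℝ, R₀ ≤ R → C * Real.exp (-(3 / 4 * δ * R)) < a := by
  have h1 : Filter.Tendsto (fun R : ℝ => C * Real.exp (-(3 / 4 * δ * R))) Filter.atTop
      (nhds (C * 0)) := by
    refine Filter.Tendsto.const_mul C ?_
    refine Real.tendsto_exp_neg_atTop_nhds_zero.comp ?_
    exact Filter.tendsto_id.const_mul_atTop (by positivity)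
  rw [mul_zero] at h1
  exact Filter.eventually_atTop.1 (h1.eventually (gt_mem_nhds ha))

private theorem pow_ev {n : ℕ} (hn : 0 < n) {C δ : ℝ} (hC : 1 ≤ C) (hδ : 0 < δ) (hδ1 : δ ≤ 1) :
    ∃ R₀ : ℝ, ∀ R : ℝ, R₀ ≤ R →
      C * Real.exp (-(3 / 4 * δ * R)) ≤ (C * Real.exp (2 * n * R)) ^ (-(δ / (8 * n))) := by
  refine ⟨4 * Real.log C / δ, fun R hR => ?_⟩
  have hn' : (1 : ℝ) ≤ n := by exact_mod_cast hn
  have hC0 : 0 < C := lt_of_lt_of_le one_pos hC
  have hX : 0 < C * Real.exp (2 * n * R) := mul_pos hC0 (Real.exp_pos _)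
  have hlog : 0 ≤ Real.log C := Real.log_nonneg hC
  rw [Real.rpow_def_of_pos hX, Real.log_mul hC0.ne' (Real.exp_pos _).ne', Real.log_exp]
  have e1 : C * Real.exp (-(3 / 4 * δ * R)) = Real.exp (Real.log C + -(3 / 4 * δ * R)) := by
    rw [Real.exp_add, Real.exp_log hC0]
  rw [e1]
  apply Real.exp_le_exp.2
  have h1 : 4 * Real.log C ≤ R * δ := (div_le_iff₀ hδ).1 hR
  have h2 : δ / (8 * n) ≤ 1 := by
    rw [div_le_one (by positivity)]
    linarith
  have h3 : (2 * n * R) * -(δ / (8 * n)) = -(δ * R / 4) := by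
    have : (n : ℝ) ≠ 0 := by linarith
    field_simp
    ring
  have h4 : Real.log C * (δ / (8 * n)) ≤ Real.log C * 1 := mul_le_mul_of_nonneg_left h2 hlog
  rw [add_mul, h3]
  nlinarith

private theorem lc_inj {n d : ℕ} {b : Fin d → Matrix (Fin n) (Fin n) ℤ}
    (hb : LinearIndependent ℤ b) : LinearMap.ker (Fintype.linearCombination ℤ b) = ⊥ := by
  rw [LinearMap.ker_eq_bot]
  exact linearIndependent_iff_injective_fintypeLinearCombination.1 hb

private theorem kt_ind {n : ℕ} (i₀ : Fin n) (l : Fin n → ℝ) (hl : l i₀ = 1)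
    (halg : ∀ j, IsAlgebraic ℚ (l j)) {δ η : ℝ} (hδ : 0 < δ) (hδ1 : δ ≤ 1) (hη0 : 0 ≤ η)
    (hη : 16 * (n : ℝ) ^ 3 * η ≤ δ) (d : ℕ) :
    ∀ b : Fin d → Matrix (Fin n) (Fin n) ℤ, LinearIndependent ℤ b →
      ∃ R₀ : ℝ, ∀ R : ℝ, R₀ ≤ R → ∀ (u v : ℝ) (M M' : Matrix (Fin n) (Fin n) ℤ) (θ : ℝ),
        NR i₀ l η δ R u v M M' θ → ¬ Prp l M M' →
          ∀ x : Fin d → ℤ, (∑ j, x j • b j) * M ≠ M' := by
  induction d with
  | zero =>
    intro b _
    refine ⟨0, fun R _ u v M M' θ h _ x hx => ?_⟩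
    rw [Fin.sum_univ_zero, Matrix.zero_mul] at hx
    exact m_ne i₀ h.dM' hx.symm
  | succ d ih =>
    intro b hb
    obtain ⟨C, hC1, hC⟩ := step i₀ l hl hδ hδ1 hη0 hη b hb
    -- the key statement for every J
    have key : ∀ J : Fin (d + 1) → Fin n × Fin n, ∃ R₀ : ℝ, (AA i₀ l b J).det ≠ 0 →
        ∀ R : ℝ, R₀ ≤ R → ∀ (u v : ℝ) (M M' : Matrix (Fin n) (Fin n) ℤ) (θ : ℝ),
        NR i₀ l η δ R u v M M' θ → ¬ Prp l M M' →
          ∀ x : Fin (d + 1) → ℤ, (∑ j, x j • b j) * M = M' →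
          ∏ m, |∑ j, AA i₀ l b J m j * (x j : ℝ)| ≤ C * Real.exp (-(3 / 4 * δ * R)) →
          (∀ j, |(x j : ℝ)| ≤ C * Real.exp (2 * n * R)) → False := by
      intro J
      by_cases hdet : (AA i₀ l b J).det = 0
      · exact ⟨0, fun h => absurd hdet h⟩
      cases d with
      | zero =>
        have ha : 0 < |(AA i₀ l b J).det| := abs_pos.2 hdet
        obtain ⟨R₀, hR₀⟩ := small_ev (C := C) hδ ha
        refine ⟨R₀, fun _ R hR u v M M' θ hNR _ x hx hprod _ => ?_⟩
        have hx0 : x 0 ≠ 0 := by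
          intro h0
          rw [Fin.sum_univ_one, h0, zero_smul, Matrix.zero_mul] at hx
          exact m_ne i₀ hNR.dM' hx.symm
        have h1 : (1 : ℝ) ≤ |(x 0 : ℝ)| := by
          have := Int.one_le_abs hx0
          exact_mod_cast this
        rw [Fin.prod_univ_one, Fin.sum_univ_one, abs_mul] at hprod
        have h2 : (AA i₀ l b J).det = AA i₀ l b J 0 0 := Matrix.det_fin_one _
        have h3 := hR₀ R hR
        rw [h2] at h3
        have h4 : |AA i₀ l b J 0 0| ≤ |AA i₀ l b J 0 0| * |(x 0 : ℝ)| :=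
          le_mul_of_one_le_right (abs_nonneg _) h1
        linarith
      | succ d' =>
        have hn : 0 < n := i₀.pos
        have hδ' : 0 < δ / (8 * n) := by positivity
        obtain ⟨𝒰, hfin, hne, hU⟩ := subZ (by omega) (AA i₀ l b J) hdet
          (fun m j => YY_alg i₀ l halg (b j) (J m).1 (J m).2) hδ'
        have hc : ∀ c : Fin (d' + 1 + 1) → ℤ, ∃ R₁ : ℝ, c ∈ 𝒰 → ∀ R : ℝ, R₁ ≤ R →
            ∀ (u v : ℝ) (M M' : Matrix (Fin n) (Fin n) ℤ) (θ : ℝ),
            NR i₀ l η δ R u v M M' θ → ¬ Prp l M M' →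
            ∀ x : Fin (d' + 1 + 1) → ℤ, ∑ j, c j * x j = 0 → (∑ j, x j • b j) * M ≠ M' := by
          intro c
          by_cases hcU : c ∈ 𝒰
          · obtain ⟨e, he, hex⟩ := orthB c (hne c hcU)
            have hb' : LinearIndependent ℤ (fun m => Fintype.linearCombination ℤ b (e m)) :=
              he.map' (Fintype.linearCombination ℤ b) (lc_inj hb)
            obtain ⟨R₁, hR₁⟩ := ih _ hb'
            refine ⟨R₁, fun _ R hR u v M M' θ hNR hP x hx hxM => ?_⟩
            obtain ⟨y, hy⟩ := hex x hx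
            apply hR₁ R hR u v M M' θ hNR hP y
            have h1 : ∑ m, y m • Fintype.linearCombination ℤ b (e m) = ∑ j, x j • b j := by
              rw [← Fintype.linearCombination_apply ℤ b x, hy, map_sum]
              refine Finset.sum_congr rfl (fun m _ => ?_)
              rw [map_smul]
            rw [h1]
            exact hxM
          · exact ⟨0, fun h => absurd h hcU⟩
        choose Rc hRc using hc
        obtain ⟨R₁, hR₁⟩ := pow_ev hn hC1 hδ hδ1
        obtain ⟨R₂, hR₂⟩ := (hfin.image Rc).bddAbove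
        refine ⟨max R₁ R₂, fun _ R hR u v M M' θ hNR hP x hx hprod hsize => ?_⟩
        have hx0 : x ≠ 0 := by
          intro h0
          rw [h0] at hx
          simp only [Pi.zero_apply, zero_smul, Finset.sum_const_zero, Matrix.zero_mul] at hx
          exact m_ne i₀ hNR.dM' hx.symm
        obtain ⟨c, hcU, hcx⟩ := hU x (C * Real.exp (2 * n * R)) hx0 hsize
          (hprod.trans (hR₁ R ((le_max_left _ _).trans hR)))
        have hRcR : Rc c ≤ R := (hR₂ ⟨c, hcU, rfl⟩).trans ((le_max_right _ _).trans hR)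
        exact hRc c hcU R hRcR u v M M' θ hNR hP x hcx hx
    choose RJ hRJ using key
    refine ⟨∑ J, |RJ J|, fun R hR u v M M' θ hNR hP x hx => ?_⟩
    obtain ⟨J, hdet, hprod, hsize⟩ := hC R u v M M' θ hNR hP x hx
    have h1 : RJ J ≤ R := by
      refine (le_abs_self _).trans (le_trans ?_ hR)
      exact Finset.single_le_sum (f := fun J => |RJ J|) (fun J _ => abs_nonneg _)
        (Finset.mem_univ J)
    exact hRJ J hdet R h1 u v M M' θ hNR hP x hx hprod hsize

theorem kt {n : ℕ} (i₀ : Fin n) (l : Fin n → ℝ) (hl : l i₀ = 1)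
    (halg : ∀ j, IsAlgebraic ℚ (l j)) {δ η : ℝ} (hδ : 0 < δ) (hδ1 : δ ≤ 1) (hη0 : 0 ≤ η)
    (hη : 16 * (n : ℝ) ^ 3 * η ≤ δ) :
    ∃ R₀ : ℝ, ∀ R : ℝ, R₀ ≤ R → ∀ (u v : ℝ) (M M' : Matrix (Fin n) (Fin n) ℤ) (θ : ℝ),
      NR i₀ l η δ R u v M M' θ → Prp l M M' := by
  set B : Module.Basis (Fin (n * n)) ℤ (Matrix (Fin n) (Fin n) ℤ) :=
    (Matrix.stdBasis ℤ (Fin n) (Fin n)).reindex finProdFinEquiv with hB
  obtain ⟨R₀, hR₀⟩ := kt_ind i₀ l hl halg hδ hδ1 hη0 hη (n * n) (fun i => B i)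
    B.linearIndependent
  refine ⟨R₀, fun R hR u v M M' θ hNR => ?_⟩
  by_contra hP
  refine hR₀ R hR u v M M' θ hNR hP (fun j => B.repr (M' * M⁻¹) j) ?_
  rw [B.sum_repr]
  exact Matrix.nonsing_inv_mul_cancel_right M M' hNR.dM

end Pool.Agent.Work.MP_77d073_nt.Alg
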