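import Mathlib
import Pool.Agent.Work.MP_77d073_nt.Alg.Defs

/-!
# MP_77d073_nt/Alg, Refl (size M): a second eigenvector bounds the difference of the times

PROOF.  `k = tr L M t`, `k' = tr L M' t'` (as matrices: entries at most `K` in absolute value, `|det| = D`), inverses at most `K₁` (adjugate; `K₁ = n! (max K 1)^n / D`).  For every coefficient vector `β`:
`c₀ max|β| ≤ max_j |∑_r β_r k_rj| ≤ n K max|β|`, `c₀ = 1 / (n K₁)`; the same for `k'`.
Let `w` be as in the hypothesis: `w = ∑_r a_r L_r ∘ M` (`L`, `M` invertible); subtract `a_{i₀} L_{i₀} ∘ M`: `w' = ∑_{r ≠ i₀} a_r L_r ∘ M` is not `0` (`w` is not a multiple of `L_{i₀} ∘ M`), and `w' P = lam w'`.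
`w' = ∑_{r≠i₀} (a_r / t_r) k_r`, `w' P = ∑_{r ≠ i₀} a_r L_r ∘ M' = ∑_{r≠i₀} (a_r / t'_r) k'_r` (`M P = M'`).  With `1/t_r ∈ [exp (u - ρ), exp (u + ρ)]`, `1/t'_r ∈ [exp (v - ρ), exp (v + ρ)]` (`r ≠ i₀`), `a = max_{r≠i₀} |a_r| > 0`:
`|lam| c₀ exp (u - ρ) a ≤ n K exp (v + ρ) a` and `|lam| n K exp (u + ρ) a ≥ c₀ exp (v - ρ) a`; so `Q⁻¹ exp (v - u - 2ρ) ≤ |lam| ≤ Q exp (v - u + 2 ρ)` with `Q = n K / c₀`.
For `L_{i₀} ∘ M = (1/t_{i₀}) k_{i₀}`: `Q⁻¹ exp (-(n-1)(v-u) - 2(n-1)ρ) ≤ |lam| ≤ Q exp (-(n-1)(v-u) + 2(n-1)ρ)` (`t_{i₀} = ∏_{i≠i₀} t_i⁻¹`).  Comparing the first lower bound with the second upper bound: `n (v - u) ≤ 2 n ρ + 2 log Q`; the second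
lower bound with the first upper bound: `-n (v-u) ≤ 2 n ρ + 2 log Q`.  `C = 2 log Q + 1` (`Q ≥ 1`, `n ≥ 1`).
-/

set_option autoImplicit false

namespace Pool.Agent.Work.MP_77d073_nt.Alg

open Pool.Agent.Work.MP_77d073_nt Pool.Agent.Work.MP_77d073_nt.Gap

private noncomputable def rfK (n : ℕ) (D K : ℝ) : ℝ := (n.factorial : ℝ) * (max K 1) ^ n / D

private theorem rfK_pos (n : ℕ) {D K : ℝ} (hD : 0 < D) : 0 < rfK n D K := by
  unfold rfK
  have : 0 < max K 1 := lt_of_lt_of_le one_pos (le_max_right _ _)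
  positivity

private theorem rf_inv {n : ℕ} {D K : ℝ} (hD : 0 < D) (B : Matrix (Fin n) (Fin n) ℝ)
    (hB : |B.det| = D) (hK : ∀ i j, |B i j| ≤ K) (i j : Fin n) : |B⁻¹ i j| ≤ rfK n D K := by
  have h1 : |B.adjugate i j| ≤ (n.factorial : ℝ) * (max K 1) ^ n := by
    rw [Matrix.adjugate_apply]
    have h2 := Matrix.det_le (A := B.updateRow j (Pi.single i 1)) (abv := AbsoluteValue.abs)
      (x := max K 1) (by
        intro a b
        by_cases ha : a = j
        · subst ha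
          rw [Matrix.updateRow_self]
          by_cases hb : b = i
          · subst hb; simp
          · rw [Pi.single_eq_of_ne hb]; simp
        · rw [Matrix.updateRow_ne ha]
          exact (hK a b).trans (le_max_left _ _))
    simpa using h2
  rw [Matrix.inv_def, Matrix.smul_apply, smul_eq_mul, Ring.inverse_eq_inv', abs_mul, abs_inv, hB]
  unfold rfK
  rw [div_eq_inv_mul]
  exact mul_le_mul_of_nonneg_left h1 (inv_nonneg.2 hD.le)

private theorem rf_det {n : ℕ} {D : ℝ} {L : Fin n → Fin n → ℝ} (hL : |(Matrix.of L).det| = D)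
    {s : Fin n → ℝ} (hs : Pos s) {M : Matrix (Fin n) (Fin n) ℤ} (hM : IsUnit M.det) :
    |(Matrix.of (tr L M s)).det| = D := by
  rw [tr_det, hs.2, one_mul, abs_mul, hL]
  rcases Int.isUnit_iff.1 hM with h | h <;> rw [h] <;> simp

private noncomputable def nrm {n : ℕ} (v : Fin n → ℝ) : ℝ := ∑ j, |v j|

private theorem nrm_nonneg {n : ℕ} (v : Fin n → ℝ) : 0 ≤ nrm v :=
  Finset.sum_nonneg fun _ _ => abs_nonneg _

private theorem nrm_pos {n : ℕ} {v : Fin n → ℝ} (hv : v ≠ 0) : 0 < nrm v := by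
  obtain ⟨j, hj⟩ := Function.ne_iff.1 hv
  exact Finset.sum_pos' (fun _ _ => abs_nonneg _) ⟨j, Finset.mem_univ j, abs_pos.2 hj⟩

private theorem nrm_smul {n : ℕ} (a : ℝ) (v : Fin n → ℝ) : nrm (a • v) = |a| * nrm v := by
  unfold nrm
  rw [Finset.mul_sum]
  exact Finset.sum_congr rfl fun j _ => abs_mul _ _

private theorem nrm_vecMul {n : ℕ} {B : Matrix (Fin n) (Fin n) ℝ} {K : ℝ}
    (hB : ∀ i j, |B i j| ≤ K) (v : Fin n → ℝ) : nrm (Matrix.vecMul v B) ≤ n * K * nrm v := by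
  unfold nrm
  calc ∑ j, |Matrix.vecMul v B j| ≤ ∑ _j : Fin n, ∑ i, |v i| * K := by
        refine Finset.sum_le_sum fun j _ => ?_
        unfold Matrix.vecMul dotProduct
        refine (Finset.abs_sum_le_sum_abs _ _).trans (Finset.sum_le_sum fun i _ => ?_)
        rw [abs_mul]
        exact mul_le_mul_of_nonneg_left (hB i j) (abs_nonneg _)
    _ = n * K * ∑ j, |v j| := by
        rw [Finset.sum_const, Finset.card_univ, Fintype.card_fin, ← Finset.sum_mul, nsmul_eq_mul]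
        ring

private theorem nrm_low {n : ℕ} {D K : ℝ} (hD : 0 < D) {B : Matrix (Fin n) (Fin n) ℝ}
    (hB : |B.det| = D) (hK : ∀ i j, |B i j| ≤ K) (v : Fin n → ℝ) :
    nrm v ≤ n * rfK n D K * nrm (Matrix.vecMul v B) := by
  have hu : IsUnit B.det := by
    rw [isUnit_iff_ne_zero]
    intro h
    rw [h, abs_zero] at hB
    exact hD.ne hB
  have h1 : Matrix.vecMul (Matrix.vecMul v B) B⁻¹ = v := by
    rw [Matrix.vecMul_vecMul, Matrix.mul_nonsing_inv _ hu, Matrix.vecMul_one]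
  have h2 := nrm_vecMul (rf_inv hD B hB hK) (Matrix.vecMul v B)
  rwa [h1] at h2

private theorem tr_eq {n : ℕ} (L : Fin n → Fin n → ℝ) (M : Matrix (Fin n) (Fin n) ℤ)
    {t : Fin n → ℝ} (ht : ∀ i, 0 < t i) (a : Fin n → ℝ) :
    Matrix.vecMul a (Matrix.of L * rI M) =
      Matrix.vecMul (fun r => a r / t r) (Matrix.of (tr L M t)) := by
  funext j
  unfold Matrix.vecMul dotProduct
  refine Finset.sum_congr rfl fun r _ => ?_
  have h1 : (Matrix.of L * rI M) r j = ∑ l, L r l * (M l j : ℝ) := rfl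
  change a r * (Matrix.of L * rI M) r j = (a r / t r) * (t r * ∑ l, L r l * (M l j : ℝ))
  rw [h1]
  have := (ht r).ne'
  field_simp

/-- The logarithmic estimates off the index. -/
private theorem est {n : ℕ} {D K : ℝ} (hn : 1 ≤ n) (hD : 0 < D) (hK : 0 < K)
    {L : Fin n → Fin n → ℝ} (hL : |(Matrix.of L).det| = D) {i₀ : Fin n} {ρ u : ℝ} {t : Fin n → ℝ}
    (ht : Nr i₀ ρ u t) {M : Matrix (Fin n) (Fin n) ℤ} (hM : Red L K t M) {a : Fin n → ℝ}
    (ha : a ≠ 0) (ha0 : a i₀ = 0) :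
    u - ρ + Real.log (nrm a) ≤
      Real.log (n * rfK n D K) + Real.log (nrm (Matrix.vecMul a (Matrix.of L * rI M))) ∧
    Real.log (nrm (Matrix.vecMul a (Matrix.of L * rI M))) ≤
      Real.log (n * K) + u + ρ + Real.log (nrm a) ∧
    0 < nrm (Matrix.vecMul a (Matrix.of L * rI M)) := by
  have hn' : (0 : ℝ) < n := by exact_mod_cast hn
  have hq1 : 0 < (n : ℝ) * rfK n D K := mul_pos hn' (rfK_pos n hD)
  have hq : 0 < (n : ℝ) * K := mul_pos hn' hK
  have hA := nrm_pos ha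
  have htr : ∀ r, r ≠ i₀ → Real.exp (u - ρ) ≤ 1 / t r ∧ 1 / t r ≤ Real.exp (u + ρ) := by
    intro r hr
    have h1 := abs_le.1 (ht.2 r hr)
    have h2 : 1 / t r = Real.exp (-Real.log (t r)) := by
      rw [Real.exp_neg, Real.exp_log (ht.1.1 r), one_div]
    rw [h2, Real.exp_le_exp, Real.exp_le_exp]
    constructor <;> linarith
  have hlow : Real.exp (u - ρ) * nrm a ≤ nrm (fun r => a r / t r) := by
    unfold nrm
    rw [Finset.mul_sum]
    refine Finset.sum_le_sum fun r _ => ?_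
    by_cases hr : r = i₀
    · rw [hr, ha0, abs_zero, mul_zero]
      exact abs_nonneg _
    · change Real.exp (u - ρ) * |a r| ≤ |a r / t r|
      rw [div_eq_mul_one_div, abs_mul, abs_of_pos (one_div_pos.2 (ht.1.1 r)), mul_comm]
      exact mul_le_mul_of_nonneg_left (htr r hr).1 (abs_nonneg _)
  have hup : nrm (fun r => a r / t r) ≤ Real.exp (u + ρ) * nrm a := by
    unfold nrm
    rw [Finset.mul_sum]
    refine Finset.sum_le_sum fun r _ => ?_
    by_cases hr : r = i₀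
    · rw [hr]
      change |a i₀ / t i₀| ≤ Real.exp (u + ρ) * |a i₀|
      rw [ha0, abs_zero, mul_zero, zero_div, abs_zero]
    · change |a r / t r| ≤ Real.exp (u + ρ) * |a r|
      rw [div_eq_mul_one_div, abs_mul, abs_of_pos (one_div_pos.2 (ht.1.1 r)), mul_comm (Real.exp _)]
      exact mul_le_mul_of_nonneg_left (htr r hr).2 (abs_nonneg _)
  have hB := rf_det hL ht.1 hM.1
  have h1 := nrm_low hD hB hM.2 (fun r => a r / t r)
  have h2 := nrm_vecMul (B := Matrix.of (tr L M t)) hM.2 (fun r => a r / t r)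
  rw [← tr_eq L M ht.1.1 a] at h1 h2
  set X := nrm (Matrix.vecMul a (Matrix.of L * rI M)) with hX
  have h3 : Real.exp (u - ρ) * nrm a ≤ (n * rfK n D K) * X := hlow.trans h1
  have h4 : X ≤ (n * K) * (Real.exp (u + ρ) * nrm a) :=
    h2.trans (mul_le_mul_of_nonneg_left hup hq.le)
  have hX0 : 0 < X := by
    by_contra h
    have h5 : X ≤ 0 := not_lt.1 h
    have h6 : 0 < Real.exp (u - ρ) * nrm a := mul_pos (Real.exp_pos _) hA
    have h7 : (n * rfK n D K) * X ≤ 0 := mul_nonpos_of_nonneg_of_nonpos hq1.le h5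
    linarith
  refine ⟨?_, ?_, hX0⟩
  · have h5 := Real.log_le_log (mul_pos (Real.exp_pos _) hA) h3
    rw [Real.log_mul (Real.exp_pos _).ne' hA.ne', Real.log_exp, Real.log_mul hq1.ne' hX0.ne'] at h5
    exact h5
  · have h5 := Real.log_le_log hX0 h4
    rw [Real.log_mul hq.ne' (mul_pos (Real.exp_pos _) hA).ne',
      Real.log_mul (Real.exp_pos _).ne' hA.ne', Real.log_exp] at h5
    linarith

/-- The logarithmic estimates at the index. -/
private theorem est0 {n : ℕ} {D K : ℝ} (hn : 1 ≤ n) (hD : 0 < D) (hK : 0 < K)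
    {L : Fin n → Fin n → ℝ} (hL : |(Matrix.of L).det| = D) (i₀ : Fin n) {t : Fin n → ℝ}
    (ht : Pos t) {M : Matrix (Fin n) (Fin n) ℤ} (hM : Red L K t M) :
    - Real.log (t i₀) ≤
      Real.log (n * rfK n D K) + Real.log (nrm ((Matrix.of L * rI M) i₀)) ∧
    Real.log (nrm ((Matrix.of L * rI M) i₀)) ≤ Real.log (n * K) - Real.log (t i₀) ∧
    0 < nrm ((Matrix.of L * rI M) i₀) := by
  have hn' : (0 : ℝ) < n := by exact_mod_cast hn
  have hq1 : 0 < (n : ℝ) * rfK n D K := mul_pos hn' (rfK_pos n hD)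
  have hq : 0 < (n : ℝ) * K := mul_pos hn' hK
  have ht0 := ht.1 i₀
  have hrow : Matrix.vecMul (Pi.single i₀ (1 : ℝ)) (Matrix.of L * rI M) =
      (Matrix.of L * rI M) i₀ := Matrix.single_one_vecMul _ _
  have hβ : nrm (fun r => (Pi.single i₀ (1 : ℝ) : Fin n → ℝ) r / t r) = 1 / t i₀ := by
    unfold nrm
    rw [Finset.sum_eq_single i₀]
    · beta_reduce
      rw [Pi.single_eq_same, abs_of_pos (one_div_pos.2 ht0)]
    · intro b _ hb
      beta_reduce
      rw [Pi.single_eq_of_ne hb, zero_div, abs_zero]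
    · intro h
      exact absurd (Finset.mem_univ _) h
  have hB := rf_det hL ht hM.1
  have h1 := nrm_low hD hB hM.2 (fun r => (Pi.single i₀ (1 : ℝ) : Fin n → ℝ) r / t r)
  have h2 := nrm_vecMul (B := Matrix.of (tr L M t)) hM.2
    (fun r => (Pi.single i₀ (1 : ℝ) : Fin n → ℝ) r / t r)
  rw [← tr_eq L M ht.1 (Pi.single i₀ (1 : ℝ)), hrow, hβ] at h1 h2
  set X := nrm ((Matrix.of L * rI M) i₀) with hX
  have hp : 0 < 1 / t i₀ := one_div_pos.2 ht0
  have hX0 : 0 < X := by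
    by_contra h
    have h5 : X ≤ 0 := not_lt.1 h
    have h7 : (n * rfK n D K) * X ≤ 0 := mul_nonpos_of_nonneg_of_nonpos hq1.le h5
    linarith
  have hlog : Real.log (1 / t i₀) = - Real.log (t i₀) := by rw [one_div, Real.log_inv]
  refine ⟨?_, ?_, hX0⟩
  · have h5 := Real.log_le_log hp h1
    rw [hlog, Real.log_mul hq1.ne' hX0.ne'] at h5
    exact h5
  · have h5 := Real.log_le_log hX0 h2
    rw [Real.log_mul hq.ne' hp.ne', hlog] at h5
    linarith

theorem refl (n : ℕ) (hn : 1 ≤ n) {D K : ℝ} (hD : 0 < D) (hK : 0 < K) :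
    ∃ C : ℝ, 0 < C ∧ ∀ L : Fin n → Fin n → ℝ, |(Matrix.of L).det| = D →
    ∀ (i₀ : Fin n) (ρ u v : ℝ), 0 ≤ ρ → ∀ (t t' : Fin n → ℝ), Nr i₀ ρ u t → Nr i₀ ρ v t' →
    ∀ (M M' P : Matrix (Fin n) (Fin n) ℤ), Red L K t M → Red L K t' M' → M * P = M' →
    ∀ lam : ℝ, (∀ j, rowMul (rowMul (L i₀) M) P j = lam * rowMul (L i₀) M j) →
    ∀ w : Fin n → ℝ, (∀ j, rowMul w P j = lam * w j) →
      (∀ a : ℝ, w ≠ fun j => a * rowMul (L i₀) M j) → |v - u| ≤ 2 * ρ + C := by
  have hn' : (0 : ℝ) < n := by exact_mod_cast hn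
  refine ⟨2 * |Real.log (n * rfK n D K) + Real.log (n * K)| + 1, by positivity, ?_⟩
  intro L hL i₀ ρ u v hρ t t' ht ht' M M' P hM hM' hMP lam hlam w hw hwn
  set A : Matrix (Fin n) (Fin n) ℝ := Matrix.of L * rI M with hA
  set A' : Matrix (Fin n) (Fin n) ℝ := Matrix.of L * rI M' with hA'
  have hAP : A * rI P = A' := by
    rw [hA, hA', ← hMP, Matrix.mul_assoc]
    congr 1
    ext i j
    rw [Matrix.mul_apply]
    unfold rI
    rw [Matrix.map_apply, Matrix.mul_apply, Int.cast_sum]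
    exact Finset.sum_congr rfl fun k _ => (Int.cast_mul _ _).symm
  have hrm : ∀ (x : Fin n → ℝ) (Y : Matrix (Fin n) (Fin n) ℤ), rowMul x Y = Matrix.vecMul x (rI Y) :=
    fun _ _ => rfl
  have hrow : rowMul (L i₀) M = A i₀ := rfl
  -- `A` is invertible
  have hAu : IsUnit A.det := by
    rw [isUnit_iff_ne_zero]
    intro h
    have h1 := rf_det hL ht.1 hM.1
    rw [tr_det, ht.1.2, one_mul] at h1
    have h2 : A.det = (Matrix.of L).det * (M.det : ℝ) := by
      rw [hA, Matrix.det_mul]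
      congr 1
      exact (Int.cast_det M).symm
    rw [← h2, h, abs_zero] at h1
    exact hD.ne h1
  set b : Fin n → ℝ := Matrix.vecMul w A⁻¹ with hb
  have hbA : Matrix.vecMul b A = w := by
    rw [hb, Matrix.vecMul_vecMul, Matrix.nonsing_inv_mul _ hAu, Matrix.vecMul_one]
  set a : Fin n → ℝ := b - (b i₀) • (Pi.single i₀ (1 : ℝ)) with ha
  have haA : Matrix.vecMul a A = w - (b i₀) • A i₀ := by
    rw [ha, Matrix.sub_vecMul, Matrix.smul_vecMul, hbA, Matrix.single_one_vecMul]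
    rfl
  have ha0 : a i₀ = 0 := by
    rw [ha, Pi.sub_apply, Pi.smul_apply, Pi.single_eq_same, smul_eq_mul, mul_one, sub_self]
  have hane : a ≠ 0 := by
    intro h
    rw [h, Matrix.zero_vecMul] at haA
    apply hwn (b i₀)
    have h1 : w = (b i₀) • A i₀ := (sub_eq_zero.1 haA.symm)
    rw [hrow]
    exact h1
  have hwP : Matrix.vecMul w (rI P) = lam • w := by
    funext j
    exact hw j
  have hrP : Matrix.vecMul (A i₀) (rI P) = lam • A i₀ := by
    funext j
    exact hlam j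
  have hA'a : Matrix.vecMul a A' = lam • Matrix.vecMul a A := by
    rw [← hAP, ← Matrix.vecMul_vecMul, haA, Matrix.sub_vecMul, Matrix.smul_vecMul, hwP, hrP,
      smul_sub, smul_comm]
  have hA'r : A' i₀ = lam • A i₀ := by
    rw [← hrP, ← hAP]
    rfl
  obtain ⟨e1, e2, e3⟩ := est hn hD hK hL ht hM hane ha0
  obtain ⟨e4, e5, e6⟩ := est hn hD hK hL ht' hM' hane ha0
  obtain ⟨g1, g2, g3⟩ := est0 hn hD hK hL i₀ ht.1 hM
  obtain ⟨g4, g5, g6⟩ := est0 hn hD hK hL i₀ ht'.1 hM'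
  rw [← hA] at e1 e2 e3 g1 g2 g3
  rw [← hA', hA'a, nrm_smul] at e4 e5 e6
  rw [← hA', hA'r, nrm_smul] at g4 g5 g6
  have hl0 : 0 < |lam| := by
    rcases (abs_nonneg lam).eq_or_lt with h | h
    · rw [← h, zero_mul] at g6
      exact absurd g6 (lt_irrefl _)
    · exact h
  rw [Real.log_mul hl0.ne' e3.ne'] at e4 e5
  rw [Real.log_mul hl0.ne' g3.ne'] at g4 g5
  -- the coordinate `i₀`
  have hsum : ∀ s : Fin n → ℝ, Pos s → Real.log (s i₀) = - ∑ i ∈ Finset.univ.erase i₀, Real.log (s i) := by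
    intro s hs
    have h1 : ∑ i, Real.log (s i) = 0 := by
      rw [← Real.log_prod (fun i _ => (hs.1 i).ne'), hs.2, Real.log_one]
    rw [← Finset.add_sum_erase _ _ (Finset.mem_univ i₀)] at h1
    linarith
  have hdiff : |(Real.log (t i₀) - Real.log (t' i₀)) + (n - 1) * (v - u)| ≤ (n - 1) * (2 * ρ) := by
    rw [hsum t ht.1, hsum t' ht'.1]
    have h1 : (- ∑ i ∈ Finset.univ.erase i₀, Real.log (t i) -
        - ∑ i ∈ Finset.univ.erase i₀, Real.log (t' i)) + (n - 1) * (v - u) =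
        ∑ i ∈ Finset.univ.erase i₀, ((Real.log (t' i) + v) - (Real.log (t i) + u)) := by
      have h2 : ∑ i ∈ Finset.univ.erase i₀, ((Real.log (t' i) + v) - (Real.log (t i) + u)) =
          ∑ i ∈ Finset.univ.erase i₀, Real.log (t' i) - ∑ i ∈ Finset.univ.erase i₀, Real.log (t i)
            + ∑ _i ∈ Finset.univ.erase i₀, (v - u) := by
        rw [← Finset.sum_sub_distrib, ← Finset.sum_add_distrib]
        exact Finset.sum_congr rfl fun i _ => by ring
      rw [h2, Finset.sum_const, Finset.card_erase_of_mem (Finset.mem_univ _), Finset.card_univ,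
        Fintype.card_fin, nsmul_eq_mul, Nat.cast_sub hn]
      push_cast
      ring
    rw [h1]
    calc |∑ i ∈ Finset.univ.erase i₀, ((Real.log (t' i) + v) - (Real.log (t i) + u))|
        ≤ ∑ i ∈ Finset.univ.erase i₀, |(Real.log (t' i) + v) - (Real.log (t i) + u)| :=
          Finset.abs_sum_le_sum_abs _ _
      _ ≤ ∑ _i ∈ Finset.univ.erase i₀, 2 * ρ := by
          refine Finset.sum_le_sum fun i hi => ?_
          have h3 := abs_le.1 (ht.2 i (Finset.ne_of_mem_erase hi))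
          have h4 := abs_le.1 (ht'.2 i (Finset.ne_of_mem_erase hi))
          rw [abs_le]
          constructor <;> linarith [h3.1, h3.2, h4.1, h4.2]
      _ = (n - 1) * (2 * ρ) := by
          rw [Finset.sum_const, Finset.card_erase_of_mem (Finset.mem_univ _), Finset.card_univ,
            Fintype.card_fin, nsmul_eq_mul, Nat.cast_sub hn]
          push_cast
          ring
  have hd := abs_le.1 hdiff
  set Q := Real.log (n * rfK n D K) + Real.log (n * K) with hQ
  have hQa := le_abs_self Q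
  have hQ0 := abs_nonneg Q
  have hn1 : (1 : ℝ) ≤ n := by exact_mod_cast hn
  have k1 : (n : ℝ) * (v - u) ≤ n * (2 * ρ) + 2 * |Q| := by
    nlinarith [hd.1, hd.2]
  have k2 : (n : ℝ) * (u - v) ≤ n * (2 * ρ) + 2 * |Q| := by
    nlinarith [hd.1, hd.2]
  have k3 : 2 * |Q| ≤ n * (2 * |Q|) := by nlinarith
  rw [abs_le]
  constructor
  · have k4 : (n : ℝ) * (u - v) ≤ n * (2 * ρ + 2 * |Q|) := by linarith
    have k5 := le_of_mul_le_mul_left k4 hn'
    linarith
  · have k4 : (n : ℝ) * (v - u) ≤ n * (2 * ρ + 2 * |Q|) := by linarith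
    have k5 := le_of_mul_le_mul_left k4 hn'
    linarith

end Pool.Agent.Work.MP_77d073_nt.Alg
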