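import Mathlib
import Pool.Agent.Work.MP_77d073_nt.Alg.Defs
import Pool.Agent.Work.MP_77d073_nt.GapGB

/-!
# MP_77d073_nt/Alg, Second (size M): a second eigenvector

PROOFS.  `minIrr`: `r ≠ 0` (as `QI r`, `n ≥ 1`), so `lam` is a root of the characteristic polynomial of `P`, algebraic.  Let `g = minpoly ℚ lam`.  `r ∘ g(P) = g(lam) r = 0`; every column of `g (toQ P)` is a rational
vector orthogonal to `r`, so it is `0` (clear denominators, `QI`).  So `minpoly ℚ (toQ P) ∣ g`, `g` is irreducible and the minimal polynomial is not a unit (`n ≥ 1`): it is associated to `g`, irreducible.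
`second`: `f = minpoly ℚ (toQ P)`, `d₀ = natDegree f`; `f` irreducible (`minIrr`), so by `Gap.deg_dvd` `d₀ < n`, as the characteristic polynomial is not irreducible; `f(lam) = 0` (`r ∘ f(P) = f(lam) r = 0`, `r ≠ 0`).  Let
`x₀ = Pi.single ⟨0, _⟩ 1`.  The rational span of the vectors `P^j x₀`, `j < d₀`, has dimension at most `d₀ < n`; so there is a rational row vector `φ ≠ 0` with `φ P^j x₀ = 0` for `j < d₀`.
Over `ℝ`: `f = (X - lam) g`, `natDegree g = d₀ - 1`, `g` monic.  `w = φ g(P) = ∑_{j<d₀} g_j φ P^j`.  `w P - lam w = φ f(P) = 0`.  `w x₀ = 0` but `a r x₀ ≠ 0` for `a ≠ 0`; so `w = a r` implies `a = 0`, `w = 0`.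
`w ≠ 0`: the rational row vectors `φ P^j`, `j < d₀`, are linearly independent over `ℚ` (if `φ p(P) = 0` with `p ≠ 0`, `deg p < d₀`: `p` and `f` are coprime, `a p + b f = 1`, `φ = φ (a p)(P) = 0`), hence over `ℝ`
(`LinearIndependent.map'`-type lemma, or: a nonzero minor of the rational matrix is nonzero in `ℝ`), and `g_{d₀-1} = 1`.
-/

set_option autoImplicit false

namespace Pool.Agent.Work.MP_77d073_nt.Alg

open Pool.Agent.Work.MP_77d073_nt Pool.Agent.Work.MP_77d073_nt.Gap Polynomial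

private theorem ratZero {n : ℕ} {r : Fin n → ℝ} (hr : QI r) (q : Fin n → ℚ)
    (h : ∑ i, r i * (q i : ℝ) = 0) : q = 0 := by
  by_contra hq
  have hex : ∀ i, ∃ z : ℤ, ((∏ k, ((q k).den : ℚ)) * q i) = (z : ℚ) := by
    intro i
    obtain ⟨c, hc⟩ : (q i).den ∣ ∏ k, (q k).den := Finset.dvd_prod_of_mem _ (Finset.mem_univ i)
    refine ⟨c * (q i).num, ?_⟩
    have h1 : (∏ k, ((q k).den : ℚ)) = ((q i).den : ℚ) * c := by
      rw [← Nat.cast_prod, hc, Nat.cast_mul]
    rw [h1]
    have h2 : ((q i).den : ℚ) * q i = (q i).num := Rat.den_mul_eq_num (q i)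
    push_cast
    calc ((q i).den : ℚ) * c * q i = c * (((q i).den : ℚ) * q i) := by ring
      _ = c * ((q i).num : ℚ) := by rw [h2]
  choose z hz using hex
  have hN : (∏ k, ((q k).den : ℚ)) ≠ 0 :=
    Finset.prod_ne_zero_iff.2 (fun k _ => Nat.cast_ne_zero.2 (q k).den_nz)
  have hz0 : z ≠ 0 := by
    intro h0
    apply hq
    funext i
    have h1 := hz i
    rw [h0, Pi.zero_apply, Int.cast_zero] at h1
    exact (mul_eq_zero.1 h1).resolve_left hN
  apply hr z hz0
  have h3 : ∀ i, ((z i : ℤ) : ℝ) = ((∏ k, ((q k).den : ℚ) : ℚ) : ℝ) * (q i : ℝ) := by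
    intro i
    have h4 := congrArg (fun x : ℚ => (x : ℝ)) (hz i)
    simp only [Rat.cast_mul, Rat.cast_intCast] at h4
    exact h4.symm
  calc ∑ i, r i * (z i : ℝ) = ((∏ k, ((q k).den : ℚ) : ℚ) : ℝ) * ∑ i, r i * (q i : ℝ) := by
        rw [Finset.mul_sum]
        exact Finset.sum_congr rfl (fun i _ => by rw [h3 i]; ring)
    _ = 0 := by rw [h, mul_zero]

private noncomputable def Mr {n : ℕ} :
    Matrix (Fin n) (Fin n) ℚ →ₐ[ℚ] Matrix (Fin n) (Fin n) ℝ :=
  (Algebra.ofId ℚ ℝ).mapMatrix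

private theorem Mr_apply {n : ℕ} (Z : Matrix (Fin n) (Fin n) ℚ) (i j : Fin n) :
    Mr Z i j = (Z i j : ℝ) := rfl

private theorem row_eq {n : ℕ} (w : Fin n → ℝ) (P : Matrix (Fin n) (Fin n) ℤ) (j : Fin n) :
    rowMul w P j = Matrix.vecMul w (Mr (toQ P)) j := by
  unfold rowMul Matrix.vecMul dotProduct
  refine Finset.sum_congr rfl (fun i _ => ?_)
  change w i * ((P i j : ℤ) : ℝ) = w i * ((((P i j : ℤ) : ℚ)) : ℝ)
  rw [Rat.cast_intCast]

private theorem vec_pow {n : ℕ} {r : Fin n → ℝ} {A : Matrix (Fin n) (Fin n) ℝ} {lam : ℝ}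
    (h : Matrix.vecMul r A = lam • r) (k : ℕ) : Matrix.vecMul r (A ^ k) = lam ^ k • r := by
  induction k with
  | zero => rw [pow_zero, pow_zero, Matrix.vecMul_one, one_smul]
  | succ k ih =>
    rw [pow_succ, ← Matrix.vecMul_vecMul, ih, Matrix.smul_vecMul, h, smul_smul, pow_succ]

private theorem vec_aeval {n : ℕ} {r : Fin n → ℝ} {A : Matrix (Fin n) (Fin n) ℝ} {lam : ℝ}
    (h : Matrix.vecMul r A = lam • r) (p : ℝ[X]) :
    Matrix.vecMul r (aeval A p) = p.eval lam • r := by
  induction p using Polynomial.induction_on' with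
  | add p q hp hq => rw [map_add, Matrix.vecMul_add, hp, hq, eval_add, add_smul]
  | monomial k a =>
    rw [aeval_monomial, eval_monomial, ← smul_smul, ← vec_pow h k, ← Algebra.smul_def,
      Matrix.vecMul_smul]

private theorem Mr_aeval {n : ℕ} (Z : Matrix (Fin n) (Fin n) ℚ) (p : ℚ[X]) :
    Mr (aeval Z p) = aeval (Mr Z) (p.map (algebraMap ℚ ℝ)) := by
  rw [aeval_map_algebraMap, ← aeval_algHom_apply]

private theorem r0 {n : ℕ} (hn : 1 ≤ n) {r : Fin n → ℝ} (hr : QI r) : r ⟨0, hn⟩ ≠ 0 := by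
  have h := hr (Pi.single ⟨0, hn⟩ 1) (by
    intro h0
    have h1 := congrFun h0 ⟨0, hn⟩
    rw [Pi.single_eq_same, Pi.zero_apply] at h1
    exact one_ne_zero h1)
  intro h0
  apply h
  refine Finset.sum_eq_zero (fun i _ => ?_)
  by_cases hi : i = ⟨0, hn⟩
  · rw [hi, h0, zero_mul]
  · rw [Pi.single_eq_of_ne hi, Int.cast_zero, mul_zero]

private theorem vm {n : ℕ} {r : Fin n → ℝ} {P : Matrix (Fin n) (Fin n) ℤ}
    {lam : ℝ} (hP : ∀ j, rowMul r P j = lam * r j) :
    Matrix.vecMul r (Mr (toQ P)) = lam • r := by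
  funext j
  rw [← row_eq, hP j, Pi.smul_apply, smul_eq_mul]

/-- The rational matrices killed by `r` are zero. -/
private theorem matZero {n : ℕ} {r : Fin n → ℝ} (hr : QI r) (Z : Matrix (Fin n) (Fin n) ℚ)
    (h : Matrix.vecMul r (Mr Z) = 0) : Z = 0 := by
  ext i j
  have h1 := ratZero hr (fun i => Z i j) (congrFun h j)
  exact congrFun h1 i

private theorem lamInt {n : ℕ} (hn : 1 ≤ n) {r : Fin n → ℝ} (hr : QI r)
    {P : Matrix (Fin n) (Fin n) ℤ} {lam : ℝ} (hP : ∀ j, rowMul r P j = lam * r j) :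
    IsIntegral ℚ lam := by
  refine ⟨(toQ P).charpoly, Matrix.charpoly_monic _, ?_⟩
  have h1 := vec_aeval (vm hP) ((toQ P).charpoly.map (algebraMap ℚ ℝ))
  rw [← Mr_aeval, Matrix.aeval_self_charpoly, map_zero, Matrix.vecMul_zero] at h1
  have h2 := congrFun h1 ⟨0, hn⟩
  rw [Pi.zero_apply, Pi.smul_apply, smul_eq_mul, eval_map] at h2
  exact (mul_eq_zero.1 h2.symm).resolve_right (r0 hn hr)

theorem minIrr {n : ℕ} (hn : 1 ≤ n) {r : Fin n → ℝ} (hr : QI r) {P : Matrix (Fin n) (Fin n) ℤ}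
    {lam : ℝ} (hP : ∀ j, rowMul r P j = lam * r j) : Irreducible (minpoly ℚ (toQ P)) := by
  have hint := lamInt hn hr hP
  have hg : Irreducible (minpoly ℚ lam) := minpoly.irreducible hint
  have h1 := vec_aeval (vm hP) ((minpoly ℚ lam).map (algebraMap ℚ ℝ))
  rw [← Mr_aeval, eval_map_algebraMap, minpoly.aeval, zero_smul] at h1
  have h2 : aeval (toQ P) (minpoly ℚ lam) = 0 := matZero hr _ h1
  obtain ⟨c, hc⟩ := minpoly.dvd ℚ (toQ P) h2
  have : Nonempty (Fin n) := ⟨⟨0, hn⟩⟩
  rcases hg.isUnit_or_isUnit hc with h3 | h3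
  · exact absurd h3 (minpoly.not_isUnit ℚ (toQ P))
  · have h4 : Associated (minpoly ℚ (toQ P)) (minpoly ℚ lam) := by
      obtain ⟨u, hu⟩ := h3
      exact ⟨u, by rw [hc, hu]⟩
    exact h4.irreducible_iff.2 hg

theorem second {n : ℕ} (hn : 1 ≤ n) {r : Fin n → ℝ} (hr : QI r) {P : Matrix (Fin n) (Fin n) ℤ}
    {lam : ℝ} (hP : ∀ j, rowMul r P j = lam * r j) (hirr : ¬ Irreducible (toQ P).charpoly) :
    ∃ w : Fin n → ℝ, (∀ j, rowMul w P j = lam * w j) ∧ ∀ a : ℝ, w ≠ fun j => a * r j := by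
  set Z : Matrix (Fin n) (Fin n) ℚ := toQ P with hZ
  set f : ℚ[X] := minpoly ℚ Z with hf
  have hfi : Irreducible f := minIrr hn hr hP
  have hdd := deg_dvd hn hfi
  have hd : f.natDegree < n := by
    refine lt_of_le_of_ne (Nat.le_of_dvd hn hdd.1) (fun h => hirr (hdd.2 h))
  have hd1 : 1 ≤ f.natDegree := Irreducible.natDegree_pos hfi
  have hfm : f.Monic := minpoly.monic (Algebra.IsIntegral.isIntegral Z)
  -- the rational covector
  let Λ : (Fin n → ℚ) →ₗ[ℚ] (Fin f.natDegree → ℚ) :=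
    LinearMap.pi (fun j => (LinearMap.proj (⟨0, hn⟩ : Fin n)).comp
      (Matrix.vecMulLinear (Z ^ (j : ℕ))))
  have hker : LinearMap.ker Λ ≠ ⊥ := by
    apply LinearMap.ker_ne_bot_of_finrank_lt
    rw [Module.finrank_fin_fun, Module.finrank_fin_fun]
    exact hd
  obtain ⟨φ, hφ, hφ0⟩ := Submodule.exists_mem_ne_zero_of_ne_bot hker
  have hφj : ∀ j : ℕ, j < f.natDegree → Matrix.vecMul φ (Z ^ j) ⟨0, hn⟩ = 0 := by
    intro j hj
    exact congrFun (LinearMap.mem_ker.1 hφ) ⟨j, hj⟩
  -- the real factor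
  have hroot : (f.map (algebraMap ℚ ℝ)).IsRoot lam := by
    have h1 := vec_aeval (vm hP) (f.map (algebraMap ℚ ℝ))
    rw [← Mr_aeval, minpoly.aeval, map_zero, Matrix.vecMul_zero] at h1
    have h2 := congrFun h1 ⟨0, hn⟩
    rw [Pi.zero_apply, Pi.smul_apply, smul_eq_mul] at h2
    exact (mul_eq_zero.1 h2.symm).resolve_right (r0 hn hr)
  set g : ℝ[X] := (f.map (algebraMap ℚ ℝ)) /ₘ (X - C lam) with hg
  have hfg : (X - C lam) * g = f.map (algebraMap ℚ ℝ) := mul_divByMonic_eq_iff_isRoot.2 hroot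
  have hgm : g.Monic := by
    have h1 : ((X - C lam) * g).Monic := by
      rw [hfg]
      exact hfm.map _
    exact (monic_X_sub_C lam).of_mul_monic_left h1
  have hgd : g.natDegree + 1 = f.natDegree := by
    have h1 : ((X - C lam) * g).natDegree = f.natDegree := by
      rw [hfg, natDegree_map]
    rw [(monic_X_sub_C lam).natDegree_mul hgm, natDegree_X_sub_C] at h1
    omega
  let ψ : Fin n → ℝ := fun i => (φ i : ℝ)
  have hψ : ∀ (Y : Matrix (Fin n) (Fin n) ℚ) (j : Fin n),
      Matrix.vecMul ψ (Mr Y) j = ((Matrix.vecMul φ Y j : ℚ) : ℝ) := by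
    intro Y j
    unfold Matrix.vecMul dotProduct
    rw [Rat.cast_sum]
    refine Finset.sum_congr rfl (fun i _ => ?_)
    rw [Rat.cast_mul]
    rfl
  have hga : ∀ j, Matrix.vecMul ψ (aeval (Mr Z) g) j =
      ∑ k ∈ Finset.range f.natDegree, g.coeff k * ((Matrix.vecMul φ (Z ^ k) j : ℚ) : ℝ) := by
    intro j
    rw [aeval_eq_sum_range' (n := f.natDegree) (by omega) (Mr Z)]
    have h1 : Matrix.vecMul ψ (∑ k ∈ Finset.range f.natDegree, g.coeff k • (Mr Z) ^ k) =
        ∑ k ∈ Finset.range f.natDegree, Matrix.vecMul ψ (g.coeff k • (Mr Z) ^ k) := by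
      induction (Finset.range f.natDegree) using Finset.induction_on with
      | empty => rw [Finset.sum_empty, Finset.sum_empty, Matrix.vecMul_zero]
      | insert a s ha ih => rw [Finset.sum_insert ha, Finset.sum_insert ha, Matrix.vecMul_add, ih]
    rw [h1, Finset.sum_apply]
    refine Finset.sum_congr rfl (fun k _ => ?_)
    rw [Matrix.vecMul_smul, Pi.smul_apply, smul_eq_mul, ← map_pow, hψ]
  have hw0 : Matrix.vecMul ψ (aeval (Mr Z) g) ⟨0, hn⟩ = 0 := by
    rw [hga]
    refine Finset.sum_eq_zero (fun k hk => ?_)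
    rw [hφj k (Finset.mem_range.1 hk), Rat.cast_zero, mul_zero]
  refine ⟨Matrix.vecMul ψ (aeval (Mr Z) g), ?_, ?_⟩
  · intro j
    rw [row_eq]
    have h1 : Matrix.vecMul ψ (aeval (Mr Z) (g * (X - C lam))) = 0 := by
      rw [mul_comm, hfg, ← Mr_aeval, minpoly.aeval, map_zero, Matrix.vecMul_zero]
    rw [map_mul, ← Matrix.vecMul_vecMul, map_sub, aeval_X, aeval_C, Matrix.vecMul_sub,
      sub_eq_zero] at h1
    rw [h1]
    have h2 : (algebraMap ℝ (Matrix (Fin n) (Fin n) ℝ)) lam = lam • (1 : Matrix (Fin n) (Fin n) ℝ) :=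
      Algebra.algebraMap_eq_smul_one lam
    rw [h2, Matrix.vecMul_smul, Matrix.vecMul_one, Pi.smul_apply, smul_eq_mul]
  · intro a ha
    have h1 : a = 0 := by
      have h2 := congrFun ha ⟨0, hn⟩
      rw [hw0] at h2
      exact (mul_eq_zero.1 h2.symm).resolve_right (r0 hn hr)
    have h3 : ∀ j, Matrix.vecMul ψ (aeval (Mr Z) g) j = 0 := by
      intro j
      rw [ha]
      change a * r j = 0
      rw [h1, zero_mul]
    -- a rational functional
    obtain ⟨τ, hτ⟩ := LinearMap.exists_leftInverse_of_injective (Algebra.linearMap ℚ ℝ)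
      (LinearMap.ker_eq_bot.2 (algebraMap ℚ ℝ).injective)
    have hτ1 : τ 1 = 1 := by
      have h4 := LinearMap.congr_fun hτ 1
      rw [LinearMap.comp_apply, Algebra.linearMap_apply, map_one, LinearMap.id_apply] at h4
      exact h4
    have hτm : ∀ (x : ℝ) (q : ℚ), τ (x * (q : ℝ)) = τ x * q := by
      intro x q
      have h4 : x * (q : ℝ) = q • x := by rw [Rat.smul_def, mul_comm]
      rw [h4, map_smul, smul_eq_mul, mul_comm]
    let p : ℚ[X] := ∑ k ∈ Finset.range f.natDegree, monomial k (τ (g.coeff k))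
    have hpc : p.coeff (f.natDegree - 1) = 1 := by
      have h4 : p.coeff (f.natDegree - 1) = ∑ k ∈ Finset.range f.natDegree,
          if k = f.natDegree - 1 then τ (g.coeff k) else 0 := by
        rw [finset_sum_coeff]
        exact Finset.sum_congr rfl (fun k _ => coeff_monomial)
      rw [h4, Finset.sum_ite_eq' , if_pos (Finset.mem_range.2 (by omega))]
      have h5 : f.natDegree - 1 = g.natDegree := by omega
      rw [h5, hgm.coeff_natDegree, hτ1]
    have hp0 : p ≠ 0 := by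
      intro h4
      rw [h4, coeff_zero] at hpc
      exact zero_ne_one hpc
    have hpd : p.natDegree < f.natDegree := by
      have h4 : p.degree < f.natDegree := by
        refine (degree_sum_le _ _).trans_lt ?_
        rw [Finset.sup_lt_iff (WithBot.bot_lt_coe _)]
        intro k hk
        refine (degree_monomial_le _ _).trans_lt ?_
        exact_mod_cast Finset.mem_range.1 hk
      exact (natDegree_lt_iff_degree_lt hp0).2 h4
    have hpz : Matrix.vecMul φ (aeval Z p) = 0 := by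
      funext j
      have h4 : aeval Z p = ∑ k ∈ Finset.range f.natDegree, τ (g.coeff k) • Z ^ k := by
        rw [map_sum]
        refine Finset.sum_congr rfl (fun k _ => ?_)
        rw [aeval_monomial, ← Algebra.smul_def]
      have h5 : Matrix.vecMul φ (∑ k ∈ Finset.range f.natDegree, τ (g.coeff k) • Z ^ k) =
          ∑ k ∈ Finset.range f.natDegree, Matrix.vecMul φ (τ (g.coeff k) • Z ^ k) := by
        induction (Finset.range f.natDegree) using Finset.induction_on with
        | empty => rw [Finset.sum_empty, Finset.sum_empty, Matrix.vecMul_zero]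
        | insert a s ha ih =>
          rw [Finset.sum_insert ha, Finset.sum_insert ha, Matrix.vecMul_add, ih]
      rw [h4, h5, Finset.sum_apply, Pi.zero_apply]
      have h6 := congrArg τ (h3 j)
      rw [hga, map_sum, map_zero] at h6
      rw [← h6]
      refine Finset.sum_congr rfl (fun k _ => ?_)
      rw [Matrix.vecMul_smul, Pi.smul_apply, smul_eq_mul, hτm]
    have hcop : IsCoprime p f := by
      have h4 : IsCoprime f p := by
        rw [hfi.coprime_iff_not_dvd]
        intro h5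
        exact absurd (natDegree_le_of_dvd h5 hp0) (by omega)
      exact h4.symm
    obtain ⟨u, v, huv⟩ := hcop
    apply hφ0
    have h7 : aeval Z (p * u + v * f) = 1 := by
      rw [mul_comm p u, huv, map_one]
    have h8 : Matrix.vecMul φ (aeval Z (p * u + v * f)) = 0 := by
      rw [map_add, map_mul, map_mul, minpoly.aeval, mul_zero, add_zero, ← Matrix.vecMul_vecMul,
        hpz, Matrix.zero_vecMul]
    rw [h7, Matrix.vecMul_one] at h8
    exact h8

end Pool.Agent.Work.MP_77d073_nt.Alg
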