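import Mathlib
import Pool.Agent.Work.MP_77d073_nt.Alg.KT
import Pool.Agent.Work.MP_77d073_nt.Alg.ToNR
import Pool.Agent.Work.MP_77d073_nt.Alg.Second
import Pool.Agent.Work.MP_77d073_nt.Alg.Refl
import Pool.Agent.Work.MP_77d073_nt.Alg.Bas

/-!
# MP_77d073_nt/Alg, Ray5 (size M): near returns on the ray give an irreducible matrix

PROOF.  `τ = C_refl + 1` (`refl` for `D`, `K`).  Given `L`: `l j = L i₀ j / L i₀ i₀` is algebraic (`alg_ratio`), `l i₀ = 1` (`diag_ne`).  Let `δ` be given, `δ' = min (δ/2) 1`, `η = δ' / (16 n^3)`, `R₁` = the constant of `kt` for `δ'`, `η`,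
`C` = the constant of `toNR` (`det L ≠ 0` as `|det| = D > 0`).  Take `R ≥ max (R₁, log C / η, 2 log C / δ, 0)` from the hypothesis.  `toNR` with `ρ = 0`, `ε = exp (- δ R)` (`Nr_ry`):
`C ≤ exp (η R)`, `C exp (- δ R) ≤ exp (- δ/2 R) ≤ exp (- δ' R)`.  `kt`: `Prp l M M'`; `prp_eig`: `r = rowMul (L i₀) M` is an eigenvector of `P = M⁻¹ M'` (`M P = M'`: `mul_inv_mul`), `QI r` (`qi_mul`).
If the characteristic polynomial of `toQ P` were not irreducible, `second` and `refl` (`ρ = 0`) give `τ ≤ v - u ≤ |v - u| ≤ C_refl`: contradiction.  `back` with `Y = toQ P`.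
-/

set_option autoImplicit false

namespace Pool.Agent.Work.MP_77d073_nt.Alg

open Pool.Agent.Work.MP_77d073_nt Pool.Agent.Work.MP_77d073_nt.Gap

theorem ray5 (n : ℕ) (hn : 3 ≤ n) {c D K : ℝ} (hc : 0 < c) (hD : 0 < D) (hK : 0 < K) :
    ∃ τ : ℝ, 0 < τ ∧ ∀ L : Fin n → Fin n → ℝ, Sys c D L → ∀ i₀ : Fin n,
    (∃ θ : ℝ, θ ≠ 0 ∧ ∀ j, IsAlgebraic ℚ (θ * L i₀ j)) →
    (∃ δ : ℝ, 0 < δ ∧ ∀ R₀ : ℝ, ∃ R : ℝ, R₀ ≤ R ∧ ∃ u v : ℝ, 0 ≤ u ∧ u + τ ≤ v ∧ v ≤ R ∧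
      ∃ M M' : Matrix (Fin n) (Fin n) ℤ, Red L K (ry i₀ u) M ∧ Red L K (ry i₀ v) M' ∧
      ∃ θ : ℝ, ∀ k, |tr L M' (ry i₀ v) i₀ k - θ * tr L M (ry i₀ u) i₀ k| ≤
        Real.exp (-(δ * R))) →
    ∃ A : Matrix (Fin n) (Fin n) ℚ, Irreducible A.charpoly ∧
      ∀ x : Fin n → ℝ, ∑ j, L i₀ j * x j = 0 →
        ∑ j, L i₀ j * ((A.map (Rat.cast : ℚ → ℝ)).mulVec x) j = 0 := by
  obtain ⟨Cr, hCr, hrefl⟩ := refl n (by omega) hD hK
  refine ⟨Cr + 1, by linarith, fun L hL i₀ halg hret => ?_⟩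
  obtain ⟨δ, hδ, h⟩ := hret
  have hQ : QI (L i₀) := qi_of_sys hc hL i₀
  have h0 : L i₀ i₀ ≠ 0 := diag_ne hQ i₀
  have hdet : (Matrix.of L).det ≠ 0 := by
    intro h1
    have h2 := hL.1
    rw [h1, abs_zero] at h2
    exact hD.ne h2
  have hn0 : (0 : ℝ) < n := by
    have : 0 < n := by omega
    exact_mod_cast this
  obtain ⟨δ', hδ', hδ'1, hδ'2⟩ : ∃ δ' : ℝ, 0 < δ' ∧ δ' ≤ 1 ∧ δ' ≤ δ / 2 :=
    ⟨min (δ / 2) 1, lt_min (by linarith) one_pos, min_le_right _ _, min_le_left _ _⟩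
  have hη : 0 < δ' / (16 * (n : ℝ) ^ 3) := by positivity
  obtain ⟨R₁, hR₁⟩ := kt i₀ (fun j => L i₀ j / L i₀ i₀) (div_self h0) (alg_ratio hQ i₀ halg)
    hδ' hδ'1 hη.le (le_of_eq (by field_simp))
  obtain ⟨C, hC1, hC⟩ := toNR i₀ L hdet h0 hK
  have hlogC : 0 ≤ Real.log C := Real.log_nonneg hC1
  have hexpC : Real.exp (Real.log C) = C := Real.exp_log (by linarith)
  obtain ⟨R, hR, u, v, hu, huv, hvR, M, M', hM, hM', θ, hθ⟩ :=
    h (max (max R₁ 0) (max (Real.log C / (δ' / (16 * (n : ℝ) ^ 3))) (2 * Real.log C / δ)))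
  have hRR : R₁ ≤ R := (le_max_left _ _).trans ((le_max_left _ _).trans hR)
  have hR0 : 0 ≤ R := (le_max_right R₁ 0).trans ((le_max_left _ _).trans hR)
  have hRa : Real.log C / (δ' / (16 * (n : ℝ) ^ 3)) ≤ R :=
    (le_max_left _ _).trans ((le_max_right _ _).trans hR)
  have hRb : 2 * Real.log C / δ ≤ R := (le_max_right _ _).trans ((le_max_right _ _).trans hR)
  rw [div_le_iff₀ hη] at hRa
  rw [div_le_iff₀ hδ] at hRb
  have e1 : C * Real.exp (n * 0) ≤ Real.exp (δ' / (16 * (n : ℝ) ^ 3) * R) := by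
    rw [mul_zero, Real.exp_zero, mul_one]
    calc C = Real.exp (Real.log C) := hexpC.symm
      _ ≤ Real.exp (δ' / (16 * (n : ℝ) ^ 3) * R) := Real.exp_le_exp.2 (by linarith)
  have e2 : C * Real.exp (n * 0) * Real.exp (-(δ * R)) ≤ Real.exp (-(δ' * R)) := by
    rw [mul_zero, Real.exp_zero, mul_one]
    calc C * Real.exp (-(δ * R)) = Real.exp (Real.log C + -(δ * R)) := by
          rw [Real.exp_add, hexpC]
      _ ≤ Real.exp (-(δ' * R)) := by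
          apply Real.exp_le_exp.2
          have h3 : δ' * R ≤ δ / 2 * R := mul_le_mul_of_nonneg_right hδ'2 hR0
          linarith
  obtain ⟨θ', hNR⟩ := hC R 0 (Real.exp (-(δ * R))) (δ' / (16 * (n : ℝ) ^ 3)) δ' u v le_rfl
    (Real.exp_pos _).le hu (by linarith) (by linarith) hvR e1 e2 (ry i₀ u) (ry i₀ v)
    (Nr_ry i₀ le_rfl u) (Nr_ry i₀ le_rfl v) M M' hM hM' θ hθ
  obtain ⟨lam, hlam⟩ := prp_eig h0 hM.1 (hR₁ R hRR u v M M' θ' hNR)
  have hr : QI (rowMul (L i₀) M) := qi_mul hQ hM.1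
  by_cases hirr : Irreducible (toQ (M⁻¹ * M')).charpoly
  · refine back hM.1 hirr (mu := lam) fun j => ?_
    rw [← hlam j]
    unfold toQ
    rw [rowMul]
    refine Finset.sum_congr rfl fun i _ => ?_
    rw [Matrix.map_apply]
    push_cast
    rfl
  · obtain ⟨w, hw, hne⟩ := second (by omega) hr hlam hirr
    have h1 := hrefl L hL.1 i₀ 0 u v le_rfl (ry i₀ u) (ry i₀ v) (Nr_ry i₀ le_rfl u)
      (Nr_ry i₀ le_rfl v) M M' (M⁻¹ * M') hM hM' (mul_inv_mul hM.1 M') lam hlam w hw hne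
    have h2 := le_abs_self (v - u)
    linarith

end Pool.Agent.Work.MP_77d073_nt.Alg
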