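import Mathlib
import Pool.Agent.Work.MP_77d073_nt.Alg.ToNR
import Pool.Agent.Work.MP_77d073_nt.GapGG

/-!
# MP_77d073_nt/Alg, Grid2 (size S-M): separated positions in `m` windows along the ray

PROOF.  `Gap.grid n hn C hC` with `T = exp ρ` and the centres `t0 = ry i₀ (4 ρ k)`, `k < m` (`Pos`: `Nr_ry`): `G_k` with `|log (t i) - log (t0 i)| ≤ ρ`, `log (t0 i) = - 4 ρ k` for `i ≠ i₀`; so `Nr i₀ ρ (4 ρ k) t`.
`G = ⋃_k G_k`, `w t` = the (a) `k < m` with `t ∈ G_k` (choice).  Points of different windows `k < k'`: for an index `i ≠ i₀` (`n ≥ 2`): `log (t_i) ≥ - 4 ρ k - ρ`, `log (t'_i) ≤ - 4 ρ k' + ρ ≤ - 4 ρ k - 3 ρ`, so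
`t_i / t'_i ≥ exp (2 ρ) > C` for `ρ ≥ ρ₀ ≥ log C + 1`: not `Near C`.  The `G_k` are disjoint (same argument, `Near C t t`), so `card G = ∑ card G_k ≥ m c' ρ^(n-1)`.
-/

set_option autoImplicit false

namespace Pool.Agent.Work.MP_77d073_nt.Alg

open Pool.Agent.Work.MP_77d073_nt Pool.Agent.Work.MP_77d073_nt.Gap

theorem grid2 (n : ℕ) (hn : 2 ≤ n) (C : ℝ) (hC : 1 ≤ C) :
    ∃ c' : ℝ, 0 < c' ∧ ∃ ρ₀ : ℝ, 1 ≤ ρ₀ ∧ ∀ ρ : ℝ, ρ₀ ≤ ρ → ∀ (i₀ : Fin n) (m : ℕ),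
    ∃ (G : Finset (Fin n → ℝ)) (w : (Fin n → ℝ) → ℕ),
      (∀ t ∈ G, w t < m ∧ Nr i₀ ρ (4 * ρ * w t) t) ∧
      (∀ s ∈ G, ∀ t ∈ G, Near C s t → s = t) ∧
      c' * m * ρ ^ (n - 1) ≤ (G.card : ℝ) := by
  classical
  obtain ⟨c', hc', T0, hT0, hgrid⟩ := grid n hn C hC
  refine ⟨c', hc', max (max 1 (Real.log T0)) (Real.log C + 1),
    (le_max_left _ _).trans (le_max_left _ _), ?_⟩
  intro ρ hρ i₀ m
  have hρ1 : 1 ≤ ρ := ((le_max_left _ _).trans (le_max_left _ _)).trans hρ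
  have hρT : Real.log T0 ≤ ρ := ((le_max_right _ _).trans (le_max_left _ _)).trans hρ
  have hρC : Real.log C + 1 ≤ ρ := (le_max_right _ _).trans hρ
  have hC0 : 0 < C := by linarith
  have hT : T0 ≤ Real.exp ρ := by
    rw [← Real.exp_log (by linarith : (0 : ℝ) < T0)]
    exact Real.exp_le_exp.2 hρT
  choose Gf hG1 hG2 hG3 using fun k : ℕ =>
    hgrid (Real.exp ρ) hT i₀ (ry i₀ (4 * ρ * (k : ℝ))) (Nr_ry i₀ le_rfl (4 * ρ * (k : ℝ))).1
  rw [Real.log_exp] at hG3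
  have hlog : ∀ (k : ℕ) (i : Fin n), i ≠ i₀ → Real.log (ry i₀ (4 * ρ * (k : ℝ)) i) =
      -(4 * ρ * (k : ℝ)) := by
    intro k i hi
    unfold ry
    rw [if_neg hi, Real.log_exp]
  have hNr : ∀ (k : ℕ), ∀ t ∈ Gf k, Nr i₀ ρ (4 * ρ * k) t := by
    intro k t ht
    refine ⟨(hG1 k t ht).1, fun i hi => ?_⟩
    have h1 := (hG1 k t ht).2.2 i hi
    rw [hlog k i hi, Real.log_exp, sub_neg_eq_add] at h1
    exact h1
  -- an index different from i₀
  obtain ⟨i, hi⟩ : ∃ i : Fin n, i ≠ i₀ := by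
    by_contra hcon
    push Not at hcon
    have h1 : Fintype.card (Fin n) ≤ 1 :=
      Fintype.card_le_one_iff.2 fun a b => (hcon a).trans (hcon b).symm
    rw [Fintype.card_fin] at h1
    omega
  have hlt : ∀ k k' : ℕ, k < k' → ∀ s ∈ Gf k, ∀ t ∈ Gf k', ¬ (s i ≤ C * t i) := by
    intro k k' hk s hs t ht hst
    have h1 := (hNr k s hs)
    have h2 := (hNr k' t ht)
    have h3 := abs_le.1 (h1.2 i hi)
    have h4 := abs_le.1 (h2.2 i hi)
    have h5 : Real.log (s i) ≤ Real.log C + Real.log (t i) := by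
      rw [← Real.log_mul hC0.ne' (h2.1.1 i).ne']
      exact Real.log_le_log (h1.1.1 i) hst
    have h6 : (k : ℝ) + 1 ≤ k' := by exact_mod_cast hk
    nlinarith
  have hsep : ∀ k k' : ℕ, ∀ s ∈ Gf k, ∀ t ∈ Gf k', Near C s t → k = k' := by
    intro k k' s hs t ht hst
    by_contra hne
    rcases Nat.lt_or_gt_of_ne hne with h1 | h1
    · exact hlt k k' h1 s hs t ht (hst.1 i)
    · exact hlt k' k h1 t ht s hs (hst.2 i)
  have hself : ∀ (k : ℕ), ∀ t ∈ Gf k, Near C t t := by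
    intro k t ht
    have h1 : ∀ j, t j ≤ C * t j := by
      intro j
      have h2 := (hNr k t ht).1.1 j
      nlinarith
    exact ⟨h1, h1⟩
  refine ⟨(Finset.range m).biUnion Gf, fun t =>
    if h : ∃ k, k < m ∧ t ∈ Gf k then Classical.choose h else 0, ?_, ?_, ?_⟩
  · intro t ht
    obtain ⟨k, hk, hkt⟩ := Finset.mem_biUnion.1 ht
    have hex : ∃ k, k < m ∧ t ∈ Gf k := ⟨k, Finset.mem_range.1 hk, hkt⟩
    have h1 := Classical.choose_spec hex
    have h2 : (fun t : Fin n → ℝ => if h : ∃ k, k < m ∧ t ∈ Gf k then Classical.choose h else 0) t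
        = Classical.choose hex := dif_pos hex
    rw [h2]
    exact ⟨h1.1, hNr _ t h1.2⟩
  · intro s hs t ht hst
    obtain ⟨k, _, hk⟩ := Finset.mem_biUnion.1 hs
    obtain ⟨k', _, hk'⟩ := Finset.mem_biUnion.1 ht
    have h1 := hsep k k' s hk t hk' hst
    subst h1
    exact hG2 k s hk t hk' hst
  · rw [Finset.card_biUnion]
    · push_cast
      calc c' * m * ρ ^ (n - 1) = ∑ _k ∈ Finset.range m, c' * ρ ^ (n - 1) := by
            rw [Finset.sum_const, Finset.card_range, nsmul_eq_mul]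
            ring
        _ ≤ ∑ k ∈ Finset.range m, ((Gf k).card : ℝ) :=
            Finset.sum_le_sum fun k _ => hG3 k
    · intro k _ k' _ hne
      show Disjoint (Gf k) (Gf k')
      rw [Finset.disjoint_left]
      intro t h1 h2
      exact hne (hsep k k' t h1 t h2 (hself k t h1))

end Pool.Agent.Work.MP_77d073_nt.Alg
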