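import Mathlib
import Pool.Agent.Work.MP_77d073_nt.Alg.Second

/-!
# MP_77d073_nt/Alg, PrimEx (size M): a primitive element

PROOF.  For `U ∈ S` let `lam U` be its eigenvalue (`r ≠ 0`); it is algebraic (root of the characteristic polynomial).  `F = IntermediateField.adjoin ℚ {lam U | U ∈ S} ≤ ℝ` is finite dimensional, so it has a primitive element
`mu ∈ ℝ` (`Field.exists_primitive_element`), and `mu` is a polynomial in the `lam U` with rational coefficients: `F` is the image of `MvPolynomial S ℚ` (`IntermediateField.adjoin_algebraic_toSubalgebra`,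
`Algebra.adjoin_eq_range`).  For every element `z` of `Algebra.adjoin ℚ {lam U}` there is a rational matrix `Z` with `r Z = z r` (induction on the adjoin: the set of `z ∈ ℝ` for which there is a rational matrix `Z` with
`r Z = z r` is a subalgebra).  So there is `Y` with `r Y = mu r`.  `Irreducible (minpoly ℚ Y)`: as in `Second.minIrr` for rational matrices (`minpoly ℚ mu` kills `Y`: `r g(Y) = g(mu) r = 0`; `QI r` for rational columns).
For `U ∈ S`: `lam U = p(mu)` with a rational polynomial `p` (`IntermediateField.mem_adjoin_simple_iff` / `Algebra.adjoin` of the algebraic `mu`: `minpoly`, `PowerBasis`), so `r (toQ U - p(Y)) = 0` and `toQ U = p(Y)` by `QI r`.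
-/

set_option autoImplicit false

namespace Pool.Agent.Work.MP_77d073_nt.Alg

open Pool.Agent.Work.MP_77d073_nt Pool.Agent.Work.MP_77d073_nt.Gap Polynomial

/-- A row vector times a rational matrix. -/
private def rv {n : ℕ} (r : Fin n → ℝ) (Z : Matrix (Fin n) (Fin n) ℚ) (j : Fin n) : ℝ :=
  ∑ i, r i * (Z i j : ℝ)

private theorem rv_add {n : ℕ} (r : Fin n → ℝ) (Z W : Matrix (Fin n) (Fin n) ℚ) (j : Fin n) :
    rv r (Z + W) j = rv r Z j + rv r W j := by
  unfold rv
  rw [← Finset.sum_add_distrib]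
  refine Finset.sum_congr rfl fun i _ => ?_
  rw [Matrix.add_apply]
  push_cast
  ring

private theorem rv_sub {n : ℕ} (r : Fin n → ℝ) (Z W : Matrix (Fin n) (Fin n) ℚ) (j : Fin n) :
    rv r (Z - W) j = rv r Z j - rv r W j := by
  unfold rv
  rw [← Finset.sum_sub_distrib]
  refine Finset.sum_congr rfl fun i _ => ?_
  rw [Matrix.sub_apply]
  push_cast
  ring

private theorem rv_mul {n : ℕ} (r : Fin n → ℝ) (Z W : Matrix (Fin n) (Fin n) ℚ) {z w : ℝ}
    (hZ : ∀ j, rv r Z j = z * r j) (hW : ∀ j, rv r W j = w * r j) (j : Fin n) :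
    rv r (Z * W) j = z * w * r j := by
  have h1 : rv r (Z * W) j = ∑ k, rv r Z k * (W k j : ℝ) := by
    unfold rv
    simp only [Matrix.mul_apply, Rat.cast_sum, Rat.cast_mul, Finset.mul_sum, Finset.sum_mul]
    rw [Finset.sum_comm]
    refine Finset.sum_congr rfl fun k _ => Finset.sum_congr rfl fun i _ => ?_
    ring
  rw [h1]
  have h2 : ∑ k, rv r Z k * (W k j : ℝ) = z * rv r W j := by
    rw [rv, Finset.mul_sum]
    refine Finset.sum_congr rfl fun k _ => ?_
    rw [hZ]
    ring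
  rw [h2, hW]
  ring

private theorem rv_alg {n : ℕ} (r : Fin n → ℝ) (a : ℚ) (j : Fin n) :
    rv r (algebraMap ℚ (Matrix (Fin n) (Fin n) ℚ) a) j = algebraMap ℚ ℝ a * r j := by
  unfold rv
  rw [Finset.sum_eq_single j]
  · rw [Matrix.algebraMap_matrix_apply, if_pos rfl]
    simp only [eq_ratCast, Rat.cast_id]
    ring
  · intro i _ hij
    rw [Matrix.algebraMap_matrix_apply, if_neg hij]
    simp
  · intro h
    exact absurd (Finset.mem_univ j) h

private theorem rv_pow {n : ℕ} (r : Fin n → ℝ) (Z : Matrix (Fin n) (Fin n) ℚ) {z : ℝ}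
    (hZ : ∀ j, rv r Z j = z * r j) (k : ℕ) : ∀ j, rv r (Z ^ k) j = z ^ k * r j := by
  induction k with
  | zero =>
    intro j
    rw [pow_zero, pow_zero]
    have := rv_alg r 1 j
    rwa [map_one, map_one] at this
  | succ k ih =>
    intro j
    rw [pow_succ, pow_succ]
    exact rv_mul r _ _ ih hZ j

private theorem rv_aeval {n : ℕ} (r : Fin n → ℝ) (Z : Matrix (Fin n) (Fin n) ℚ) {z : ℝ}
    (hZ : ∀ j, rv r Z j = z * r j) (p : ℚ[X]) (j : Fin n) :
    rv r (aeval Z p) j = aeval z p * r j := by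
  induction p using Polynomial.induction_on' generalizing j with
  | add p q hp hq => rw [map_add, map_add, rv_add, hp, hq, add_mul]
  | monomial k a =>
    rw [aeval_monomial, aeval_monomial]
    exact rv_mul r _ _ (fun j => rv_alg r a j) (rv_pow r Z hZ k) j

/-- Rational columns orthogonal to `r` vanish. -/
private theorem qi_rat {n : ℕ} {r : Fin n → ℝ} (hr : QI r) (q : Fin n → ℚ)
    (h : ∑ i, r i * (q i : ℝ) = 0) : q = 0 := by
  by_contra hq
  set N : ℕ := ∏ i, (q i).den with hN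
  have hN0 : N ≠ 0 := Finset.prod_ne_zero_iff.2 fun i _ => (q i).den_nz
  have h1 : ∀ i, ∃ z : ℤ, (z : ℚ) = N * q i := by
    intro i
    obtain ⟨c, hc⟩ := Finset.dvd_prod_of_mem (fun i => (q i).den) (Finset.mem_univ i)
    refine ⟨c * (q i).num, ?_⟩
    have h2 : (N : ℚ) = (q i).den * c := by
      rw [hN, hc]
      push_cast
      rfl
    have h3 : q i * (q i).den = (q i).num := Rat.mul_den_eq_num (q i)
    rw [h2]
    push_cast
    rw [← h3]
    ring
  choose z hz using h1
  have hz0 : z ≠ 0 := by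
    intro h0
    apply hq
    funext i
    have h2 := hz i
    rw [h0] at h2
    simp only [Pi.zero_apply, Int.cast_zero] at h2
    rcases mul_eq_zero.1 h2.symm with h3 | h3
    · exact absurd (Nat.cast_eq_zero.1 h3) hN0
    · exact h3
  refine hr z hz0 ?_
  have h2 : ∀ i, r i * (z i : ℝ) = (N : ℝ) * (r i * (q i : ℝ)) := by
    intro i
    have h3 : ((z i : ℚ) : ℝ) = ((N * q i : ℚ) : ℝ) := by rw [hz i]
    push_cast at h3
    rw [h3]
    ring
  rw [Finset.sum_congr rfl fun i _ => h2 i, ← Finset.mul_sum, h, mul_zero]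

private theorem rv_zero {n : ℕ} {r : Fin n → ℝ} (hr : QI r) {Z : Matrix (Fin n) (Fin n) ℚ}
    (h : ∀ j, rv r Z j = 0) : Z = 0 := by
  ext i j
  have := qi_rat hr (fun i => Z i j) (h j)
  exact congrFun this i

private theorem r_ne {n : ℕ} (hn : 1 ≤ n) {r : Fin n → ℝ} (hr : QI r) : ∃ j, r j ≠ 0 := by
  refine ⟨⟨0, hn⟩, fun h => ?_⟩
  refine hr (Pi.single ⟨0, hn⟩ 1) ?_ ?_
  · intro h0
    have := congrFun h0 ⟨0, hn⟩
    rw [Pi.single_eq_same] at this
    exact one_ne_zero this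
  · rw [Finset.sum_eq_single ⟨0, hn⟩]
    · rw [h, zero_mul]
    · intro i _ hi
      rw [Pi.single_eq_of_ne hi]
      simp
    · intro h0
      exact absurd (Finset.mem_univ _) h0

private theorem eig_int {n : ℕ} (hn : 1 ≤ n) {r : Fin n → ℝ} (hr : QI r)
    {Z : Matrix (Fin n) (Fin n) ℚ} {z : ℝ} (hZ : ∀ j, rv r Z j = z * r j) :
    IsIntegral ℚ z := by
  refine ⟨minpoly ℚ Z, minpoly.monic (Algebra.IsIntegral.isIntegral Z), ?_⟩
  obtain ⟨j, hj⟩ := r_ne hn hr
  have h1 := rv_aeval r Z hZ (minpoly ℚ Z) j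
  rw [minpoly.aeval] at h1
  have h2 : rv r (0 : Matrix (Fin n) (Fin n) ℚ) j = 0 := by
    unfold rv
    simp
  rw [h2] at h1
  have h3 := (mul_eq_zero.1 h1.symm).resolve_right hj
  exact h3

/-- The algebra of eigenvalues. -/
private def EA {n : ℕ} (r : Fin n → ℝ) : Subalgebra ℚ ℝ where
  carrier := {z | ∃ Z : Matrix (Fin n) (Fin n) ℚ, ∀ j, rv r Z j = z * r j}
  mul_mem' := by
    rintro z w ⟨Z, hZ⟩ ⟨W, hW⟩
    exact ⟨Z * W, fun j => rv_mul r Z W hZ hW j⟩
  add_mem' := by
    rintro z w ⟨Z, hZ⟩ ⟨W, hW⟩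
    exact ⟨Z + W, fun j => by rw [rv_add, hZ, hW, add_mul]⟩
  algebraMap_mem' := fun a => ⟨algebraMap ℚ _ a, fun j => rv_alg r a j⟩

theorem primEx {n : ℕ} (hn : 1 ≤ n) {r : Fin n → ℝ} (hr : QI r)
    (S : Finset (Matrix (Fin n) (Fin n) ℤ))
    (hS : ∀ U ∈ S, ∃ lam : ℝ, ∀ j, rowMul r U j = lam * r j) :
    ∃ Y : Matrix (Fin n) (Fin n) ℚ, Irreducible (minpoly ℚ Y) ∧
      (∃ mu : ℝ, ∀ j, ∑ i, r i * (Y i j : ℝ) = mu * r j) ∧
      ∀ U ∈ S, ∃ p : ℚ[X], toQ U = aeval Y p := by
  classical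
  have hS' : ∀ U ∈ S, ∃ lam : ℝ, ∀ j, rv r (toQ U) j = lam * r j := by
    intro U hU
    obtain ⟨lam, hlam⟩ := hS U hU
    refine ⟨lam, fun j => ?_⟩
    rw [← hlam j]
    unfold rv rowMul toQ
    refine Finset.sum_congr rfl fun i _ => ?_
    rw [Matrix.map_apply]
    push_cast
    rfl
  choose! lam hlam using hS'
  set T : Set ℝ := lam '' (S : Set (Matrix (Fin n) (Fin n) ℤ)) with hT
  have hTfin : T.Finite := S.finite_toSet.image lam
  have hTint : ∀ x ∈ T, IsIntegral ℚ x := by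
    rintro x ⟨U, hU, rfl⟩
    exact eig_int hn hr (hlam U hU)
  have hTE : T ⊆ (EA r : Set ℝ) := by
    rintro x ⟨U, hU, rfl⟩
    exact ⟨toQ U, hlam U hU⟩
  have : Finite T := hTfin
  have : FiniteDimensional ℚ (IntermediateField.adjoin ℚ T) :=
    IntermediateField.finiteDimensional_adjoin hTint
  obtain ⟨α, hα⟩ := Field.exists_primitive_element ℚ (IntermediateField.adjoin ℚ T)
  have hsub : (IntermediateField.adjoin ℚ T).toSubalgebra = Algebra.adjoin ℚ T :=
    IntermediateField.adjoin_toSubalgebra_of_isAlgebraic fun x hx => (hTint x hx).isAlgebraic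
  have hle : (IntermediateField.adjoin ℚ T).toSubalgebra ≤ EA r := by
    rw [hsub]
    exact Algebra.adjoin_le hTE
  have hαE : (α : ℝ) ∈ EA r := hle α.2
  obtain ⟨Y, hY⟩ := hαE
  have hαint : IsIntegral ℚ α := Algebra.IsIntegral.isIntegral α
  refine ⟨Y, ?_, ⟨α, hY⟩, ?_⟩
  · -- irreducibility
    have hmint : IsIntegral ℚ (α : ℝ) := eig_int hn hr hY
    have h1 : aeval Y (minpoly ℚ (α : ℝ)) = 0 := by
      apply rv_zero hr
      intro j
      rw [rv_aeval r Y hY, minpoly.aeval, zero_mul]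
    have h2 : minpoly ℚ Y ∣ minpoly ℚ (α : ℝ) := minpoly.dvd ℚ Y h1
    have h3 : Irreducible (minpoly ℚ (α : ℝ)) := minpoly.irreducible hmint
    have : Nonempty (Fin n) := ⟨⟨0, hn⟩⟩
    have h4 : ¬ IsUnit (minpoly ℚ Y) := minpoly.not_isUnit ℚ Y
    obtain ⟨c, hc⟩ := h2
    have h5 := (h3.isUnit_or_isUnit hc).resolve_left h4
    have h6 : Associated (minpoly ℚ Y) (minpoly ℚ (α : ℝ)) :=
      ⟨h5.unit, by rw [IsUnit.unit_spec, hc]⟩
    exact h6.symm.irreducible h3
  · intro U hU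
    have hmem : lam U ∈ IntermediateField.adjoin ℚ T :=
      IntermediateField.subset_adjoin ℚ T ⟨U, hU, rfl⟩
    have h1 : (⟨lam U, hmem⟩ : IntermediateField.adjoin ℚ T) ∈ (IntermediateField.adjoin ℚ {α}).toSubalgebra := by
      rw [hα]
      exact IntermediateField.mem_top
    rw [IntermediateField.adjoin_simple_toSubalgebra_of_isAlgebraic hαint.isAlgebraic,
      Algebra.adjoin_singleton_eq_range_aeval] at h1
    obtain ⟨p, hp⟩ := h1
    refine ⟨p, ?_⟩
    have h2 : aeval (α : ℝ) p = lam U := by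
      have h3 := congrArg (fun x : IntermediateField.adjoin ℚ T => (x : ℝ)) hp
      have h4 : aeval (α : ℝ) p = ((aeval α p : IntermediateField.adjoin ℚ T) : ℝ) := by
        exact aeval_algebraMap_apply ℝ α p
      rw [h4]
      exact h3
    have h3 : toQ U - aeval Y p = 0 := by
      apply rv_zero hr
      intro j
      rw [rv_sub, hlam U hU, rv_aeval r Y hY, h2, sub_self]
    exact sub_eq_zero.1 h3

end Pool.Agent.Work.MP_77d073_nt.Alg
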