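import Mathlib
import Pool.Agent.Work.MP_77d073_nt.Alg.Second
import Pool.Agent.Work.MP_77d073_nt.Alg.Refl
import Pool.Agent.Work.MP_77d073_nt.Alg.PrimEx
import Pool.Agent.Work.MP_77d073_nt.Alg.Bas
import Pool.Agent.Work.MP_77d073_nt.GapGL
import Pool.Agent.Work.MP_77d073_nt.GapGM
import Pool.Agent.Work.MP_77d073_nt.GapGD

/-!
# MP_77d073_nt/Alg, TubeA (size M-L): a large class of exact returns gives an irreducible matrix

The constants depend only on `n`, `D`, `K` (and the separation constant is `Csep`).  PROOF.  `Csep` = the constant of `Gap.row_lower`; `T0` of `Gap.trans_bound`; `C_r` = the constant of `refl`; `C₁, H0` = the constants of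
`Gap.mat_unit_count n`.  `ρ₀ = max (C_r + 1, log T0, log H0, 1)`, `B = C₁ (2 n + 1)^n` (crude).
Let `𝒞`, `s ∈ 𝒞`, `Mf` be as in the statement, `r = rowMul (L i₀) (Mf s)` (`QI`), `P_t = (Mf s)⁻¹ (Mf t)`; `prp_eig`: `r P_t = lam_t r`.  `S` = the image of `𝒞` under `t ↦ P_t`; `primEx`: `Y`.
Suppose the conclusion fails.  Then `Y.charpoly` is not irreducible (`back`), so by `Gap.deg_dvd` `d₀ = natDegree (minpoly ℚ Y)` is a proper divisor of `n`, `d₀ ≤ n / n.minFac` (`Gap.le_div_minFac`).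
For `t ∈ 𝒞` the characteristic polynomial of `toQ P_t` is not irreducible: `toQ P_t = p(Y)`, so `natDegree (minpoly ℚ (toQ P_t)) ≤ d₀ < n` (`Gap.gb_finrank_range_aeval`: the range of `aeval (toQ P_t)` is contained in the range of
`aeval Y`), while an irreducible characteristic polynomial would be the minimal polynomial (`minpoly ∣ charpoly`), of degree `n`.  `second` gives `w`, and `refl`: `|4 ρ w t - 4 ρ w s| ≤ 2 ρ + C_r < 4 ρ`, so `w t = w s` (natural numbers).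
So `|log t_i - log s_i| ≤ 2 ρ` for `i ≠ i₀`, hence `≤ 2 n ρ` for all `i` (product one): `s_i ≤ exp (ρ)^(2 n) t_i` and conversely.  `Gap.trans_bound` (`T = exp ρ`, `k = 2 n`): the entries of `P_t` and of its inverse `(Mf t)⁻¹ (Mf s)` are at most
`H = exp ((2 n + 1) ρ) ≥ H0`.  `mat_unit_count`: `card S ≤ C₁ ((2 n + 1) ρ)^(d₀ - 1) ≤ C₁ (2 n + 1)^n ρ^(n / minFac - 1)` (`ρ ≥ 1`, `d₀ ≤ n / minFac`).  `t ↦ P_t` is injective on `𝒞`: `P_t = P_t'` implies `Mf t = Mf t'`, which is reduced at `t` and at `t'`, so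
`Near Csep t t'` (`row_lower`) and `t = t'`.  So `card 𝒞 ≤ B ρ^(n/minFac - 1)`: contradiction.
-/

set_option autoImplicit false

namespace Pool.Agent.Work.MP_77d073_nt.Alg

open Pool.Agent.Work.MP_77d073_nt Pool.Agent.Work.MP_77d073_nt.Gap

private theorem minpoly_deg_le {n : ℕ} {Y X : Matrix (Fin n) (Fin n) ℚ}
    (h : ∃ p : Polynomial ℚ, X = Polynomial.aeval Y p) :
    (minpoly ℚ X).natDegree ≤ (minpoly ℚ Y).natDegree := by
  obtain ⟨p, hp⟩ := h
  rw [← gb_finrank_range_aeval, ← gb_finrank_range_aeval]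
  refine Submodule.finrank_mono ?_
  rintro _ ⟨q, rfl⟩
  refine ⟨q.comp p, ?_⟩
  rw [AlgHom.toLinearMap_apply, AlgHom.toLinearMap_apply, Polynomial.aeval_comp, ← hp]

private theorem minpoly_deg_eq {n : ℕ} {X : Matrix (Fin n) (Fin n) ℚ}
    (h : Irreducible X.charpoly) : (minpoly ℚ X).natDegree = n := by
  have hdvd : minpoly ℚ X ∣ X.charpoly := Matrix.minpoly_dvd_charpoly X
  have hnu : ¬ IsUnit (minpoly ℚ X) := by
    intro hu
    have h1 : minpoly ℚ X = 1 :=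
      (minpoly.monic (Algebra.IsIntegral.isIntegral X)).eq_one_of_isUnit hu
    have h2 := minpoly.aeval ℚ X
    rw [h1, map_one] at h2
    have h3 : X.charpoly.natDegree = n := by
      rw [Matrix.charpoly_natDegree_eq_dim, Fintype.card_fin]
    rcases Nat.eq_zero_or_pos n with h4 | h4
    · have h5 : X.charpoly = 1 :=
        (Matrix.charpoly_monic X).natDegree_eq_zero.mp (h3.trans h4)
      exact h.not_isUnit (by rw [h5]; exact isUnit_one)
    · have h6 := congrFun (congrFun h2 ⟨0, h4⟩) ⟨0, h4⟩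
      rw [Matrix.one_apply_eq, Matrix.zero_apply] at h6
      exact one_ne_zero h6
  obtain ⟨q, hq⟩ := hdvd
  rcases h.isUnit_or_isUnit hq with h1 | h1
  · exact absurd h1 hnu
  · have h2 : X.charpoly.natDegree = n := by
      rw [Matrix.charpoly_natDegree_eq_dim, Fintype.card_fin]
    have hq0 : q ≠ 0 := h1.ne_zero
    have hm0 : minpoly ℚ X ≠ 0 := minpoly.ne_zero (Algebra.IsIntegral.isIntegral X)
    rw [hq, Polynomial.natDegree_mul hm0 hq0, Polynomial.natDegree_eq_zero_of_isUnit h1,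
      add_zero] at h2
    exact h2

private theorem log_close {n : ℕ} (i₀ : Fin n) {ρ u : ℝ} (hρ : 0 ≤ ρ) {s t : Fin n → ℝ}
    (hs : Nr i₀ ρ u s) (ht : Nr i₀ ρ u t) (i : Fin n) :
    s i ≤ Real.exp ρ ^ (2 * n) * t i := by
  have hi : ∀ i, i ≠ i₀ → |Real.log (t i) - Real.log (s i)| ≤ 2 * ρ := by
    intro i hi
    have h1 := abs_le.mp (hs.2 i hi)
    have h2 := abs_le.mp (ht.2 i hi)
    rw [abs_le]
    constructor <;> linarith [h1.1, h1.2, h2.1, h2.2]
  have hsum : ∀ x : Fin n → ℝ, Pos x →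
      Real.log (x i₀) + ∑ i ∈ Finset.univ.erase i₀, Real.log (x i) = 0 := by
    intro x hx
    have e1 : Real.log (x i₀) + ∑ i ∈ Finset.univ.erase i₀, Real.log (x i)
        = ∑ i, Real.log (x i) :=
      Finset.add_sum_erase Finset.univ (fun i => Real.log (x i)) (Finset.mem_univ i₀)
    rw [e1, ← Real.log_prod (fun i _ => (hx.1 i).ne'), hx.2, Real.log_one]
  have hn1 : 1 ≤ n := Nat.one_le_of_lt i₀.2
  have hnR : (1 : ℝ) ≤ n := by exact_mod_cast hn1
  have key : |Real.log (t i) - Real.log (s i)| ≤ 2 * n * ρ := by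
    by_cases h : i = i₀
    · rw [h]
      have e : Real.log (t i₀) - Real.log (s i₀)
          = ∑ i ∈ Finset.univ.erase i₀, (Real.log (s i) - Real.log (t i)) := by
        rw [Finset.sum_sub_distrib]
        linarith [hsum t ht.1, hsum s hs.1]
      rw [e]
      calc |∑ i ∈ Finset.univ.erase i₀, (Real.log (s i) - Real.log (t i))|
          ≤ ∑ i ∈ Finset.univ.erase i₀, |Real.log (s i) - Real.log (t i)| :=
            Finset.abs_sum_le_sum_abs _ _
        _ ≤ ∑ i ∈ Finset.univ.erase i₀, 2 * ρ := by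
            refine Finset.sum_le_sum fun j hj => ?_
            rw [abs_sub_comm]
            exact hi j (Finset.ne_of_mem_erase hj)
        _ = ((n - 1 : ℕ) : ℝ) * (2 * ρ) := by
            rw [Finset.sum_const, Finset.card_erase_of_mem (Finset.mem_univ _), Finset.card_univ,
              Fintype.card_fin, nsmul_eq_mul]
        _ ≤ (n : ℝ) * (2 * ρ) := by
            refine mul_le_mul_of_nonneg_right ?_ (by linarith)
            exact_mod_cast Nat.sub_le n 1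
        _ = 2 * n * ρ := by ring
    · refine (hi i h).trans ?_
      nlinarith
  have h1 : Real.log (s i) ≤ 2 * n * ρ + Real.log (t i) := by
    have := (abs_le.mp key).1
    linarith
  have hsi := hs.1.1 i
  have hti := ht.1.1 i
  calc s i = Real.exp (Real.log (s i)) := (Real.exp_log hsi).symm
    _ ≤ Real.exp (2 * n * ρ + Real.log (t i)) := Real.exp_le_exp.mpr h1
    _ = Real.exp ρ ^ (2 * n) * t i := by
        rw [Real.exp_add, Real.exp_log hti, ← Real.exp_nat_mul]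
        push_cast
        rfl

theorem tubeA (n : ℕ) (hn : 3 ≤ n) {c D K : ℝ} (hc : 0 < c) (hD : 0 < D) (hK : 0 < K) :
    ∃ Csep : ℝ, 1 ≤ Csep ∧ ∃ ρ₀ : ℝ, 1 ≤ ρ₀ ∧ ∃ B : ℝ, 0 < B ∧
    ∀ L : Fin n → Fin n → ℝ, Sys c D L → ∀ (i₀ : Fin n) (ρ : ℝ), ρ₀ ≤ ρ →
    ∀ (𝒞 : Finset (Fin n → ℝ)) (w : (Fin n → ℝ) → ℕ)
      (Mf : (Fin n → ℝ) → Matrix (Fin n) (Fin n) ℤ) (s : Fin n → ℝ), s ∈ 𝒞 →
      (∀ t ∈ 𝒞, Nr i₀ ρ (4 * ρ * w t) t ∧ Red L K t (Mf t) ∧
        Prp (fun j => L i₀ j / L i₀ i₀) (Mf s) (Mf t)) →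
      (∀ t ∈ 𝒞, ∀ t' ∈ 𝒞, Near Csep t t' → t = t') →
      B * ρ ^ (n / n.minFac - 1) < (𝒞.card : ℝ) →
    ∃ A : Matrix (Fin n) (Fin n) ℚ, Irreducible A.charpoly ∧
      ∀ x : Fin n → ℝ, ∑ j, L i₀ j * x j = 0 →
        ∑ j, L i₀ j * ((A.map (Rat.cast : ℚ → ℝ)).mulVec x) j = 0 := by
  classical
  have hn1 : 1 ≤ n := by omega
  obtain ⟨Csep, hCsep, hrow⟩ := row_lower n hn1 hD hK
  obtain ⟨T0, hT0, htb⟩ := trans_bound n hn1 hD hK
  obtain ⟨Cr, hCr, hrefl⟩ := refl n hn1 hD hK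
  obtain ⟨C1, hC1, H0, hH0, hcount⟩ := mat_unit_count n hn1
  refine ⟨Csep, hCsep, max (max (Cr + 1) (Real.log T0)) (max (Real.log H0) 1),
    (le_max_right _ _).trans (le_max_right _ _), C1 * (2 * n + 1) ^ n, by positivity, ?_⟩
  intro L hL i₀ ρ hρ 𝒞 w Mf s hs hyp hsep hcard
  have hρC : Cr + 1 ≤ ρ := ((le_max_left _ _).trans (le_max_left _ _)).trans hρ
  have hρT : Real.log T0 ≤ ρ := ((le_max_right _ _).trans (le_max_left _ _)).trans hρ
  have hρH : Real.log H0 ≤ ρ := ((le_max_left _ _).trans (le_max_right _ _)).trans hρ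
  have hρ1 : 1 ≤ ρ := ((le_max_right _ _).trans (le_max_right _ _)).trans hρ
  have hρ0 : 0 < ρ := by linarith
  by_contra hcon
  have hqi : QI (L i₀) := qi_of_sys hc hL i₀
  have h0 : L i₀ i₀ ≠ 0 := diag_ne hqi i₀
  have hMs : IsUnit (Mf s).det := (hyp s hs).2.1.1
  set r : Fin n → ℝ := rowMul (L i₀) (Mf s) with hrdef
  have hr : QI r := qi_mul hqi hMs
  have heig : ∀ t ∈ 𝒞, ∃ lam : ℝ, ∀ j, rowMul r ((Mf s)⁻¹ * Mf t) j = lam * r j :=
    fun t ht => prp_eig h0 hMs (hyp t ht).2.2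
  obtain ⟨Y, hYirr, ⟨mu, hmu⟩, hYS⟩ := primEx hn1 hr (𝒞.image fun t => (Mf s)⁻¹ * Mf t) (by
    intro U hU
    obtain ⟨t, ht, rfl⟩ := Finset.mem_image.mp hU
    exact heig t ht)
  have hYc : ¬ Irreducible Y.charpoly := fun h => hcon (back hMs h hmu)
  obtain ⟨hdvd, hfull⟩ := deg_dvd hn1 hYirr
  have hlt : (minpoly ℚ Y).natDegree < n :=
    lt_of_le_of_ne (Nat.le_of_dvd (by omega) hdvd) fun h => hYc (hfull h)
  have hd0 : (minpoly ℚ Y).natDegree ≤ n / n.minFac := le_div_minFac (by omega) hdvd hlt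
  have hnirr : ∀ t ∈ 𝒞, ¬ Irreducible (toQ ((Mf s)⁻¹ * Mf t)).charpoly := by
    intro t ht hirr
    have h1 := minpoly_deg_eq hirr
    have h2 := minpoly_deg_le (hYS _ (Finset.mem_image_of_mem _ ht))
    omega
  have hw : ∀ t ∈ 𝒞, w t = w s := by
    intro t ht
    obtain ⟨lam, hlam⟩ := heig t ht
    obtain ⟨w', hw', hw''⟩ := second hn1 hr hlam (hnirr t ht)
    have h1 := hrefl L hL.1 i₀ ρ _ _ hρ0.le s t (hyp s hs).1 (hyp t ht).1 (Mf s) (Mf t) _
      (hyp s hs).2.1 (hyp t ht).2.1 (mul_inv_mul hMs (Mf t)) lam hlam w' hw' hw''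
    have h2 : 4 * ρ * |(w t : ℝ) - w s| < 4 * ρ * 1 := by
      have e : |4 * ρ * (w t : ℝ) - 4 * ρ * w s| = 4 * ρ * |(w t : ℝ) - w s| := by
        rw [← mul_sub, abs_mul, abs_of_pos (by positivity : (0 : ℝ) < 4 * ρ)]
      rw [← e]
      refine h1.trans_lt ?_
      linarith
    have h3 : |(w t : ℝ) - w s| < 1 := lt_of_mul_lt_mul_left h2 (by positivity)
    have h4 := abs_lt.mp h3
    have h5 : (w t : ℝ) < w s + 1 := by linarith [h4.2]
    have h6 : (w s : ℝ) < w t + 1 := by linarith [h4.1]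
    have h7 : w t < w s + 1 := by exact_mod_cast h5
    have h8 : w s < w t + 1 := by exact_mod_cast h6
    omega
  have hTT : T0 ≤ Real.exp ρ := by
    have := Real.exp_le_exp.mpr hρT
    rwa [Real.exp_log (by linarith)] at this
  have hT1 : 1 ≤ Real.exp ρ := hT0.trans hTT
  have hHH : H0 ≤ Real.exp ρ ^ (2 * n + 1) := by
    have h1 := Real.exp_le_exp.mpr hρH
    rw [Real.exp_log (by linarith)] at h1
    refine h1.trans ?_
    calc Real.exp ρ = Real.exp ρ ^ 1 := (pow_one _).symm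
      _ ≤ Real.exp ρ ^ (2 * n + 1) := pow_le_pow_right₀ hT1 (by omega)
  have hnr : ∀ t ∈ 𝒞, Nr i₀ ρ (4 * ρ * w s) t := by
    intro t ht
    have := (hyp t ht).1
    rwa [hw t ht] at this
  have hcardS := hcount Y hYirr (Real.exp ρ ^ (2 * n + 1)) hHH (𝒞.image fun t => (Mf s)⁻¹ * Mf t) (by
    intro U hU
    obtain ⟨t, ht, rfl⟩ := Finset.mem_image.mp hU
    have hMt : IsUnit (Mf t).det := (hyp t ht).2.1.1
    refine ⟨hYS _ hU, ?_, (Mf t)⁻¹ * Mf s, ?_, ?_⟩
    · exact (htb (Real.exp ρ) hTT L hL.1 (2 * n) s t (Mf s) (Mf t) (hyp s hs).1.1 (hyp t ht).1.1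
        (hyp s hs).2.1 (hyp t ht).2.1 (log_close i₀ hρ0.le (hnr s hs) (hnr t ht))).1
    · rw [Matrix.mul_assoc, mul_inv_mul hMt, Matrix.nonsing_inv_mul _ hMs]
    · exact (htb (Real.exp ρ) hTT L hL.1 (2 * n) t s (Mf t) (Mf s) (hyp t ht).1.1 (hyp s hs).1.1
        (hyp t ht).2.1 (hyp s hs).2.1 (log_close i₀ hρ0.le (hnr t ht) (hnr s hs))).1)
  have hinj : (𝒞.image fun t => (Mf s)⁻¹ * Mf t).card = 𝒞.card := by
    refine Finset.card_image_of_injOn ?_
    intro t ht t' ht' heq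
    have ht1 : t ∈ 𝒞 := ht
    have ht1' : t' ∈ 𝒞 := ht'
    have heq' : (Mf s)⁻¹ * Mf t = (Mf s)⁻¹ * Mf t' := heq
    have h1 : Mf t = Mf t' := by
      rw [← mul_inv_mul hMs (Mf t), heq', mul_inv_mul hMs]
    refine hsep t ht1 t' ht1' ?_
    refine hrow L hL.1 t t' (Mf t) (hyp t ht1).1.1 (hyp t' ht1').1.1 (hyp t ht1).2.1 ?_
    rw [h1]
    exact (hyp t' ht1').2.1
  rw [hinj] at hcardS
  have hlogH : Real.log (Real.exp ρ ^ (2 * n + 1)) = (2 * n + 1) * ρ := by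
    rw [Real.log_pow, Real.log_exp]
    push_cast
    ring
  rw [hlogH] at hcardS
  have hfin : C1 * ((2 * n + 1) * ρ) ^ ((minpoly ℚ Y).natDegree - 1)
      ≤ C1 * (2 * n + 1) ^ n * ρ ^ (n / n.minFac - 1) := by
    rw [mul_pow, ← mul_assoc]
    have hn0 : (1 : ℝ) ≤ 2 * n + 1 := by
      have : (0 : ℝ) ≤ n := Nat.cast_nonneg n
      linarith
    refine mul_le_mul ?_ (pow_le_pow_right₀ hρ1 (by omega)) (by positivity) (by positivity)
    exact mul_le_mul_of_nonneg_left (pow_le_pow_right₀ hn0 (by omega)) hC1.le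
  linarith

end Pool.Agent.Work.MP_77d073_nt.Alg
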