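import Mathlib
import Pool.Agent.Work.MP_77d073_nt.Alg.KT
import Pool.Agent.Work.MP_77d073_nt.Alg.Capt
import Pool.Agent.Work.MP_77d073_nt.Alg.Grid2
import Pool.Agent.Work.MP_77d073_nt.Alg.TubeA

/-!
# MP_77d073_nt/Alg, Tube (size M-L): low complexity of all positions

PROOF.  Constants: `Csep, ρ₀, B` (`tubeA`), `c', ρ₀'` (`grid2` for `Csep`), `C₄, ε₁` (`capt`), `C_L` (`toNR`), `q = 1000 n^4`, `e = n - n / minFac` (so `n - 1 - e = n / minFac - 1`, `1 ≤ n / minFac ≤ n`).  WLOG `C ≥ 1`.  Choose a natural number `m ≥ q` with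
`c' m > C q^e B`.  `δ = (q - n - 1) / (4 m) ≤ 1`, `η = (n + 1) / (4 m)`; `16 n^3 η ≤ δ` because `16 n^3 (n + 1) + n + 1 ≤ 1000 n^4`.  `l j = L i₀ j / L i₀ i₀`; `R₁` from `kt`.  Choose `ε₀` so small that for `E = log (1/ε)`, `ρ = E / q`:
`ρ ≥ ρ₀, ρ₀', log C_L, log (C_L C₄), 1`, `4 m ρ ≥ R₁`, `ε ≤ ε₁`.  Take `ε`, `N`, `y` from `h`.
`grid2`: `G`, `w`.  Every `t ∈ G` satisfies the condition of `h` with `u = 4 ρ w t ≥ 0` and `|log t_i + u| ≤ ρ ≤ E`; choose `Mf t`, `j_t`, `θ_t`.  `N ≤ C E^e = C q^e ρ^e`.  Pigeonhole (`Gap.pigeon`): some class `𝒞 = {t ∈ G | j_t = j}` has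
`card 𝒞 ≥ c' m ρ^(n-1) / N`, more precisely `N * card 𝒞 ≥ c' m ρ^(n-1) > C q^e ρ^e B ρ^(n/minFac - 1) ≥ N B ρ^(n/minFac - 1)`: so `card 𝒞 > B ρ^(..)` (for the largest class; `G` is nonempty, so `N ≥ 1`).
Fix `s ∈ 𝒞`.  For `t ∈ 𝒞`: `capt`: `|tr L (Mf t) t i₀ k - θ'' tr L (Mf s) s i₀ k| ≤ C₄ ε`.  `toNR` with `R = 4 m ρ`, `u = 4 ρ w s ≤ 4 m ρ`, `v = 4 ρ w t`: `C_L exp (n ρ) ≤ exp ((n + 1) ρ) = exp (η R)`;
`C_L exp (n ρ) C₄ ε ≤ exp (ρ + n ρ - q ρ) = exp (- δ R)`.  `kt`: `Prp l (Mf s) (Mf t)`.  `tubeA`.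
-/

set_option autoImplicit false

namespace Pool.Agent.Work.MP_77d073_nt.Alg

open Pool.Agent.Work.MP_77d073_nt Pool.Agent.Work.MP_77d073_nt.Gap

theorem tube (n : ℕ) (hn : 3 ≤ n) {c D K : ℝ} (hc : 0 < c) (hD : 0 < D) (hK : 0 < K)
    (L : Fin n → Fin n → ℝ) (hL : Sys c D L) (i₀ : Fin n)
    (halg : ∃ θ : ℝ, θ ≠ 0 ∧ ∀ j, IsAlgebraic ℚ (θ * L i₀ j)) (C : ℝ)
    (h : ∀ ε₀ : ℝ, 0 < ε₀ → ∃ ε : ℝ, 0 < ε ∧ ε < ε₀ ∧ ∃ N : ℕ,
      (N : ℝ) ≤ C * Real.log (1 / ε) ^ (n - n / n.minFac) ∧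
      ∃ y : Fin N → Fin n → ℝ, ∀ t : Fin n → ℝ, Pos t →
        (∃ u : ℝ, 0 ≤ u ∧ ∀ i, i ≠ i₀ → |Real.log (t i) + u| ≤ Real.log (1 / ε)) →
        ∃ M : Matrix (Fin n) (Fin n) ℤ, Red L K t M ∧ ∃ (j : Fin N) (θ : ℝ),
          ∀ k, |tr L M t i₀ k - θ * y j k| ≤ ε) :
    ∃ A : Matrix (Fin n) (Fin n) ℚ, Irreducible A.charpoly ∧
      ∀ x : Fin n → ℝ, ∑ j, L i₀ j * x j = 0 →
        ∑ j, L i₀ j * ((A.map (Rat.cast : ℚ → ℝ)).mulVec x) j = 0 := by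
  classical
  obtain ⟨Csep, hCsep, ρ₁, hρ₁, B, hB, hA⟩ := tubeA n hn hc hD hK
  obtain ⟨c', hc', ρ₂, hρ₂, hG⟩ := grid2 n (by omega) Csep hCsep
  obtain ⟨C₄, hC₄, ε₁, hε₁, hcapt⟩ := capt n (by omega) hD hK
  have hqi : QI (L i₀) := qi_of_sys hc hL i₀
  have h0 : L i₀ i₀ ≠ 0 := diag_ne hqi i₀
  have hdet : (Matrix.of L).det ≠ 0 := by
    intro h1
    have h2 := hL.1
    rw [h1, abs_zero] at h2
    exact hD.ne h2
  obtain ⟨CL, hCL, hNR⟩ := toNR i₀ L hdet h0 hK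
  have hl1 : (fun j => L i₀ j / L i₀ i₀) i₀ = 1 := div_self h0
  have hlalg : ∀ j, IsAlgebraic ℚ ((fun j => L i₀ j / L i₀ i₀) j) := fun j => alg_ratio hqi i₀ halg j
  -- the parameters
  have hn3 : (3 : ℝ) ≤ n := by exact_mod_cast hn
  set e : ℕ := n - n / n.minFac with he
  set q : ℝ := 1000 * (n : ℝ) ^ 4 with hq
  have hn4 : (1 : ℝ) ≤ (n : ℝ) ^ 4 := one_le_pow₀ (by linarith)
  have hq0 : 0 < q := by rw [hq]; linarith
  set C' : ℝ := max C 1 with hC'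
  have hC'1 : 1 ≤ C' := le_max_right _ _
  obtain ⟨m, hm⟩ := exists_nat_gt (max q (C' * q ^ e * B / c'))
  have hmq : q < m := (le_max_left _ _).trans_lt hm
  have hmc : C' * q ^ e * B < c' * m := by
    have h1 := (le_max_right q (C' * q ^ e * B / c')).trans_lt hm
    rw [div_lt_iff₀ hc'] at h1
    linarith
  have hm0 : (0 : ℝ) < m := hq0.trans hmq
  set δ : ℝ := (q - n - 1) / (4 * m) with hδ
  set η : ℝ := (n + 1) / (4 * m) with hη
  have hn34 : 3 * (n : ℝ) ^ 3 ≤ (n : ℝ) ^ 4 := by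
    have h1 : (0 : ℝ) ≤ (n : ℝ) ^ 3 := by positivity
    calc 3 * (n : ℝ) ^ 3 ≤ n * (n : ℝ) ^ 3 := mul_le_mul_of_nonneg_right hn3 h1
      _ = (n : ℝ) ^ 4 := by ring
  have hn14 : (n : ℝ) ≤ (n : ℝ) ^ 4 := by
    calc (n : ℝ) = (n : ℝ) ^ 1 := (pow_one _).symm
      _ ≤ (n : ℝ) ^ 4 := pow_le_pow_right₀ (by linarith) (by norm_num)
  have hδ0 : 0 < δ := by
    rw [hδ]
    apply div_pos _ (by positivity)
    rw [hq]
    linarith
  have hδ1 : δ ≤ 1 := by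
    rw [hδ, div_le_one (by positivity)]
    linarith
  have hη0 : 0 ≤ η := by rw [hη]; positivity
  have hηδ : 16 * (n : ℝ) ^ 3 * η ≤ δ := by
    rw [hη, hδ, ← mul_div_assoc]
    apply div_le_div_of_nonneg_right _ (by positivity)
    have h1 : 16 * (n : ℝ) ^ 3 * (n + 1) = 16 * (n : ℝ) ^ 4 + 16 * (n : ℝ) ^ 3 := by ring
    rw [h1, hq]
    linarith
  obtain ⟨R₁, hR₁⟩ := kt i₀ (fun j => L i₀ j / L i₀ i₀) hl1 hlalg hδ0 hδ1 hη0 hηδ
  set ρm : ℝ := max ρ₁ (max ρ₂ (max (Real.log CL) (max (Real.log (CL * C₄)) (max 1 R₁)))) with hρm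
  obtain ⟨ε, hε0, hεlt, N, hN, y, hy⟩ := h (min ε₁ (Real.exp (-(q * ρm))))
    (lt_min hε₁ (Real.exp_pos _))
  have hεε₁ : ε ≤ ε₁ := hεlt.le.trans (min_le_left _ _)
  have hE : q * ρm < Real.log (1 / ε) := by
    have h1 : ε < Real.exp (-(q * ρm)) := hεlt.trans_le (min_le_right _ _)
    have h2 := Real.log_lt_log hε0 h1
    rw [Real.log_exp] at h2
    rw [one_div, Real.log_inv]
    linarith
  set E : ℝ := Real.log (1 / ε) with hEdef
  set ρ : ℝ := E / q with hρ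
  have hqρ : q * ρ = E := by rw [hρ]; field_simp
  have hρρm : ρm ≤ ρ := by
    rw [hρ, le_div_iff₀ hq0]
    linarith
  have b1 : ρ₁ ≤ ρ := (le_max_left _ _).trans hρρm
  have b2 : ρ₂ ≤ ρ := ((le_max_left _ _).trans (le_max_right _ _)).trans hρρm
  have b3 : Real.log CL ≤ ρ :=
    ((le_max_left _ _).trans ((le_max_right _ _).trans (le_max_right _ _))).trans hρρm
  have b4 : Real.log (CL * C₄) ≤ ρ :=
    ((le_max_left _ _).trans ((le_max_right _ _).trans ((le_max_right _ _).trans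
      (le_max_right _ _)))).trans hρρm
  have b5 : 1 ≤ ρ :=
    ((le_max_left _ _).trans ((le_max_right _ _).trans ((le_max_right _ _).trans
      ((le_max_right _ _).trans (le_max_right _ _))))).trans hρρm
  have b6 : R₁ ≤ ρ :=
    ((le_max_right _ _).trans ((le_max_right _ _).trans ((le_max_right _ _).trans
      ((le_max_right _ _).trans (le_max_right _ _))))).trans hρρm
  have hρ0 : 0 < ρ := by linarith
  have hEρ : ρ ≤ E := by
    rw [← hqρ]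
    have h1 : 1 ≤ q := by rw [hq]; linarith
    nlinarith
  have hE0 : 0 < E := by linarith
  have hεE : ε = Real.exp (-(q * ρ)) := by
    rw [hqρ, hEdef, one_div, Real.log_inv, neg_neg, Real.exp_log hε0]
  obtain ⟨G, w, hGw, hGsep, hGcard⟩ := hG ρ b2 i₀ m
  -- the data of the positions
  have hdata : ∀ t ∈ G, ∃ M : Matrix (Fin n) (Fin n) ℤ, Red L K t M ∧ ∃ (j : Fin N) (θ : ℝ),
      ∀ k, |tr L M t i₀ k - θ * y j k| ≤ ε := by
    intro t ht
    refine hy t (hGw t ht).2.1 ⟨4 * ρ * w t, by positivity, fun i hi => ?_⟩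
    exact ((hGw t ht).2.2 i hi).trans hEρ
  have hGpos : 0 < G.card := by
    have h1 : (0 : ℝ) < c' * m * ρ ^ (n - 1) := by positivity
    exact_mod_cast h1.trans_le hGcard
  obtain ⟨t0, ht0⟩ := Finset.card_pos.1 hGpos
  obtain ⟨_, _, j0, _, _⟩ := hdata t0 ht0
  have hall : ∀ t : Fin n → ℝ, ∃ (M : Matrix (Fin n) (Fin n) ℤ) (j : Fin N) (θ : ℝ),
      t ∈ G → (Red L K t M ∧ ∀ k, |tr L M t i₀ k - θ * y j k| ≤ ε) := by
    intro t
    by_cases ht : t ∈ G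
    · obtain ⟨M, hM, j, θ, hθ⟩ := hdata t ht
      exact ⟨M, j, θ, fun _ => ⟨hM, hθ⟩⟩
    · exact ⟨1, j0, 0, fun h => absurd h ht⟩
  choose Mf jf θf hall' using hall
  -- the large class
  have hclass : ∃ j : Fin N, B * ρ ^ (n / n.minFac - 1) <
      ((G.filter fun t => jf t = j).card : ℝ) := by
    by_contra hcon
    have hcon' : ∀ j : Fin N, ((G.filter fun t => jf t = j).card : ℝ) ≤
        B * ρ ^ (n / n.minFac - 1) := fun j => not_lt.1 fun hj => hcon ⟨j, hj⟩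
    have h1 := pigeon G N jf _ hcon'
    have h2 : (N : ℝ) ≤ C' * E ^ e :=
      hN.trans (mul_le_mul_of_nonneg_right (le_max_left _ _) (by positivity))
    have h3 : (N : ℝ) * (B * ρ ^ (n / n.minFac - 1)) ≤
        (C' * E ^ e) * (B * ρ ^ (n / n.minFac - 1)) :=
      mul_le_mul_of_nonneg_right h2 (by positivity)
    have hmf : 1 ≤ n / n.minFac := by
      rw [Nat.le_div_iff_mul_le (Nat.minFac_pos n), one_mul]
      exact Nat.minFac_le (by omega)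
    have hmf2 : n / n.minFac ≤ n := Nat.div_le_self _ _
    have hea : e + (n / n.minFac - 1) = n - 1 := by omega
    have h4 : (C' * E ^ e) * (B * ρ ^ (n / n.minFac - 1)) = (C' * q ^ e * B) * ρ ^ (n - 1) := by
      rw [← hqρ, mul_pow, ← hea, pow_add]
      ring
    have h5 : c' * m * ρ ^ (n - 1) ≤ (C' * q ^ e * B) * ρ ^ (n - 1) := by
      rw [← h4]
      exact hGcard.trans (h1.trans h3)
    have h6 := le_of_mul_le_mul_right h5 (by positivity)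
    linarith
  obtain ⟨j, hj⟩ := hclass
  set 𝒞 := G.filter fun t => jf t = j with h𝒞
  have h𝒞pos : 0 < 𝒞.card := by
    have h1 : (0 : ℝ) < B * ρ ^ (n / n.minFac - 1) := by positivity
    exact_mod_cast h1.trans hj
  obtain ⟨s, hs⟩ := Finset.card_pos.1 h𝒞pos
  have hmem : ∀ t ∈ 𝒞, t ∈ G ∧ jf t = j := fun t ht => Finset.mem_filter.1 ht
  refine hA L hL i₀ ρ b1 𝒞 w Mf s hs ?_ ?_ hj
  · intro t ht
    obtain ⟨htG, htj⟩ := hmem t ht
    obtain ⟨hsG, hsj⟩ := hmem s hs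
    obtain ⟨hMt, hyt⟩ := hall' t htG
    obtain ⟨hMs, hys⟩ := hall' s hsG
    rw [htj] at hyt
    rw [hsj] at hys
    obtain ⟨hwt, hNt⟩ := hGw t htG
    obtain ⟨hws, hNs⟩ := hGw s hsG
    refine ⟨hNt, hMt, ?_⟩
    obtain ⟨θ'', hθ''⟩ := hcapt L hL.1 i₀ s t hNs.1 hNt.1 (Mf s) (Mf t) hMs hMt (y j) (θf s) (θf t)
      ε hε0.le hεε₁ hys hyt
    have hCL0 : 0 < CL := by linarith
    have hws' : ((w s : ℕ) : ℝ) ≤ m := by exact_mod_cast hws.le
    have hwt' : ((w t : ℕ) : ℝ) ≤ m := by exact_mod_cast hwt.le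
    have hηR : η * (4 * m * ρ) = (n + 1) * ρ := by
      rw [hη]
      field_simp
    have hδR : δ * (4 * m * ρ) = (q - n - 1) * ρ := by
      rw [hδ]
      field_simp
    have hCLρ : CL ≤ Real.exp ρ := by
      rw [← Real.exp_log hCL0]
      exact Real.exp_le_exp.2 b3
    have hCLC : CL * C₄ ≤ Real.exp ρ := by
      have h1 : 0 < CL * C₄ := mul_pos hCL0 (by linarith)
      rw [← Real.exp_log h1]
      exact Real.exp_le_exp.2 b4
    obtain ⟨θ', hθ'⟩ := hNR (4 * m * ρ) ρ (C₄ * ε) η δ (4 * ρ * w s) (4 * ρ * w t) hρ0.le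
      (mul_nonneg (by linarith) hε0.le) (by positivity)
      (by
        have h1 : 4 * ρ * (w s : ℝ) ≤ 4 * ρ * m := mul_le_mul_of_nonneg_left hws' (by positivity)
        linarith)
      (by positivity)
      (by
        have h1 : 4 * ρ * (w t : ℝ) ≤ 4 * ρ * m := mul_le_mul_of_nonneg_left hwt' (by positivity)
        linarith)
      (by
        rw [hηR]
        calc CL * Real.exp (n * ρ) ≤ Real.exp ρ * Real.exp (n * ρ) :=
              mul_le_mul_of_nonneg_right hCLρ (Real.exp_pos _).le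
          _ = Real.exp ((n + 1) * ρ) := by rw [← Real.exp_add]; congr 1; ring)
      (by
        rw [hδR, hεE]
        calc CL * Real.exp (n * ρ) * (C₄ * Real.exp (-(q * ρ))) =
              (CL * C₄) * (Real.exp (n * ρ) * Real.exp (-(q * ρ))) := by ring
          _ ≤ Real.exp ρ * (Real.exp (n * ρ) * Real.exp (-(q * ρ))) :=
              mul_le_mul_of_nonneg_right hCLC (by positivity)
          _ = Real.exp (-((q - n - 1) * ρ)) := by
              rw [← Real.exp_add, ← Real.exp_add]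
              congr 1
              ring)
      s t hNs hNt (Mf s) (Mf t) hMs hMt θ'' hθ''
    refine hR₁ (4 * m * ρ) ?_ (4 * ρ * w s) (4 * ρ * w t) (Mf s) (Mf t) θ' hθ'
    have h1 : (1 : ℝ) ≤ 4 * m := by
      have : 1 ≤ q := by rw [hq]; linarith
      linarith
    calc R₁ ≤ ρ := b6
      _ = 1 * ρ := (one_mul ρ).symm
      _ ≤ 4 * m * ρ := mul_le_mul_of_nonneg_right h1 hρ0.le
  · intro t ht t' ht' hnear
    exact hGsep t (hmem t ht).1 t' (hmem t' ht').1 hnear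

end Pool.Agent.Work.MP_77d073_nt.Alg
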