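import Mathlib
import Pool.Agent.Work.MP_77d073_nt.HypResult
import Pool.Agent.Work.MP_77d073_nt.Reduce
import Pool.Agent.Work.MP_77d073_nt.GapGC
import Pool.Agent.Work.MP_77d073_nt.Alg.Ray5
import Pool.Agent.Work.MP_77d073_nt.Alg.Ray35
import Pool.Agent.Work.MP_77d073_nt.Alg.Tube

set_option autoImplicit false

namespace Pool.Agent.Work.MP_77d073_nt.Alg.Main

open Filter Topology Polynomial Pool.Agent.Work.MP_77d073_nt Pool.Agent.Work.MP_77d073_nt.Gap
  Pool.Agent.Work.MP_77d073_nt.Alg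

/-- `M` is an integer matrix of determinant `±1` such that the forms `t_i L_i ∘ M` have all
coefficients at most `K` in absolute value. -/
def Reduced {n : ℕ} (L : Fin n → Fin n → ℝ) (K : ℝ) (t : Fin n → ℝ)
    (M : Matrix (Fin n) (Fin n) ℤ) : Prop :=
  (M.det = 1 ∨ M.det = -1) ∧ ∀ i j, |t i * ∑ k, L i k * (M k j : ℝ)| ≤ K

/-- There are `N` vectors such that at every diagonal position `t` (positive, product one) with the
property `P` some reduced version of the form `L i₀` is, up to a scalar factor, within `ε` of one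
of these vectors. -/
def Captured {n : ℕ} (L : Fin n → Fin n → ℝ) (i₀ : Fin n) (K ε : ℝ) (P : (Fin n → ℝ) → Prop)
    (N : ℕ) : Prop :=
  ∃ y : Fin N → Fin n → ℝ, ∀ t : Fin n → ℝ, (∀ i, 0 < t i) → ∏ i, t i = 1 → P t →
    ∃ M : Matrix (Fin n) (Fin n) ℤ, Reduced L K t M ∧ ∃ (j : Fin N) (θ : ℝ),
      ∀ k, |t i₀ * ∑ l, L i₀ l * (M l k : ℝ) - θ * y j k| ≤ ε

/-- The position of the time `u` on the ray of the index `i₀`: `e^((n-1)u)` at `i₀` and `e^(-u)` at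
the other indices. -/
noncomputable def ray {n : ℕ} (i₀ : Fin n) (u : ℝ) (i : Fin n) : ℝ :=
  if i = i₀ then Real.exp (((n : ℝ) - 1) * u) else Real.exp (-u)

/-- Roth type theorem for Oppenheim's conjecture: for a system `L` with one algebraic form the
conclusion of the conjecture is equivalent to linear complexity (with any constant) of the reduced
versions of this form along its ray, to complexity `O((log 1/ε)^(n - n/p))` at all positions, and
to the existence of `δ > 0` and of arbitrarily late pairs of distant times of the ray at which the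
reduced versions agree up to `e^(-δR)`. -/
theorem result (n : ℕ) (hn : 3 ≤ n) (i₀ : Fin n) (c D : ℝ) (hc : 0 < c) (hD : 0 < D) :
    ∃ K₀ : ℝ, ∀ K : ℝ, K₀ ≤ K → ∃ τ : ℝ, 0 < τ ∧ ∀ L : Fin n → Fin n → ℝ,
      |(Matrix.of L).det| = D →
      (∀ p : Fin n → ℤ, p ≠ 0 → c ≤ |∏ i, ∑ j, L i j * (p j : ℝ)|) →
      (∃ θ : ℝ, θ ≠ 0 ∧ ∀ j, IsAlgebraic ℚ (θ * L i₀ j)) →
      List.TFAE [
        (∃ A : Matrix (Fin n) (Fin n) ℤ,
          A.det = 1 ∧
          Irreducible (A.charpoly.map (Int.castRingHom ℚ)) ∧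
          (∀ z : ℂ, Polynomial.aeval z A.charpoly = 0 → z.im = 0) ∧
          ∀ i : Fin n, ∀ x : Fin n → ℝ, ∑ j, L i j * x j = 0 →
            ∑ j, L i j * ((A.map (Int.cast : ℤ → ℝ)).mulVec x) j = 0),
        (∃ N : ℕ, Captured L i₀ K 0 (fun _ => True) N),
        (∃ C : ℝ, ∀ ε₀ : ℝ, 0 < ε₀ → ∃ ε : ℝ, 0 < ε ∧ ε < ε₀ ∧ ∃ N : ℕ,
          (N : ℝ) ≤ C * Real.log (1 / ε) ∧
          Captured L i₀ K ε (fun t => ∃ u : ℝ, 0 ≤ u ∧ t = ray i₀ u) N),
        (∃ C : ℝ, ∀ ε₀ : ℝ, 0 < ε₀ → ∃ ε : ℝ, 0 < ε ∧ ε < ε₀ ∧ ∃ N : ℕ,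
          (N : ℝ) ≤ C * Real.log (1 / ε) ^ (n - n / n.minFac) ∧
          Captured L i₀ K ε (fun t => ∃ u : ℝ, 0 ≤ u ∧
            ∀ i, i ≠ i₀ → |Real.log (t i) + u| ≤ Real.log (1 / ε)) N),
        (∃ δ : ℝ, 0 < δ ∧ ∀ R₀ : ℝ, ∃ R : ℝ, R₀ ≤ R ∧ ∃ u v : ℝ, 0 ≤ u ∧ u + τ ≤ v ∧ v ≤ R ∧
          ∃ M M' : Matrix (Fin n) (Fin n) ℤ, Reduced L K (ray i₀ u) M ∧
            Reduced L K (ray i₀ v) M' ∧ ∃ θ : ℝ, ∀ k,
              |ray i₀ v i₀ * ∑ l, L i₀ l * (M' l k : ℝ) -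
                θ * (ray i₀ u i₀ * ∑ l, L i₀ l * (M l k : ℝ))| ≤ Real.exp (-(δ * R)))] := by
  classical
  have hn1 : 1 ≤ n := by omega
  obtain ⟨β, hβ, hred⟩ := reduction hn1 hc hD
  refine ⟨β, fun K hK => ?_⟩
  have hK0 : 0 < K := lt_of_lt_of_le hβ hK
  obtain ⟨τ, hτ, hray5⟩ := ray5 n hn hc hD hK0
  refine ⟨τ, hτ, fun L hdet hlow halg => ?_⟩
  have hsys : Sys c D L := ⟨hdet, hlow⟩
  have hray : ∀ u, ray i₀ u = ry i₀ u := fun u => rfl
  have hli : LinearIndependent ℝ L := by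
    have h1 : (Matrix.of L).det ≠ 0 := by
      intro h
      rw [h, abs_zero] at hdet
      linarith
    exact Matrix.linearIndependent_rows_of_det_ne_zero h1
  -- the conclusion from one invariant hyperplane
  have hfin : (∃ A : Matrix (Fin n) (Fin n) ℚ, Irreducible A.charpoly ∧
      ∀ x : Fin n → ℝ, ∑ j, L i₀ j * x j = 0 →
        ∑ j, L i₀ j * ((A.map (Rat.cast : ℚ → ℝ)).mulVec x) j = 0) →
      (∃ A : Matrix (Fin n) (Fin n) ℤ,
          A.det = 1 ∧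
          Irreducible (A.charpoly.map (Int.castRingHom ℚ)) ∧
          (∀ z : ℂ, Polynomial.aeval z A.charpoly = 0 → z.im = 0) ∧
          ∀ i : Fin n, ∀ x : Fin n → ℝ, ∑ j, L i j * x j = 0 →
            ∑ j, L i j * ((A.map (Int.cast : ℤ → ℝ)).mulVec x) j = 0) := by
    rintro ⟨B, hB, hBi⟩
    refine Pool.Agent.Work.MP_77d073_nt.HypResult.result n hn L hli ⟨c, hc, hlow⟩
      (fun _ => 1) (fun _ => 1) L (fun _ => by simp) (fun _ => by simp) (fun i j => ?_) i₀ B hB hBi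
    have h1 : (fun _ : ℕ => (1 : ℝ) * ∑ l, L i l * (((1 : Matrix (Fin n) (Fin n) ℤ) l j : ℤ) : ℝ)) =
        fun _ => L i j := by
      funext k
      simp [Matrix.one_apply]
    have h2 : Filter.Tendsto (fun _ : ℕ => (1 : ℝ) *
        ∑ l, L i l * (((1 : Matrix (Fin n) (Fin n) ℤ) l j : ℤ) : ℝ)) Filter.atTop
        (nhds (L i j)) := by
      rw [h1]
      exact tendsto_const_nhds
    exact h2
  have hredeq : ∀ (t : Fin n → ℝ) (M : Matrix (Fin n) (Fin n) ℤ),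
      Reduced L K t M → Red L K t M := by
    rintro t M ⟨hM, hb⟩
    refine ⟨?_, hb⟩
    rcases hM with h | h <;> simp [h]
  have hredeq' : ∀ (t : Fin n → ℝ) (M : Matrix (Fin n) (Fin n) ℤ),
      Red L K t M → Reduced L K t M := by
    rintro t M ⟨hM, hb⟩
    refine ⟨?_, hb⟩
    exact Int.isUnit_iff.1 hM
  tfae_have 1 → 2 := by
    rintro ⟨A, -, hirr, -, hinv⟩
    obtain ⟨N, y, hy⟩ := conv n hn1 L hc hD hsys A hirr hinv i₀ K
    refine ⟨N, y, fun t ht hprod _ => ?_⟩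
    -- reduction at `t`
    have hdet' : |(Matrix.of (fun i j => t i * L i j)).det| = D := by
      have h1 : (Matrix.of (fun i j => t i * L i j)).det = (∏ i, t i) * (Matrix.of L).det := by
        exact Matrix.det_mul_column t (Matrix.of L)
      rw [h1, hprod, one_mul, hdet]
    have hlow' : ∀ p : Fin n → ℤ, p ≠ 0 → c ≤ |∏ i, ∑ j, (t i * L i j) * (p j : ℝ)| := by
      intro p hp
      have h1 : ∏ i, ∑ j, (t i * L i j) * (p j : ℝ) = ∏ i, ∑ j, L i j * (p j : ℝ) := by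
        have h2 : ∀ i, ∑ j, (t i * L i j) * (p j : ℝ) = t i * ∑ j, L i j * (p j : ℝ) := by
          intro i
          rw [Finset.mul_sum]
          exact Finset.sum_congr rfl fun j _ => by ring
        simp_rw [h2]
        rw [Finset.prod_mul_distrib, hprod, one_mul]
      rw [h1]
      exact hlow p hp
    obtain ⟨M, hM, hMb⟩ := hred (fun i j => t i * L i j) hdet' hlow'
    have hMb' : ∀ i j, |t i * ∑ k, L i k * (M k j : ℝ)| ≤ K := by
      intro i j
      have h1 : t i * ∑ k, L i k * (M k j : ℝ) = ∑ l, t i * L i l * (M l j : ℝ) := by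
        rw [Finset.mul_sum]
        exact Finset.sum_congr rfl fun k _ => by ring
      rw [h1]
      exact (hMb i j).trans hK
    refine ⟨M, ⟨hM, hMb'⟩, ?_⟩
    have hu : IsUnit M.det := by
      rcases hM with h | h <;> simp [h]
    obtain ⟨j, θ, hθ⟩ := hy t M ⟨ht, hprod⟩ ⟨hu, hMb'⟩
    refine ⟨j, θ, fun k => ?_⟩
    have := hθ k
    unfold tr at this
    rw [this]; simp
  tfae_have 2 → 3 := by
    rintro ⟨N, y, hy⟩
    refine ⟨N, fun ε₀ hε₀ => ⟨min (ε₀ / 2) (Real.exp (-1)), by positivity,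
      lt_of_le_of_lt (min_le_left _ _) (by linarith), N, ?_, y, ?_⟩⟩
    · have h1 : 1 ≤ Real.log (1 / min (ε₀ / 2) (Real.exp (-1))) := by
        rw [one_div, Real.log_inv]
        have h2 : Real.log (min (ε₀ / 2) (Real.exp (-1))) ≤ Real.log (Real.exp (-1)) :=
          Real.log_le_log (by positivity) (min_le_right _ _)
        rw [Real.log_exp] at h2
        linarith
      exact le_mul_of_one_le_right (Nat.cast_nonneg N) h1
    · intro t ht hprod _
      obtain ⟨M, hM, j, θ, h⟩ := hy t ht hprod trivial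
      exact ⟨M, hM, j, θ, fun k => (h k).trans (by positivity)⟩
  tfae_have 2 → 4 := by
    rintro ⟨N, y, hy⟩
    refine ⟨N, fun ε₀ hε₀ => ⟨min (ε₀ / 2) (Real.exp (-1)), by positivity,
      lt_of_le_of_lt (min_le_left _ _) (by linarith), N, ?_, y, ?_⟩⟩
    · have h1 : 1 ≤ Real.log (1 / min (ε₀ / 2) (Real.exp (-1))) := by
        rw [one_div, Real.log_inv]
        have h2 : Real.log (min (ε₀ / 2) (Real.exp (-1))) ≤ Real.log (Real.exp (-1)) :=
          Real.log_le_log (by positivity) (min_le_right _ _)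
        rw [Real.log_exp] at h2
        linarith
      exact le_mul_of_one_le_right (Nat.cast_nonneg N) (one_le_pow₀ h1)
    · intro t ht hprod _
      obtain ⟨M, hM, j, θ, h⟩ := hy t ht hprod trivial
      exact ⟨M, hM, j, θ, fun k => (h k).trans (by positivity)⟩
  tfae_have 3 → 5 := by
    rintro ⟨C, hC⟩
    obtain ⟨δ, hδ, h⟩ := ray35 n hn1 hD hK0 hτ L hdet i₀ C (fun ε₀ hε₀ => by
      obtain ⟨ε, h1, h2, N, h3, y, hy⟩ := hC ε₀ hε₀
      refine ⟨ε, h1, h2, N, h3, y, fun u hu => ?_⟩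
      have hpos := (Nr_ry i₀ le_rfl u).1
      obtain ⟨M, hM, j, θ, h⟩ := hy (ry i₀ u) hpos.1 hpos.2 ⟨u, hu, rfl⟩
      exact ⟨M, hredeq _ _ hM, j, θ, h⟩)
    refine ⟨δ, hδ, fun R₀ => ?_⟩
    obtain ⟨R, hR, u, v, h1, h2, h3, M, M', hM, hM', θ, hθ⟩ := h R₀
    exact ⟨R, hR, u, v, h1, h2, h3, M, M', hredeq' _ _ hM, hredeq' _ _ hM', θ, hθ⟩
  tfae_have 5 → 1 := by
    rintro ⟨δ, hδ, h⟩
    apply hfin
    refine hray5 L hsys i₀ halg ⟨δ, hδ, fun R₀ => ?_⟩
    obtain ⟨R, hR, u, v, h1, h2, h3, M, M', hM, hM', θ, hθ⟩ := h R₀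
    exact ⟨R, hR, u, v, h1, h2, h3, M, M', hredeq _ _ hM, hredeq _ _ hM', θ, hθ⟩
  tfae_have 4 → 1 := by
    rintro ⟨C, hC⟩
    apply hfin
    refine tube n hn hc hD hK0 L hsys i₀ halg C (fun ε₀ hε₀ => ?_)
    obtain ⟨ε, h1, h2, N, h3, y, hy⟩ := hC ε₀ hε₀
    refine ⟨ε, h1, h2, N, h3, y, fun t ht hu => ?_⟩
    obtain ⟨M, hM, j, θ, h⟩ := hy t ht.1 ht.2 hu
    exact ⟨M, hredeq _ _ hM, j, θ, h⟩
  tfae_finish

end Pool.Agent.Work.MP_77d073_nt.Alg.Main
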